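import Mathlib

/-!
Project HT (helper57, MP_209724_lc): roots of perturbed polynomials, sectors free of roots.
-/

set_option autoImplicit false

namespace Pool.Agent.Helper57.HT

open Polynomial Filter Topology Metric

/-- the norms of the coefficients of a product of linear factors -/
theorem l1_prod (r : ℝ) (hr : 0 ≤ r) (s : Multiset ℂ) (D : ℕ) :
    ∑ k ∈ Finset.range D, ‖((s.map fun a => (X - C a : ℂ[X])).prod).coeff k‖ * r ^ k ≤
      (s.map fun a => r + ‖a‖).prod := by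
  induction s using Multiset.induction_on generalizing D with
  | empty =>
    simp only [Multiset.map_zero, Multiset.prod_zero]
    rcases D with _ | D
    · simp
    rw [Finset.sum_range_succ', Finset.sum_eq_zero]
    · simp
    · intro k _
      rw [coeff_one, if_neg (by omega)]
      simp
  | cons a s ih =>
    rw [Multiset.map_cons, Multiset.prod_cons, Multiset.map_cons, Multiset.prod_cons]
    set q := (s.map fun a => (X - C a : ℂ[X])).prod with hq
    have h1 : ∀ k, ‖((X - C a) * q).coeff k‖ * r ^ k ≤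
        (if k = 0 then 0 else ‖q.coeff (k - 1)‖ * r ^ (k - 1) * r) + ‖a‖ * (‖q.coeff k‖ * r ^ k) := by
      intro k
      rcases k with _ | k
      · rw [mul_coeff_zero]
        simp
      · rw [sub_mul, coeff_sub, coeff_X_mul, coeff_C_mul, if_neg (by omega), Nat.add_sub_cancel]
        calc ‖q.coeff k - a * q.coeff (k + 1)‖ * r ^ (k + 1)
            ≤ (‖q.coeff k‖ + ‖a‖ * ‖q.coeff (k + 1)‖) * r ^ (k + 1) := by
              refine mul_le_mul_of_nonneg_right ?_ (by positivity)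
              refine (norm_sub_le _ _).trans ?_
              rw [norm_mul]
          _ = _ := by ring
    have hrange : ∑ k ∈ Finset.range D,
        (if k = 0 then (0 : ℝ) else ‖q.coeff (k - 1)‖ * r ^ (k - 1) * r) ≤
        r * ∑ k ∈ Finset.range D, ‖q.coeff k‖ * r ^ k := by
      rcases D with _ | D
      · simp
      rw [Finset.sum_range_succ']
      simp only [if_true, add_zero, Nat.add_sub_cancel]
      rw [Finset.sum_range_succ, mul_add, Finset.mul_sum]
      have h2 : 0 ≤ r * (‖q.coeff D‖ * r ^ D) := by positivity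
      have h3 : ∑ i ∈ Finset.range D, (if i + 1 = 0 then (0 : ℝ) else ‖q.coeff i‖ * r ^ i * r) =
          ∑ i ∈ Finset.range D, r * (‖q.coeff i‖ * r ^ i) := by
        refine Finset.sum_congr rfl fun i _ => ?_
        rw [if_neg (by omega)]; ring
      rw [h3]
      linarith
    calc ∑ k ∈ Finset.range D, ‖((X - C a) * q).coeff k‖ * r ^ k
        ≤ ∑ k ∈ Finset.range D, ((if k = 0 then 0 else ‖q.coeff (k - 1)‖ * r ^ (k - 1) * r) +
          ‖a‖ * (‖q.coeff k‖ * r ^ k)) := Finset.sum_le_sum fun k _ => h1 k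
      _ ≤ r * ∑ k ∈ Finset.range D, ‖q.coeff k‖ * r ^ k +
          ‖a‖ * ∑ k ∈ Finset.range D, ‖q.coeff k‖ * r ^ k := by
        rw [Finset.sum_add_distrib, ← Finset.mul_sum]
        linarith
      _ = (r + ‖a‖) * ∑ k ∈ Finset.range D, ‖q.coeff k‖ * r ^ k := by ring
      _ ≤ (r + ‖a‖) * (s.map fun a => r + ‖a‖).prod :=
        mul_le_mul_of_nonneg_left (ih D) (by positivity)

theorem prod_le_prod' (s : Multiset ℂ) {f g : ℂ → ℝ} (hf : ∀ a ∈ s, 0 ≤ f a)
    (hfg : ∀ a ∈ s, f a ≤ g a) : (s.map f).prod ≤ (s.map g).prod := by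
  induction s using Multiset.induction_on with
  | empty => simp
  | cons a s ih =>
    rw [Multiset.map_cons, Multiset.prod_cons, Multiset.map_cons, Multiset.prod_cons]
    have h1 := ih (fun b hb => hf b (Multiset.mem_cons_of_mem hb))
      (fun b hb => hfg b (Multiset.mem_cons_of_mem hb))
    have h2 : 0 ≤ (s.map f).prod := Multiset.prod_nonneg fun b hb => by
      obtain ⟨c, hc, rfl⟩ := Multiset.mem_map.1 hb
      exact hf c (Multiset.mem_cons_of_mem hc)
    exact mul_le_mul (hfg a (Multiset.mem_cons_self a s)) h1 h2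
      ((hf a (Multiset.mem_cons_self a s)).trans (hfg a (Multiset.mem_cons_self a s)))

/-- lower bound away from the roots -/
theorem lower_bound {p : ℂ[X]} {N : ℕ} (hN : p.natDegree ≤ N) {c : ℝ} (hc0 : 0 ≤ c) (hc1 : c ≤ 1)
    {y : ℂ} (hy : ∀ a ∈ p.roots, c * (‖y‖ + ‖a‖) ≤ ‖y - a‖) (D : ℕ) :
    c ^ N * ∑ k ∈ Finset.range D, ‖p.coeff k‖ * ‖y‖ ^ k ≤ ‖p.eval y‖ := by
  have hsp := IsAlgClosed.splits p
  have h1 := hsp.eval_eq_prod_roots y
  have h2 : ‖p.eval y‖ = ‖p.leadingCoeff‖ * (p.roots.map fun a => ‖y - a‖).prod := by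
    rw [h1, norm_mul]
    congr 1
    have : ∀ s : Multiset ℂ, ‖(s.map fun a => y - a).prod‖ = (s.map fun a => ‖y - a‖).prod := by
      intro s
      induction s using Multiset.induction_on with
      | empty => simp
      | cons a s ih => rw [Multiset.map_cons, Multiset.prod_cons, norm_mul, ih, Multiset.map_cons,
          Multiset.prod_cons]
    exact this _
  have h3 : ∀ k, ‖p.coeff k‖ =
      ‖p.leadingCoeff‖ * ‖((p.roots.map fun a => (X - C a : ℂ[X])).prod).coeff k‖ := by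
    intro k
    conv_lhs => rw [hsp.eq_prod_roots]
    rw [coeff_C_mul, norm_mul]
  have h4 : ∑ k ∈ Finset.range D, ‖p.coeff k‖ * ‖y‖ ^ k ≤
      ‖p.leadingCoeff‖ * (p.roots.map fun a => ‖y‖ + ‖a‖).prod := by
    calc ∑ k ∈ Finset.range D, ‖p.coeff k‖ * ‖y‖ ^ k = ‖p.leadingCoeff‖ *
        ∑ k ∈ Finset.range D, ‖((p.roots.map fun a => (X - C a : ℂ[X])).prod).coeff k‖ * ‖y‖ ^ k := by
          rw [Finset.mul_sum]
          exact Finset.sum_congr rfl fun k _ => by rw [h3 k]; ring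
      _ ≤ _ := mul_le_mul_of_nonneg_left (l1_prod _ (norm_nonneg _) _ _) (norm_nonneg _)
  have h5 : c ^ p.roots.card * (p.roots.map fun a => ‖y‖ + ‖a‖).prod ≤
      (p.roots.map fun a => ‖y - a‖).prod := by
    rw [← Multiset.prod_replicate, ← Multiset.map_const', ← Multiset.prod_map_mul]
    exact prod_le_prod' _ (fun a _ => by positivity) hy
  have h6 : c ^ N ≤ c ^ p.roots.card := pow_le_pow_of_le_one hc0 hc1 ((card_roots' p).trans hN)
  have h7 : 0 ≤ (p.roots.map fun a => ‖y‖ + ‖a‖).prod := Multiset.prod_nonneg fun b hb => by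
    obtain ⟨a, -, rfl⟩ := Multiset.mem_map.1 hb
    positivity
  rw [h2]
  calc c ^ N * ∑ k ∈ Finset.range D, ‖p.coeff k‖ * ‖y‖ ^ k
      ≤ c ^ p.roots.card * (‖p.leadingCoeff‖ * (p.roots.map fun a => ‖y‖ + ‖a‖).prod) := by
        gcongr
    _ = ‖p.leadingCoeff‖ * (c ^ p.roots.card * (p.roots.map fun a => ‖y‖ + ‖a‖).prod) := by ring
    _ ≤ _ := mul_le_mul_of_nonneg_left h5 (norm_nonneg _)

/-- a circle around `1` away from finitely many points -/
theorem exists_circle (N : ℕ) {ρ : ℝ} (hρ : 0 < ρ) (hρ1 : ρ ≤ 1 / 2) (Z : Finset ℂ)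
    (hZ : Z.card ≤ N) : ∃ ρ' : ℝ, 0 < ρ' ∧ ρ' < ρ ∧ ∀ h : ℂ, ‖h - 1‖ = ρ' → ∀ a ∈ Z,
      ρ / (12 * (N + 2)) * (‖h‖ + ‖a‖) ≤ ‖h - a‖ := by
  classical
  have hN2 : (0 : ℝ) < N + 2 := by positivity
  set δ : ℝ := ρ / (2 * (N + 2)) with hδ
  have hδ0 : 0 < δ := by positivity
  set R : ℕ → ℝ := fun k => ρ * (k + 1) / (N + 2) with hR
  obtain ⟨k, hk, hkZ⟩ : ∃ k ∈ Finset.range (N + 1), ∀ a ∈ Z, δ ≤ |‖a - 1‖ - R k| := by
    by_contra hcon
    push Not at hcon
    choose! f hf using hcon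
    obtain ⟨k, hk, k', hk', hne, heq⟩ := Finset.exists_ne_map_eq_of_card_lt_of_maps_to
      (s := Finset.range (N + 1)) (t := Z) (by rw [Finset.card_range]; omega)
      (f := f) (fun k hk => (hf k hk).1)
    have h1 := (hf k hk).2
    have h2 := (hf k' hk').2
    rw [heq] at h1
    have h3 : |R k - R k'| < 2 * δ := by
      have : R k - R k' = (‖f k' - 1‖ - R k') - (‖f k' - 1‖ - R k) := by ring
      rw [this]
      exact (abs_sub _ _).trans_lt (by linarith)
    have h4 : R k - R k' = ρ / (N + 2) * ((k : ℝ) - k') := by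
      simp only [hR]; field_simp; ring
    have h5 : 1 ≤ |(k : ℝ) - k'| := by
      have : (1 : ℤ) ≤ |(k : ℤ) - k'| := Int.one_le_abs (by omega)
      exact_mod_cast this
    rw [h4, abs_mul, abs_of_pos (by positivity)] at h3
    have h6 : 2 * δ = ρ / (N + 2) := by rw [hδ]; field_simp
    rw [h6] at h3
    have : ρ / (N + 2) * 1 ≤ ρ / (N + 2) * |(k : ℝ) - k'| :=
      mul_le_mul_of_nonneg_left h5 (by positivity)
    linarith
  rw [Finset.mem_range] at hk
  have hkR : R k < ρ := by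
    simp only [hR]
    rw [div_lt_iff₀ hN2]
    have : (k : ℝ) + 1 < N + 2 := by
      have : (k : ℝ) < N + 1 := by exact_mod_cast hk
      linarith
    exact mul_lt_mul_of_pos_left this hρ
  refine ⟨R k, by simp only [hR]; positivity, hkR, ?_⟩
  intro h hh a ha
  have h1 := hkZ a ha
  have h2 : δ ≤ ‖h - a‖ := by
    refine h1.trans ?_
    rw [← hh, norm_sub_rev h a]
    have := abs_norm_sub_norm_le (a - 1) (h - 1)
    rwa [sub_sub_sub_cancel_right] at this
  have h3 : ‖h‖ ≤ 3 / 2 := by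
    have : ‖h‖ ≤ ‖h - 1‖ + ‖(1 : ℂ)‖ := by
      have := norm_add_le (h - 1) 1
      rwa [sub_add_cancel] at this
    rw [hh, norm_one] at this
    linarith
  have h4 : ρ / (12 * (N + 2)) = δ / 6 := by rw [hδ]; field_simp; norm_num
  rw [h4]
  rcases le_or_gt ‖a‖ 4 with h5 | h5
  · nlinarith
  · have h6 : ‖a‖ - ‖h‖ ≤ ‖h - a‖ := by
      have := norm_sub_norm_le a h
      rwa [norm_sub_rev] at this
    have hδ1 : δ ≤ 1 / 4 := by
      rw [hδ, div_le_iff₀ (by positivity)]
      have : (0 : ℝ) ≤ N := Nat.cast_nonneg N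
      nlinarith
    nlinarith [norm_nonneg h]

/-- **roots of perturbed polynomials stay close to `1`** -/
theorem root_stay (N : ℕ) {ρ : ℝ} (hρ : 0 < ρ) (hρ1 : ρ ≤ 1 / 2) : ∃ δ : ℝ, 0 < δ ∧
    ∀ (t : ℕ → ℝ → ℂ) (h : ℝ → ℂ), ContinuousOn h (Set.Icc 0 1) → h 0 = 1 →
      (∃ b ∈ Finset.range (N + 1), t b 0 ≠ 0) →
      (∀ ξ ∈ Set.Icc (0 : ℝ) 1, ∀ b ∈ Finset.range (N + 1), ‖t b ξ - t b 0‖ ≤ δ * ‖t b 0‖) →
      (∀ ξ ∈ Set.Icc (0 : ℝ) 1, ∑ b ∈ Finset.range (N + 1), t b ξ * h ξ ^ b = 0) →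
      ∀ ξ ∈ Set.Icc (0 : ℝ) 1, ‖h ξ - 1‖ < ρ := by
  classical
  set c : ℝ := ρ / (12 * (N + 2)) with hc
  have hc0 : 0 < c := by positivity
  have hc1 : c ≤ 1 := by
    rw [hc, div_le_iff₀ (by positivity)]
    have : (0 : ℝ) ≤ N := Nat.cast_nonneg N
    nlinarith
  refine ⟨c ^ N / 2, by positivity, ?_⟩
  intro t h hcont h0 hne hδ heq ξ1 hξ1
  by_contra hcon
  push Not at hcon
  set p : ℂ[X] := ∑ b ∈ Finset.range (N + 1), monomial b (t b 0) with hp
  have hpc : ∀ b ∈ Finset.range (N + 1), p.coeff b = t b 0 := by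
    intro b hb
    rw [hp, finsetSum_coeff, Finset.sum_eq_single b]
    · rw [coeff_monomial, if_pos rfl]
    · intro i _ hi; rw [coeff_monomial, if_neg hi]
    · intro h; exact absurd hb h
  have hpd : p.natDegree ≤ N := by
    refine natDegree_sum_le_of_forall_le _ _ fun i hi => ?_
    refine (natDegree_monomial_le _).trans ?_
    rw [Finset.mem_range] at hi; omega
  obtain ⟨ρ', hρ'0, hρ'ρ, hcirc⟩ := exists_circle N hρ hρ1 p.roots.toFinset
    ((Multiset.toFinset_card_le _).trans ((card_roots' p).trans hpd))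
  -- a point on the circle
  obtain ⟨ξ, hξ, hξρ⟩ : ∃ ξ ∈ Set.Icc (0 : ℝ) 1, ‖h ξ - 1‖ = ρ' := by
    have hcont' : ContinuousOn (fun ξ => ‖h ξ - 1‖) (Set.Icc 0 ξ1) := by
      refine ((hcont.sub continuousOn_const).norm).mono ?_
      exact Set.Icc_subset_Icc_right hξ1.2
    have := intermediate_value_Icc hξ1.1 hcont'
    obtain ⟨ξ, hξ, hξ2⟩ := this (show ρ' ∈ Set.Icc ‖h 0 - 1‖ ‖h ξ1 - 1‖ by
      rw [h0, sub_self, norm_zero]
      exact ⟨hρ'0.le, (hρ'ρ.trans_le hcon).le⟩)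
    exact ⟨ξ, ⟨hξ.1, hξ.2.trans hξ1.2⟩, hξ2⟩
  have hh0 : h ξ ≠ 0 := by
    intro h00
    rw [h00, zero_sub, norm_neg, norm_one] at hξρ
    linarith
  have h1 := lower_bound hpd hc0.le hc1 (y := h ξ) (fun a ha => hcirc _ hξρ a (Multiset.mem_toFinset.2 ha))
    (N + 1)
  have h2 : ∑ k ∈ Finset.range (N + 1), ‖p.coeff k‖ * ‖h ξ‖ ^ k =
      ∑ k ∈ Finset.range (N + 1), ‖t k 0‖ * ‖h ξ‖ ^ k :=
    Finset.sum_congr rfl fun k hk => by rw [hpc k hk]
  rw [h2] at h1
  set S := ∑ k ∈ Finset.range (N + 1), ‖t k 0‖ * ‖h ξ‖ ^ k with hS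
  have hSpos : 0 < S := by
    obtain ⟨b, hb, hb0⟩ := hne
    refine Finset.sum_pos' (fun k _ => by positivity) ⟨b, hb, ?_⟩
    have := norm_pos_iff.2 hb0
    have := norm_pos_iff.2 hh0
    positivity
  have h3 : ‖p.eval (h ξ)‖ ≤ c ^ N / 2 * S := by
    have e1 : p.eval (h ξ) = ∑ b ∈ Finset.range (N + 1), (t b 0 - t b ξ) * h ξ ^ b := by
      have e2 := heq ξ hξ
      rw [hp, eval_finsetSum]
      simp only [eval_monomial, sub_mul, Finset.sum_sub_distrib, e2, sub_zero]
    rw [e1, hS, Finset.mul_sum]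
    refine (norm_sum_le _ _).trans (Finset.sum_le_sum fun b hb => ?_)
    rw [norm_mul, norm_pow, norm_sub_rev, ← mul_assoc]
    exact mul_le_mul_of_nonneg_right (hδ ξ hξ b hb) (by positivity)
  have h4 := h1.trans h3
  have h5 : 0 < c ^ N := by positivity
  nlinarith

theorem ray_ineq {E ω : ℂ} (hE : ‖E‖ = 1) (hω : ‖ω‖ = 1) {r ρ : ℝ} :
    (r + ρ) * (‖E - ω‖ / 2) ≤ ‖(r : ℂ) * E - (ρ : ℂ) * ω‖ := by
  apply le_of_sq_le_sq _ (norm_nonneg _)
  have e1 : ‖E - ω‖ ^ 2 = 2 - 2 * (E.re * ω.re + E.im * ω.im) := by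
    rw [← Complex.normSq_eq_norm_sq, Complex.normSq_apply]
    have h1 : E.re * E.re + E.im * E.im = 1 := by
      rw [← Complex.normSq_apply, Complex.normSq_eq_norm_sq, hE]; norm_num
    have h2 : ω.re * ω.re + ω.im * ω.im = 1 := by
      rw [← Complex.normSq_apply, Complex.normSq_eq_norm_sq, hω]; norm_num
    simp only [Complex.sub_re, Complex.sub_im]
    nlinarith
  have e2 : ‖(r : ℂ) * E - (ρ : ℂ) * ω‖ ^ 2 =
      r ^ 2 + ρ ^ 2 - 2 * r * ρ * (E.re * ω.re + E.im * ω.im) := by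
    rw [← Complex.normSq_eq_norm_sq, Complex.normSq_apply]
    have h1 : E.re * E.re + E.im * E.im = 1 := by
      rw [← Complex.normSq_apply, Complex.normSq_eq_norm_sq, hE]; norm_num
    have h2 : ω.re * ω.re + ω.im * ω.im = 1 := by
      rw [← Complex.normSq_apply, Complex.normSq_eq_norm_sq, hω]; norm_num
    simp only [Complex.sub_re, Complex.sub_im, Complex.mul_re, Complex.mul_im, Complex.ofReal_re,
      Complex.ofReal_im, zero_mul, sub_zero, add_zero]
    linear_combination (r ^ 2) * h1 + (ρ ^ 2) * h2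
  have e3 : -1 ≤ E.re * ω.re + E.im * ω.im := by
    have h1 : E.re * E.re + E.im * E.im = 1 := by
      rw [← Complex.normSq_apply, Complex.normSq_eq_norm_sq, hE]; norm_num
    have h2 : ω.re * ω.re + ω.im * ω.im = 1 := by
      rw [← Complex.normSq_apply, Complex.normSq_eq_norm_sq, hω]; norm_num
    nlinarith [sq_nonneg (E.re + ω.re), sq_nonneg (E.im + ω.im)]
  rw [mul_pow, div_pow, e1, e2]
  nlinarith [sq_nonneg (r - ρ), mul_nonneg (sq_nonneg (r - ρ)) (by linarith : (0:ℝ) ≤ 1 + (E.re * ω.re + E.im * ω.im))]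

/-- **sectors free of roots** -/
theorem sector (N : ℕ) : ∃ c : ℝ, 0 < c ∧ c ≤ 1 ∧ ∀ Z : Finset ℂ, Z.card ≤ N →
    ∃ φ : ℝ, ∀ s : ℂ, |s.im - φ| ≤ c → ∀ a ∈ Z,
      c * (‖Complex.exp s‖ + ‖a‖) ≤ ‖Complex.exp s - a‖ := by
  classical
  -- distinct points on the circle
  set e : ℕ → ℂ := fun k => Complex.exp (((k : ℝ) / (N + 1) : ℝ) * Complex.I) with he
  have hen : ∀ k, ‖e k‖ = 1 := fun k => Complex.norm_exp_ofReal_mul_I _
  obtain ⟨d, hd0, hd2, hd⟩ : ∃ d : ℝ, 0 < d ∧ d ≤ 2 ∧ ∀ k ∈ Finset.range (N + 1),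
      ∀ k' ∈ Finset.range (N + 1), k ≠ k' → d ≤ ‖e k - e k'‖ := by
    have hinj : ∀ k ∈ Finset.range (N + 1), ∀ k' ∈ Finset.range (N + 1), k ≠ k' →
        0 < ‖e k - e k'‖ := by
      intro k hk k' hk' hne
      rw [norm_pos_iff, sub_ne_zero]
      intro h
      rw [Finset.mem_range] at hk hk'
      simp only [he, Complex.exp_eq_exp_iff_exists_int] at h
      obtain ⟨m, hm⟩ := h
      have h1 : ((k : ℝ) / (N + 1)) = (k' : ℝ) / (N + 1) + m * (2 * Real.pi) := by
        have e1 : (((k : ℝ) / (N + 1) : ℝ) : ℂ) * Complex.I =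
            (((k' : ℝ) / (N + 1) + m * (2 * Real.pi) : ℝ) : ℂ) * Complex.I := by
          rw [hm, Complex.ofReal_add, add_mul]
          congr 1
          push_cast; ring
        exact Complex.ofReal_injective (mul_right_cancel₀ Complex.I_ne_zero e1)
      have hN1 : (0 : ℝ) < N + 1 := by positivity
      have hk1 : (k : ℝ) / (N + 1) < 1 := by
        rw [div_lt_one hN1]; exact_mod_cast hk
      have hk1' : (k' : ℝ) / (N + 1) < 1 := by
        rw [div_lt_one hN1]; exact_mod_cast hk'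
      have hk0 : (0 : ℝ) ≤ (k : ℝ) / (N + 1) := by positivity
      have hk0' : (0 : ℝ) ≤ (k' : ℝ) / (N + 1) := by positivity
      have hm0 : m = 0 := by
        have hpi := Real.pi_gt_three
        have h2 : |(m : ℝ) * (2 * Real.pi)| < 1 := by
          rw [abs_lt]; constructor <;> linarith
        rw [abs_mul, abs_of_pos (by linarith : (0:ℝ) < 2 * Real.pi)] at h2
        by_contra hm
        have : (1 : ℤ) ≤ |m| := Int.one_le_abs hm
        have h3 : (1 : ℝ) ≤ |(m : ℝ)| := by exact_mod_cast this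
        nlinarith
      rw [hm0] at h1
      have h4 : (k : ℝ) = k' := by
        field_simp at h1
        simpa using h1
      exact hne (by exact_mod_cast h4)
    set S := ((Finset.range (N + 1)) ×ˢ (Finset.range (N + 1))).filter (fun p => p.1 ≠ p.2) with hS
    rcases S.eq_empty_or_nonempty with h | h
    · refine ⟨1, one_pos, by norm_num, fun k hk k' hk' hne => ?_⟩
      exfalso
      have : (k, k') ∈ S := by
        rw [hS, Finset.mem_filter, Finset.mem_product]
        exact ⟨⟨hk, hk'⟩, hne⟩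
      rw [h] at this
      simp at this
    · obtain ⟨q, hq, hmin⟩ := S.exists_min_image (fun p => ‖e p.1 - e p.2‖) h
      rw [hS, Finset.mem_filter, Finset.mem_product] at hq
      refine ⟨‖e q.1 - e q.2‖, hinj _ hq.1.1 _ hq.1.2 hq.2, ?_, ?_⟩
      · refine (norm_sub_le _ _).trans ?_
        rw [hen, hen]; norm_num
      · intro k hk k' hk' hne
        exact hmin (k, k') (by
          rw [hS, Finset.mem_filter, Finset.mem_product]
          exact ⟨⟨hk, hk'⟩, hne⟩)
  refine ⟨d / 8, by positivity, by linarith, ?_⟩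
  intro Z hZ
  -- normalized points
  set u : ℂ → ℂ := fun a => ((‖a‖ : ℝ) : ℂ)⁻¹ * a with hu
  have hun : ∀ a, a ≠ 0 → ‖u a‖ = 1 := by
    intro a ha
    simp only [hu]
    rw [norm_mul, norm_inv, Complex.norm_real, Real.norm_eq_abs, abs_norm,
      inv_mul_cancel₀ (norm_ne_zero_iff.2 ha)]
  have hua : ∀ a : ℂ, a = ((‖a‖ : ℝ) : ℂ) * u a := by
    intro a
    rcases eq_or_ne a 0 with rfl | ha
    · simp
    · simp only [hu]
      rw [← mul_assoc, mul_inv_cancel₀ (by exact_mod_cast norm_ne_zero_iff.2 ha), one_mul]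
  obtain ⟨k, hk, hkZ⟩ : ∃ k ∈ Finset.range (N + 1), ∀ a ∈ Z, a ≠ 0 → d / 2 ≤ ‖e k - u a‖ := by
    by_contra hcon
    push Not at hcon
    choose! f hf using hcon
    obtain ⟨k, hk, k', hk', hne, heq⟩ := Finset.exists_ne_map_eq_of_card_lt_of_maps_to
      (s := Finset.range (N + 1)) (t := Z) (by rw [Finset.card_range]; omega)
      (f := f) (fun k hk => (hf k hk).1)
    have h1 := (hf k hk).2.2
    have h2 := (hf k' hk').2.2
    rw [heq] at h1
    have h3 := hd k hk k' hk' hne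
    have h4 : ‖e k - e k'‖ ≤ ‖e k - u (f k')‖ + ‖e k' - u (f k')‖ := by
      have := norm_sub_le (e k - u (f k')) (e k' - u (f k'))
      rwa [sub_sub_sub_cancel_right] at this
    linarith
  refine ⟨(k : ℝ) / (N + 1), ?_⟩
  intro s hs a ha
  set E : ℂ := Complex.exp ((s.im : ℂ) * Complex.I) with hE
  have hEn : ‖E‖ = 1 := Complex.norm_exp_ofReal_mul_I _
  have hexp : Complex.exp s = ((‖Complex.exp s‖ : ℝ) : ℂ) * E := by
    rw [Complex.norm_exp, hE, Complex.ofReal_exp, ← Complex.exp_add, Complex.re_add_im]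
  have hEe : ‖E - e k‖ ≤ d / 8 := by
    simp only [hE, he]
    have h1 : ∀ x y : ℝ, ‖Complex.exp ((x : ℂ) * Complex.I) - Complex.exp ((y : ℂ) * Complex.I)‖ ≤
        |x - y| := by
      intro x y
      have h2 : Complex.exp ((x : ℂ) * Complex.I) - Complex.exp ((y : ℂ) * Complex.I) =
          Complex.exp ((y : ℂ) * Complex.I) * (Complex.exp (Complex.I * ((x - y : ℝ) : ℂ)) - 1) := by
        rw [mul_sub, mul_one, ← Complex.exp_add]
        congr 2
        push_cast; ring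
      rw [h2, norm_mul, Complex.norm_exp_ofReal_mul_I, one_mul]
      exact Real.norm_exp_I_mul_ofReal_sub_one_le
    exact (h1 _ _).trans hs
  rcases eq_or_ne a 0 with rfl | ha0
  · rw [norm_zero, add_zero, sub_zero]
    have := norm_nonneg (Complex.exp s)
    nlinarith
  · have h1 := hkZ a ha ha0
    have h2 : d / 4 ≤ ‖E - u a‖ := by
      have h3 : ‖e k - u a‖ ≤ ‖E - u a‖ + ‖E - e k‖ := by
        have := norm_sub_le (E - u a) (E - e k)
        rwa [sub_sub_sub_cancel_left] at this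
      linarith
    have h3 := ray_ineq (r := ‖Complex.exp s‖) (ρ := ‖a‖) hEn (hun a ha0)
    rw [← hexp, ← hua a] at h3
    refine le_trans ?_ h3
    have h4 : 0 ≤ ‖Complex.exp s‖ + ‖a‖ := by positivity
    nlinarith

end Pool.Agent.Helper57.HT
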