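import Pool.Agent.Helper57.RA.Solve
import Pool.Agent.Helper57.HT.Root

/-!
Project HT (helper57): analytic lemmas for the construction of the families.
-/

set_option autoImplicit false

namespace Pool.Agent.Helper57.HT

open Filter Topology Metric

/-- logarithms on convex open sets -/
theorem log_conv {V : Type} [NormedAddCommGroup V] [NormedSpace ℂ V] {U : Set V} (hU : IsOpen U)
    (hc : Convex ℝ U) (hne : U.Nonempty) {f : V → ℂ} (hf : DifferentiableOn ℂ f U)
    (hf0 : ∀ u ∈ U, f u ≠ 0) :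
    ∃ L : V → ℂ, DifferentiableOn ℂ L U ∧ ∀ u ∈ U, Complex.exp (L u) = f u := by
  have hsc : IsSimplyConnected U := by
    have : ContractibleSpace U := hc.contractibleSpace hne
    show SimplyConnectedSpace U
    infer_instance
  obtain ⟨L, hL, hE⟩ := Complex.exists_continuousOn_eqOn_exp_comp hsc hU
    hf.continuousOn (by
      rintro ⟨z, hz, hz0⟩
      exact hf0 z hz hz0)
  have hE' : ∀ v ∈ U, Complex.exp (L v) = f v := fun v hv => hE hv
  refine ⟨L, ?_, hE'⟩
  intro u hu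
  have hu' : U ∈ 𝓝 u := hU.mem_nhds hu
  have hLc : ContinuousAt L u := hL.continuousAt hu'
  have hfd : DifferentiableAt ℂ f u := hf.differentiableAt hu'
  have hfu := hf0 u hu
  have hev : ∀ᶠ v in 𝓝 u, L v = L u + Complex.log (f v / f u) := by
    have h1 : ∀ᶠ v in 𝓝 u, ‖L v - L u‖ < 1 := by
      have : Tendsto (fun v => ‖L v - L u‖) (𝓝 u) (𝓝 0) := by
        have h := (hLc.tendsto.sub_const (L u)).norm
        simpa using h
      exact this.eventually (gt_mem_nhds one_pos)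
    filter_upwards [h1, hu'] with v hv hvb
    have e : f v / f u = Complex.exp (L v - L u) := by
      rw [Complex.exp_sub, hE' v hvb, hE' u hu]
    have him : |(L v - L u).im| < 1 := (Complex.abs_im_le_norm _).trans_lt hv
    rw [abs_lt] at him
    rw [e, Complex.log_exp (by linarith [him.1, Real.pi_gt_three])
      (by linarith [him.2, Real.pi_gt_three])]
    ring
  have hd : DifferentiableAt ℂ (fun v => L u + Complex.log (f v / f u)) u := by
    refine (differentiableAt_const _).add ?_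
    have hfq : DifferentiableAt ℂ (fun v => f v / f u) u := by
      simp only [div_eq_mul_inv]
      exact hfd.mul_const _
    refine hfq.clog ?_
    rw [div_self hfu]
    exact Complex.one_mem_slitPlane
  exact (hd.congr_of_eventuallyEq hev).differentiableWithinAt

/-- bounded functions are Lipschitz at the centre -/
theorem lip_ball {n : ℕ} {c : Fin n → ℂ} {ρ M : ℝ} (hρ : 0 < ρ) {h : (Fin n → ℂ) → ℂ}
    (hd : DifferentiableOn ℂ h (ball c ρ)) (hB : ∀ u ∈ ball c ρ, ‖h u‖ ≤ M)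
    {u : Fin n → ℂ} (hu : u ∈ ball c ρ) : ‖h u - h c‖ ≤ (2 * M + 1) / ρ * ‖u - c‖ := by
  rcases eq_or_ne u c with rfl | huc
  · simp
  have hn : 0 < ‖u - c‖ := norm_pos_iff.2 (sub_ne_zero.2 huc)
  have hu' : ‖u - c‖ < ρ := by rwa [← dist_eq_norm]
  set R : ℝ := ρ / ‖u - c‖ with hR
  have hR1 : 1 < R := by rw [hR, lt_div_iff₀ hn, one_mul]; exact hu'
  set f : ℂ → ℂ := fun t => h (c + t • (u - c)) with hf
  have hmap : Set.MapsTo (fun t : ℂ => c + t • (u - c)) (ball 0 R) (ball c ρ) := by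
    intro t ht
    rw [mem_ball_zero_iff] at ht
    rw [mem_ball, dist_eq_norm, add_sub_cancel_left, norm_smul]
    rw [hR, lt_div_iff₀ hn] at ht
    exact ht
  have hfd : DifferentiableOn ℂ f (ball 0 R) := by
    refine hd.comp (Differentiable.differentiableOn ?_) hmap
    fun_prop
  have hM0 : 0 ≤ M := (norm_nonneg _).trans (hB c (mem_ball_self hρ))
  have hf2 : Set.MapsTo f (ball 0 R) (ball (f 0) (2 * M + 1)) := by
    intro t ht
    rw [mem_ball, dist_eq_norm]
    have h1 := hB _ (hmap ht)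
    have h2 := hB _ (hmap (mem_ball_self (show 0 < R by linarith)))
    have h3 := norm_sub_le (f t) (f 0)
    simp only [hf] at h3 ⊢
    linarith
  have key := Complex.dist_le_div_mul_dist_of_mapsTo_ball hfd (hf2.mono_right ball_subset_closedBall)
    (show (1 : ℂ) ∈ ball 0 R by rw [mem_ball_zero_iff, norm_one]; exact hR1)
  rw [dist_eq_norm, dist_eq_norm, sub_zero, norm_one, mul_one] at key
  have e1 : f 1 = h u := by simp [hf]
  have e2 : f 0 = h c := by simp [hf]
  rw [e1, e2] at key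
  refine key.trans (le_of_eq ?_)
  rw [hR]
  field_simp

/-- near constancy of functions with controlled size -/
theorem near_const {n : ℕ} {c : Fin n → ℂ} {ρ B : ℝ} (hρ : 0 < ρ) (hB0 : 0 ≤ B)
    {g : (Fin n → ℂ) → ℂ} (hg : DifferentiableOn ℂ g (ball c ρ)) (hg0 : ∀ u ∈ ball c ρ, g u ≠ 0)
    (hb : ∀ u ∈ ball c ρ, |Real.log ‖g u‖| ≤ B) {r : ℝ} (hr : (24 * B + 42) / ρ * r ≤ 1)
    (hr2 : r ≤ ρ / 2) {u : Fin n → ℂ} (hu : u ∈ ball c r) :
    ‖g u - g c‖ ≤ 2 * ((24 * B + 42) / ρ * r) * ‖g c‖ := by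
  obtain ⟨h, hd, hE, him⟩ := Pool.Agent.Q177.EG.log n c ρ g hρ hg hg0
  have hcc : c ∈ ball c ρ := mem_ball_self hρ
  have hM := Pool.Agent.Q177.EG.bc n c ρ B h hρ hB0 hd (by
    intro v hv
    have e1 : Real.exp ((h v).re) = ‖g v‖ := by rw [← Complex.norm_exp, hE v hv]
    have e2 : (h v).re = Real.log ‖g v‖ := by rw [← e1, Real.log_exp]
    rw [e2]; exact hb v hv) him
  have hu2 : u ∈ ball c (ρ / 2) := ball_subset_ball hr2 hu
  have huρ : u ∈ ball c ρ := ball_subset_ball (by linarith) hu2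
  have h1 := lip_ball (M := 6 * B + 10) (show 0 < ρ / 2 by linarith)
    (hd.mono (ball_subset_ball (by linarith))) hM hu2
  have hur : ‖u - c‖ ≤ r := by rw [← dist_eq_norm]; exact (mem_ball.1 hu).le
  have h2 : ‖h u - h c‖ ≤ (24 * B + 42) / ρ * r := by
    refine h1.trans ?_
    have e1 : (2 * (6 * B + 10) + 1) / (ρ / 2) = (24 * B + 42) / ρ := by
      field_simp; ring
    rw [e1]
    gcongr
  have h3 : g u = g c * Complex.exp (h u - h c) := by
    rw [Complex.exp_sub, hE u huρ, hE c hcc, mul_div_cancel₀ _ (hg0 c hcc)]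
  have h4 : g u - g c = g c * (Complex.exp (h u - h c) - 1) := by rw [h3]; ring
  rw [h4, norm_mul, mul_comm]
  refine mul_le_mul_of_nonneg_right ?_ (norm_nonneg _)
  exact (Complex.norm_exp_sub_one_le (h2.trans hr)).trans (by linarith)

/-- a path which stays away from the other branches -/
theorem path_log {γ : ℝ → ℂ} (hγ : ContinuousOn γ (Set.Icc 0 1)) (h0 : γ 0 = 0) {ρ : ℝ}
    (hρ : ρ ≤ 1 / 2) (h : ∀ ξ ∈ Set.Icc (0 : ℝ) 1, ‖Complex.exp (γ ξ) - 1‖ < ρ) :
    ‖γ 1‖ ≤ 2 * ρ := by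
  have him : |(γ 1).im| < Real.pi := by
    by_contra hcon
    push Not at hcon
    have h1 : ContinuousOn (fun ξ => |(γ ξ).im|) (Set.Icc 0 1) :=
      (Complex.continuous_im.comp_continuousOn hγ).abs
    have h2 := intermediate_value_Icc (show (0 : ℝ) ≤ 1 by norm_num) h1
    obtain ⟨ξ, hξ, hξ2⟩ := h2 ⟨by
      show |(γ 0).im| ≤ Real.pi
      rw [h0]; simp [Real.pi_pos.le], hcon⟩
    have h3 := h ξ hξ
    have h4 : |(γ ξ).im| = Real.pi := hξ2
    have h5 : (Complex.exp (γ ξ)).re = -Real.exp (γ ξ).re := by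
      rw [Complex.exp_re, ← Real.cos_abs, h4, Real.cos_pi]; ring
    have h6 := Complex.abs_re_le_norm (Complex.exp (γ ξ) - 1)
    rw [Complex.sub_re, h5, Complex.one_re, abs_of_nonpos (by linarith [Real.exp_pos (γ ξ).re])] at h6
    linarith [Real.exp_pos (γ ξ).re]
  rw [abs_lt] at him
  have h1 := h 1 (by constructor <;> norm_num)
  have h2 : γ 1 = Complex.log (1 + (Complex.exp (γ 1) - 1)) := by
    rw [add_sub_cancel, Complex.log_exp him.1 him.2.le]
  rw [h2]
  have h3 := Complex.norm_log_one_add_half_le_self (z := Complex.exp (γ 1) - 1) (by linarith)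
  have h4 := norm_nonneg (Complex.exp (γ 1) - 1)
  linarith

/-- branches of algebraic functions whose coefficients are almost constant -/
theorem stay_log (N : ℕ) {ρ : ℝ} (hρ : 0 < ρ) (hρ1 : ρ ≤ 1 / 2) : ∃ δ : ℝ, 0 < δ ∧
    ∀ (t : ℕ → ℝ → ℂ) (γ : ℝ → ℂ), ContinuousOn γ (Set.Icc 0 1) → γ 0 = 0 →
      (∃ b ∈ Finset.range (N + 1), t b 0 ≠ 0) →
      (∀ ξ ∈ Set.Icc (0 : ℝ) 1, ∀ b ∈ Finset.range (N + 1), ‖t b ξ - t b 0‖ ≤ δ * ‖t b 0‖) →
      (∀ ξ ∈ Set.Icc (0 : ℝ) 1, ∑ b ∈ Finset.range (N + 1), t b ξ * Complex.exp (γ ξ) ^ b = 0) →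
      ‖γ 1‖ ≤ 2 * ρ := by
  obtain ⟨δ, hδ, h⟩ := root_stay N hρ hρ1
  refine ⟨δ, hδ, fun t γ hγ h0 h1 h2 h3 => path_log hγ h0 hρ1 fun ξ hξ => ?_⟩
  exact h t (fun ξ => Complex.exp (γ ξ)) (Complex.continuous_exp.comp_continuousOn hγ)
    (by rw [h0, Complex.exp_zero]) h1 h2 h3 ξ hξ

/-- directions which avoid the zeros of finitely many polynomials -/
theorem sector_fam (K N : ℕ) : ∃ c c0 : ℝ, 0 < c ∧ 0 < c0 ∧ c0 ≤ 1 ∧
    ∀ p : Fin K → Polynomial ℂ, (∀ k, (p k).natDegree ≤ N) → ∃ φ : ℝ, ∀ s : ℂ, |s.im - φ| ≤ c →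
      ∀ k D, c0 * ∑ j ∈ Finset.range D, ‖(p k).coeff j‖ * ‖Complex.exp s‖ ^ j ≤
        ‖(p k).eval (Complex.exp s)‖ := by
  classical
  obtain ⟨c, hc, hc1, h⟩ := sector (K * N)
  refine ⟨c, c ^ N, hc, pow_pos hc N, pow_le_one₀ hc.le hc1, fun p hp => ?_⟩
  obtain ⟨φ, hφ⟩ := h (Finset.univ.biUnion fun k => (p k).roots.toFinset) (by
    refine (Finset.card_biUnion_le).trans ?_
    calc ∑ k : Fin K, (p k).roots.toFinset.card ≤ ∑ _k : Fin K, N :=
          Finset.sum_le_sum fun k _ => (Multiset.toFinset_card_le _).trans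
            ((Polynomial.card_roots' _).trans (hp k))
      _ = K * N := by simp)
  refine ⟨φ, fun s hs k D => ?_⟩
  refine lower_bound (hp k) hc.le hc1 (fun a ha => ?_) D
  refine hφ s hs a ?_
  rw [Finset.mem_biUnion]
  exact ⟨k, Finset.mem_univ k, Multiset.mem_toFinset.2 ha⟩

end Pool.Agent.Helper57.HT
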