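import Pool.Agent.Helper57.HT.Reg
import Pool.Agent.Helper57.RA.Inf

/-!
Project HT (helper57): expansion of the hypersurface along a real ray of the cone at infinity.
-/

set_option autoImplicit false

namespace Pool.Agent.Helper57.HT

open MvPolynomial Filter Topology Metric Pool.Agent.W996.EC Pool.Agent.Q72.EG
  Pool.Agent.Helper57.RA

variable {n : ℕ}

/-- the data of a smooth real point `κ` of `G = 0`, `G` a factor of the leading form -/
structure Nt (P G : MvPolynomial (Fin n) ℂ) (κ l : Fin n → ℝ) where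
  K : (Fin n → ℂ) × ℂ → ℂ
  hK : Continuous K
  hG : ∀ (y : Fin n → ℂ) (h : ℂ), eval (fun i => (κ i : ℂ) + h * y i) G =
    h * (∑ i, (l i : ℂ) * y i + h * K (y, h))
  μ : ℕ → ℕ
  Q : ℕ → MvPolynomial (Fin n) ℂ
  hPQ : ∀ s ≤ P.totalDegree, homogeneousComponent (P.totalDegree - s) P = G ^ μ s * Q s
  hQ : ∀ s ≤ P.totalDegree, homogeneousComponent (P.totalDegree - s) P ≠ 0 →
    eval (cx κ) (Q s) ≠ 0
  h0 : ∀ s ≤ P.totalDegree, homogeneousComponent (P.totalDegree - s) P = 0 → μ s = μ 0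
  hμ : 1 ≤ μ 0

theorem sum_hom_rev (P : MvPolynomial (Fin n) ℂ) :
    P = ∑ s ∈ Finset.range (P.totalDegree + 1), homogeneousComponent (P.totalDegree - s) P := by
  conv_lhs => rw [← sum_homogeneousComponent P]
  rw [← Finset.sum_range_reflect]
  refine Finset.sum_congr rfl fun s _ => ?_
  congr 2

variable {P G : MvPolynomial (Fin n) ℂ} {κ l : Fin n → ℝ}

theorem Nt.expand (N : Nt P G κ l) (t h : ℂ) (y : Fin n → ℂ) :
    eval (fun i => t * ((κ i : ℂ) + h * y i)) P = ∑ s ∈ Finset.range (P.totalDegree + 1),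
      t ^ (P.totalDegree - s) * ((h * (∑ i, (l i : ℂ) * y i + h * N.K (y, h))) ^ N.μ s *
        eval (fun i => (κ i : ℂ) + h * y i) (N.Q s)) := by
  conv_lhs => rw [sum_hom_rev P]
  rw [map_sum]
  refine Finset.sum_congr rfl fun s hs => ?_
  rw [Finset.mem_range] at hs
  rw [Pool.Agent.W721.EC.hom_smul (homogeneousComponent_isHomogeneous _ P), N.hPQ s (by omega),
    map_mul, map_pow, N.hG]

theorem eval_cont {V : Type} [TopologicalSpace V] (g : MvPolynomial (Fin n) ℂ) {f : V → Fin n → ℂ}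
    (hf : Continuous f) : Continuous fun v => eval (f v) g :=
  (MvPolynomial.continuous_eval g).comp hf

/-- **flat rays** -/
theorem Nt.flat (N : Nt P G κ l) {v : Fin n → ℝ} (hlv : ∑ i, l i * v i = 1) (hP : P ≠ 0)
    (hI : ∀ s ≤ P.totalDegree, N.μ 0 ≤ s + N.μ s) : FlatRay P l v κ 3 := by
  classical
  set d := P.totalDegree with hd
  set e := N.μ 0 with he
  have hlvc : ∑ i, (l i : ℂ) * (v i : ℂ) = 1 := by exact_mod_cast hlv
  set yy : (Fin n → ℂ) → ℂ → ℂ → Fin n → ℂ := fun z w σ i =>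
    z i + (σ * w - ∑ k, (l k : ℂ) * z k) * (v i : ℂ) with hyy
  have hlyy : ∀ z w σ, ∑ i, (l i : ℂ) * yy z w σ i = σ * w := by
    intro z w σ
    simp only [hyy, mul_add, Finset.sum_add_distrib]
    have : ∑ i, (l i : ℂ) * ((σ * w - ∑ k, (l k : ℂ) * z k) * (v i : ℂ)) =
        (σ * w - ∑ k, (l k : ℂ) * z k) * ∑ i, (l i : ℂ) * (v i : ℂ) := by
      rw [Finset.mul_sum]; exact Finset.sum_congr rfl fun i _ => by ring
    rw [this, hlvc]; ring
  set F : (Fin n → ℂ) × ℂ × ℂ → ℂ := fun p => ∑ s ∈ Finset.range (d + 1),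
    (-Complex.I * p.2.2 ^ 3) ^ (s + N.μ s - e) *
      ((p.2.1 - Complex.I * p.2.2 * N.K (yy p.1 p.2.1 p.2.2, -Complex.I * p.2.2 ^ 2)) ^ N.μ s *
        eval (fun i => (κ i : ℂ) + -Complex.I * p.2.2 ^ 2 * yy p.1 p.2.1 p.2.2 i) (N.Q s)) with hF
  set f : Polynomial ℂ := ∑ s ∈ Finset.range (d + 1),
    Polynomial.monomial (N.μ s) (if s + N.μ s = e then eval (cx κ) (N.Q s) else 0) with hf
  have hyc : Continuous fun p : (Fin n → ℂ) × ℂ × ℂ => yy p.1 p.2.1 p.2.2 := by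
    simp only [hyy]; fun_prop
  refine ⟨F, f, fun τ => (Complex.I * (τ : ℂ) ^ 3) ^ d * (-Complex.I * ((τ : ℂ)⁻¹) ^ 3) ^ e,
    ?_, ?_, ?_, ?_⟩
  · simp only [hF]
    refine continuous_finsetSum _ fun s _ => ?_
    refine Continuous.mul (by fun_prop) (Continuous.mul (Continuous.pow ?_ _) (eval_cont _ ?_))
    · refine Continuous.sub (by fun_prop) (Continuous.mul (by fun_prop) (N.hK.comp ?_))
      exact hyc.prodMk (by fun_prop)
    · refine continuous_pi fun i => ?_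
      have := (continuous_apply i).comp hyc
      simp only [Function.comp_def] at this
      fun_prop
  · have hne : homogeneousComponent (d - 0) P ≠ 0 := by
      rw [Nat.sub_zero]; exact Pool.Agent.Q98.EG.homog_ne_zero hP
    have h1 : f.coeff e ≠ 0 := by
      rw [hf, Polynomial.finsetSum_coeff, Finset.sum_eq_single 0]
      · rw [Polynomial.coeff_monomial, if_pos he.symm, if_pos (by rw [zero_add])]
        exact N.hQ 0 (Nat.zero_le _) hne
      · intro s _ hs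
        rw [Polynomial.coeff_monomial]
        split_ifs with h2 h3
        · omega
        · rfl
        · rfl
      · intro h; exact absurd (Finset.mem_range.2 (Nat.succ_pos d)) h
    exact N.hμ.trans (Polynomial.le_natDegree_of_ne_zero h1)
  · intro z w
    simp only [hF, hf]
    rw [Polynomial.eval_finsetSum]
    refine Finset.sum_congr rfl fun s hs => ?_
    rw [Finset.mem_range] at hs
    rw [Polynomial.eval_monomial]
    have h1 := hI s (by omega)
    have h2 : (fun i => (κ i : ℂ) + -Complex.I * (0 : ℂ) ^ 2 * yy z w 0 i) = cx κ := by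
      funext i; simp [cx]
    rw [h2]
    by_cases h3 : s + N.μ s = e
    · rw [if_pos h3, h3, Nat.sub_self, pow_zero, one_mul]
      simp
      ring
    · rw [if_neg h3]
      have h4 : s + N.μ s - e ≠ 0 := by omega
      rw [show (-Complex.I * (0 : ℂ) ^ 3) = 0 by simp, zero_pow h4]
      ring
  · intro τ hτ
    have hτc : (τ : ℂ) ≠ 0 := by exact_mod_cast hτ.ne'
    refine ⟨?_, fun z w => ?_⟩
    · refine mul_ne_zero (pow_ne_zero _ (mul_ne_zero Complex.I_ne_zero (pow_ne_zero _ hτc)))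
        (pow_ne_zero _ (mul_ne_zero (neg_ne_zero.2 Complex.I_ne_zero)
          (pow_ne_zero _ (inv_ne_zero hτc))))
    · have hxp : xp l v κ 3 τ (fun i => (τ : ℂ) * z i) w = fun i => (Complex.I * (τ : ℂ) ^ 3) *
          ((κ i : ℂ) + (-Complex.I * ((τ : ℂ)⁻¹) ^ 2) * yy z w ((τ : ℂ)⁻¹) i) := by
        funext i
        simp only [xp, hyy]
        have h1 : ∑ k, (l k : ℂ) * ((τ : ℂ) * z k) = (τ : ℂ) * ∑ k, (l k : ℂ) * z k := by
          rw [Finset.mul_sum]; exact Finset.sum_congr rfl fun k _ => by ring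
        rw [h1]
        have hI2 : Complex.I ^ 2 = -1 := Complex.I_sq
        field_simp
        ring_nf
        rw [hI2]
        ring
      rw [hxp, N.expand, hlyy]
      simp only [hF]
      rw [Finset.mul_sum]
      refine Finset.sum_congr rfl fun s hs => ?_
      rw [Finset.mem_range] at hs
      have h1 := hI s (by omega)
      have hν : (Complex.I * (τ : ℂ) ^ 3) * (-Complex.I * ((τ : ℂ)⁻¹) ^ 3) = 1 := by
        have hI2 : Complex.I * Complex.I = -1 := Complex.I_mul_I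
        field_simp
        linear_combination -hI2
      have h2 : -Complex.I * ((τ : ℂ)⁻¹) ^ 2 * ((τ : ℂ)⁻¹ * w + -Complex.I * ((τ : ℂ)⁻¹) ^ 2 *
          N.K (yy z w ((τ : ℂ)⁻¹), -Complex.I * ((τ : ℂ)⁻¹) ^ 2)) =
          (-Complex.I * ((τ : ℂ)⁻¹) ^ 3) * (w - Complex.I * (τ : ℂ)⁻¹ *
            N.K (yy z w ((τ : ℂ)⁻¹), -Complex.I * ((τ : ℂ)⁻¹) ^ 2)) := by ring
      rw [h2, mul_pow (-Complex.I * ((τ : ℂ)⁻¹) ^ 3) _ (N.μ s)]
      generalize (w - Complex.I * (τ : ℂ)⁻¹ *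
            N.K (yy z w ((τ : ℂ)⁻¹), -Complex.I * ((τ : ℂ)⁻¹) ^ 2)) ^ N.μ s = A1
      generalize eval (fun i => (κ i : ℂ) + -Complex.I * ((τ : ℂ)⁻¹) ^ 2 *
        yy z w ((τ : ℂ)⁻¹) i) (N.Q s) = A2
      generalize Complex.I * (τ : ℂ) ^ 3 = t at hν ⊢
      generalize -Complex.I * ((τ : ℂ)⁻¹) ^ 3 = ν at hν ⊢
      have h3 : t ^ d * ν ^ e * ν ^ (s + N.μ s - e) = t ^ (d - s) * ν ^ N.μ s := by
        have e1 : t ^ d = t ^ (d - s) * t ^ s := by rw [← pow_add]; congr 1; omega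
        have e2 : ν ^ e * ν ^ (s + N.μ s - e) = ν ^ s * ν ^ N.μ s := by
          rw [← pow_add, ← pow_add]; congr 1; omega
        rw [mul_assoc, e2, e1]
        calc t ^ (d - s) * t ^ s * (ν ^ s * ν ^ N.μ s) = t ^ (d - s) * (t * ν) ^ s * ν ^ N.μ s := by
              rw [mul_pow]; ring
          _ = _ := by rw [hν]; ring
      calc t ^ (d - s) * (ν ^ N.μ s * A1 * A2) = (t ^ (d - s) * ν ^ N.μ s) * (A1 * A2) := by ring
        _ = _ := by rw [← h3]; ring

theorem eval_aeval_lin (l : Fin n → ℝ) (f : Polynomial ℂ) (u : Fin n → ℂ) :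
    eval u (Polynomial.aeval (lin l) f) = f.eval (∑ i, (l i : ℂ) * u i) := by
  rw [Polynomial.aeval_def, Polynomial.hom_eval₂, eval_lin]
  have : (eval u).comp (algebraMap ℂ (MvPolynomial (Fin n) ℂ)) = RingHom.id ℂ := by
    ext c
    simp [MvPolynomial.algebraMap_eq]
  rw [this, Polynomial.eval₂_id]

theorem aeval_lin_ne {l v : Fin n → ℝ} (hlv : ∑ i, l i * v i = 1) {f : Polynomial ℂ} (hf : f ≠ 0) :
    Polynomial.aeval (lin l) f ≠ 0 := by
  intro h
  apply hf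
  apply Polynomial.funext
  intro w
  have h1 := eval_aeval_lin l f (fun i => w * (v i : ℂ))
  have h2 : ∑ i, (l i : ℂ) * (w * (v i : ℂ)) = w := by
    have h3 : ∑ i, (l i : ℂ) * (v i : ℂ) = 1 := by exact_mod_cast hlv
    calc ∑ i, (l i : ℂ) * (w * (v i : ℂ)) = w * ∑ i, (l i : ℂ) * (v i : ℂ) := by
          rw [Finset.mul_sum]; exact Finset.sum_congr rfl fun i _ => by ring
      _ = w := by rw [h3, mul_one]
  rw [h, h2] at h1
  simpa using h1.symm

/-- the limit polynomial -/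
noncomputable def Nt.ff (N : Nt P G κ l) (p q : ℕ) (ε : ℂ) : Polynomial ℂ :=
  ∑ s ∈ Finset.range (P.totalDegree + 1), Polynomial.monomial (N.μ s)
    (if q * s + p * N.μ s = p * N.μ 0 then
      ε ^ (P.totalDegree - s) * (-ε) ^ N.μ s * eval (cx κ) (N.Q s) else 0)

theorem Nt.ff_eval (N : Nt P G κ l) (p q : ℕ) (ε w : ℂ) :
    (N.ff p q ε).eval w = ∑ s ∈ Finset.range (P.totalDegree + 1),
      (if q * s + p * N.μ s = p * N.μ 0 then
        ε ^ (P.totalDegree - s) * (-ε) ^ N.μ s * eval (cx κ) (N.Q s) else 0) * w ^ N.μ s := by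
  unfold Nt.ff
  rw [Polynomial.eval_finsetSum]
  exact Finset.sum_congr rfl fun s _ => Polynomial.eval_monomial


theorem Nt.limInf (N : Nt P G κ l) {v : Fin n → ℝ} (hlv : ∑ i, l i * v i = 1) {p q : ℕ}
    (hp : 0 < p) (hpq : p < q)
    (hmin : ∀ s ≤ P.totalDegree, p * N.μ 0 ≤ q * s + p * N.μ s) {σ0 : ℝ}
    (hσ0 : σ0 ^ 2 = 1) (hne : N.ff p q (Complex.I * σ0) ≠ 0) :
    LimInf P (Polynomial.aeval (lin l) (N.ff p q (Complex.I * σ0))) := by
  classical
  set d := P.totalDegree with hd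
  obtain ⟨ε, hε⟩ : ∃ ε : ℂ, ε = Complex.I * σ0 := ⟨_, rfl⟩
  have hε2 : ε * ε = -1 := by
    have h1 : (σ0 : ℂ) ^ 2 = 1 := by exact_mod_cast hσ0
    rw [hε]
    calc Complex.I * σ0 * (Complex.I * σ0) = (Complex.I * Complex.I) * (σ0 : ℂ) ^ 2 := by ring
      _ = -1 := by rw [h1, Complex.I_mul_I]; ring
  rw [← hε] at hne ⊢
  refine ⟨aeval_lin_ne hlv hne, fun k => ((k : ℝ) + 1) ^ (q - p),
    fun k i => σ0 * ((k : ℝ) + 1) ^ q * κ i,
    fun k => RA.sq k ^ (q * d) * ((k : ℂ) + 1) ^ (p * N.μ 0), fun k => by positivity, ?_, ?_⟩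
  · exact (tendsto_pow_atTop (show q - p ≠ 0 by omega)).comp
      (tendsto_atTop_add_const_right _ _ tendsto_natCast_atTop_atTop)
  refine Pool.Agent.W578.ECPt.t_pt n P.totalDegree _ _ ?_ ?_
  · intro k
    refine (totalDegree_mul _ _).trans ?_
    rw [totalDegree_C, zero_add]
    exact totalDegree_tr_le _ _ _
  intro x
  rw [eval_aeval_lin, N.ff_eval]
  set lx := ∑ i, (l i : ℂ) * x i with hlx
  have hterm : ∀ k : ℕ, eval x (C (RA.sq k ^ (q * d) * ((k : ℂ) + 1) ^ (p * N.μ 0)) *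
      tr (((k : ℝ) + 1) ^ (q - p)) (fun i => σ0 * ((k : ℝ) + 1) ^ q * κ i) P) =
      ∑ s ∈ Finset.range (d + 1), (ε ^ (d - s) * (-ε) ^ N.μ s) *
        (RA.sq k ^ (q * s + p * N.μ s - p * N.μ 0) * ((lx + -ε * RA.sq k ^ p *
          N.K (x, -ε * RA.sq k ^ p)) ^ N.μ s *
            eval (fun i => (κ i : ℂ) + -ε * RA.sq k ^ p * x i) (N.Q s))) := by
    intro k
    have hks : ((k : ℂ) + 1) = (RA.sq k)⁻¹ := by simp [Pool.Agent.Helper57.RA.sq]
    have hs0 := sq_ne k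
    have e1 : (fun i => (((((k : ℝ) + 1) ^ (q - p) : ℝ) : ℂ)) * x i +
        Complex.I * ((σ0 * ((k : ℝ) + 1) ^ q * κ i : ℝ) : ℂ)) =
        fun i => (ε * ((RA.sq k)⁻¹) ^ q) * ((κ i : ℂ) + (-ε * RA.sq k ^ p) * x i) := by
      funext i
      push_cast
      rw [hks]
      have h1 : (RA.sq k)⁻¹ ^ q = (RA.sq k)⁻¹ ^ (q - p) * (RA.sq k)⁻¹ ^ p := by
        rw [← pow_add]; congr 1; omega
      have h2 : (RA.sq k)⁻¹ ^ p * RA.sq k ^ p = 1 := by
        rw [← mul_pow, inv_mul_cancel₀ hs0, one_pow]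
      have h3 : ε * (RA.sq k)⁻¹ ^ q * ((κ i : ℂ) + -ε * RA.sq k ^ p * x i) =
          ε * (RA.sq k)⁻¹ ^ q * κ i - (ε * ε) * ((RA.sq k)⁻¹ ^ (q - p)) *
            ((RA.sq k)⁻¹ ^ p * RA.sq k ^ p) * x i := by
        rw [h1]; ring
      rw [h3, h2, hε2, hε]
      ring
    rw [map_mul, eval_C, eval_tr, e1, N.expand, Finset.mul_sum]
    refine Finset.sum_congr rfl fun s hs => ?_
    rw [Finset.mem_range] at hs
    have hm := hmin s (by omega)
    rw [hks, mul_pow ε, mul_pow (-ε * RA.sq k ^ p), mul_pow (-ε)]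
    generalize (lx + -ε * RA.sq k ^ p * N.K (x, -ε * RA.sq k ^ p)) ^ N.μ s = A1
    generalize eval (fun i => (κ i : ℂ) + -ε * RA.sq k ^ p * x i) (N.Q s) = A2
    generalize RA.sq k = σ at hs0 ⊢
    have h1 : σ ^ (q * d) * ((σ⁻¹) ^ q) ^ (d - s) = σ ^ (q * s) := by
      have : q * d = q * s + q * (d - s) := by rw [← mul_add]; congr 1; omega
      rw [this, pow_add, ← pow_mul, mul_assoc, ← mul_pow, mul_inv_cancel₀ hs0, one_pow, mul_one]
    have h2 : σ ^ (q * s) * (σ ^ p) ^ N.μ s * σ⁻¹ ^ (p * N.μ 0) =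
        σ ^ (q * s + p * N.μ s - p * N.μ 0) := by
      have h3 : σ ^ (q * s) * (σ ^ p) ^ N.μ s = σ ^ (q * s + p * N.μ s - p * N.μ 0) *
          σ ^ (p * N.μ 0) := by
        rw [← pow_mul, ← pow_add, ← pow_add]; congr 1; omega
      rw [h3, mul_assoc, ← mul_pow, mul_inv_cancel₀ hs0, one_pow, mul_one]
    calc σ ^ (q * d) * σ⁻¹ ^ (p * N.μ 0) * (ε ^ (d - s) * (σ⁻¹ ^ q) ^ (d - s) *
          ((-ε) ^ N.μ s * (σ ^ p) ^ N.μ s * A1 * A2)) =
        (ε ^ (d - s) * (-ε) ^ N.μ s) * (((σ ^ (q * d) * ((σ⁻¹) ^ q) ^ (d - s)) *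
          (σ ^ p) ^ N.μ s * σ⁻¹ ^ (p * N.μ 0)) * (A1 * A2)) := by ring
      _ = _ := by rw [h1, h2]
  rw [show (fun k : ℕ => eval x (C (RA.sq k ^ (q * d) * ((k : ℂ) + 1) ^ (p * N.μ 0)) *
      tr (((k : ℝ) + 1) ^ (q - p)) (fun i => σ0 * ((k : ℝ) + 1) ^ q * κ i) P)) = _ from
    funext hterm]
  refine tendsto_finsetSum _ fun s hs => ?_
  rw [Finset.mem_range] at hs
  have hm := hmin s (by omega)
  have l0 : Tendsto (fun k => -ε * RA.sq k ^ p) atTop (𝓝 0) := by
    have := (sq_lim.pow p).const_mul (-ε)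
    rwa [zero_pow hp.ne', mul_zero] at this
  have l1 : Tendsto (fun k => (lx + -ε * RA.sq k ^ p * N.K (x, -ε * RA.sq k ^ p)) ^ N.μ s) atTop
      (𝓝 (lx ^ N.μ s)) := by
    have h1 : Tendsto (fun k => N.K (x, -ε * RA.sq k ^ p)) atTop (𝓝 (N.K (x, 0))) :=
      (N.hK.tendsto (x, 0)).comp (tendsto_const_nhds.prodMk_nhds l0)
    have h2 := ((l0.mul h1).const_add lx).pow (N.μ s)
    rwa [zero_mul, add_zero] at h2
  have l2 : Tendsto (fun k => eval (fun i => (κ i : ℂ) + -ε * RA.sq k ^ p * x i) (N.Q s)) atTop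
      (𝓝 (eval (cx κ) (N.Q s))) := by
    have h1 : Continuous fun h : ℂ => eval (fun i => (κ i : ℂ) + h * x i) (N.Q s) :=
      eval_cont _ (by fun_prop)
    have h2 := (h1.tendsto 0).comp l0
    have h3 : (fun i => (κ i : ℂ) + 0 * x i) = cx κ := by funext i; simp [cx]
    rw [h3] at h2
    exact h2
  by_cases he : q * s + p * N.μ s = p * N.μ 0
  · rw [if_pos he, he, Nat.sub_self]
    have h1 := (l1.mul l2).const_mul (ε ^ (d - s) * (-ε) ^ N.μ s)
    have h2 : ε ^ (d - s) * (-ε) ^ N.μ s * (lx ^ N.μ s * eval (cx κ) (N.Q s)) =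
        ε ^ (d - s) * (-ε) ^ N.μ s * eval (cx κ) (N.Q s) * lx ^ N.μ s := by ring
    rw [h2] at h1
    refine h1.congr fun k => ?_
    rw [pow_zero, one_mul]
  · rw [if_neg he, zero_mul]
    have l3 := sq_lim.pow (q * s + p * N.μ s - p * N.μ 0)
    rw [zero_pow (by omega)] at l3
    have h1 := (l3.mul (l1.mul l2)).const_mul (ε ^ (d - s) * (-ε) ^ N.μ s)
    rwa [zero_mul, mul_zero] at h1

/-- the roots lie on one side -/
theorem star_side' {l v : Fin n → ℝ} (hlv : ∑ i, l i * v i = 1) {f : Polynomial ℂ} (hf : f ≠ 0)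
    {a : Fin n → ℝ} (ha : ∑ i, l i * a i ≠ 0) (h : Star {a} (Polynomial.aeval (lin l) f))
    {w : ℂ} (hw : f.eval w = 0) : 0 ≤ (∑ i, l i * a i) * w.re := by
  set s := ∑ i, l i * a i with hs
  by_contra hcon
  push Not at hcon
  have key : ∀ (ω : ℂ) (t : ℝ), ∑ i, (l i : ℂ) * ((a i : ℂ) * ω + Complex.I * ((t * v i : ℝ) : ℂ)) =
      (s : ℂ) * ω + Complex.I * (t : ℂ) := by
    intro ω t
    have h1 : ((∑ i, l i * v i : ℝ) : ℂ) = 1 := by rw [hlv]; simp
    calc ∑ i, (l i : ℂ) * ((a i : ℂ) * ω + Complex.I * ((t * v i : ℝ) : ℂ)) =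
        ((∑ i, l i * a i : ℝ) : ℂ) * ω +
          Complex.I * (t : ℂ) * ((∑ i, l i * v i : ℝ) : ℂ) := by
          push_cast
          rw [Finset.sum_mul, Finset.mul_sum, ← Finset.sum_add_distrib]
          exact Finset.sum_congr rfl fun l _ => by ring
      _ = _ := by rw [h1, mul_one]
  have hsc : (s : ℂ) ≠ 0 := by exact_mod_cast ha
  rcases h a rfl (fun i => w.im * v i) with h1 | h1
  · have h2 := h1 ((w.re / s : ℝ) : ℂ) (by
      rw [Complex.ofReal_re, div_neg_iff]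
      rcases lt_or_gt_of_ne ha with h3 | h3
      · left; exact ⟨by nlinarith, h3⟩
      · right; exact ⟨by nlinarith, h3⟩)
    apply h2
    rw [eval_aeval_lin, key]
    have : (s : ℂ) * ((w.re / s : ℝ) : ℂ) + Complex.I * (w.im : ℂ) = w := by
      push_cast
      rw [mul_div_cancel₀ _ hsc, mul_comm Complex.I]
      exact Complex.re_add_im w
    rw [this]; exact hw
  · apply hf
    apply Polynomial.funext
    intro z
    have h2 := h1 ((z - Complex.I * (w.im : ℂ)) / (s : ℂ))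
    rw [eval_aeval_lin, key] at h2
    have : (s : ℂ) * ((z - Complex.I * (w.im : ℂ)) / (s : ℂ)) + Complex.I * (w.im : ℂ) = z := by
      rw [mul_div_cancel₀ _ hsc]; ring
    rw [this] at h2
    rw [h2]; simp

/-- **the first regime** -/
theorem Nt.regime (N : Nt P G κ l) {v : Fin n → ℝ} (hlv : ∑ i, l i * v i = 1) (hP : P ≠ 0)
    {a b : Fin n → ℝ} (hab : (∑ i, l i * a i) * (∑ i, l i * b i) < 0)
    (hstar : ∀ q, LimInf P q → Star {a} q ∧ Star {b} q) :
    ∀ s ≤ P.totalDegree, N.μ 0 ≤ s + N.μ s := by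
  classical
  set d := P.totalDegree with hd
  by_contra hcon
  push Not at hcon
  obtain ⟨s1, hs1, hlt1⟩ := hcon
  set S := (Finset.range (d + 1)).filter (fun s => N.μ s < N.μ 0) with hS
  have hs1S : s1 ∈ S := by
    rw [hS, Finset.mem_filter, Finset.mem_range]; exact ⟨by omega, by omega⟩
  obtain ⟨ss, hss, hmin'⟩ := Finset.exists_min_image S
    (fun s => (s : ℚ) / ((N.μ 0 : ℚ) - N.μ s)) ⟨s1, hs1S⟩
  have hss' := hss
  rw [hS, Finset.mem_filter, Finset.mem_range] at hss'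
  obtain ⟨hssd, hssμ⟩ := hss'
  obtain ⟨q, hq⟩ : ∃ q, N.μ 0 = N.μ ss + q := ⟨_, (Nat.add_sub_of_le hssμ.le).symm⟩
  have hss0 : 0 < ss := by
    rcases Nat.eq_zero_or_pos ss with h | h
    · rw [h] at hssμ; omega
    · exact h
  have hposμ : ∀ s ∈ S, (0 : ℚ) < (N.μ 0 : ℚ) - N.μ s := by
    intro s hs
    rw [hS, Finset.mem_filter] at hs
    have : (N.μ s : ℚ) < N.μ 0 := by exact_mod_cast hs.2
    linarith
  have hpq : ss < q := by
    have h1 := hmin' s1 hs1S
    rw [div_le_div_iff₀ (hposμ ss hss) (hposμ s1 hs1S)] at h1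
    have h2 : ((N.μ 0 : ℚ) - N.μ ss) = q := by rw [hq]; push_cast; ring
    have h3 : (s1 : ℚ) + N.μ s1 < N.μ 0 := by exact_mod_cast hlt1
    rw [h2] at h1
    have h4 : (0 : ℚ) < (N.μ 0 : ℚ) - N.μ s1 := hposμ s1 hs1S
    have h5 : (ss : ℚ) * ((N.μ 0 : ℚ) - N.μ s1) < q * ((N.μ 0 : ℚ) - N.μ s1) := by
      have h6 : (0 : ℚ) < q := by rw [← h2]; exact hposμ ss hss
      nlinarith
    have := lt_of_mul_lt_mul_right h5 h4.le
    exact_mod_cast this
  have hmin : ∀ s ≤ d, ss * N.μ 0 ≤ q * s + ss * N.μ s := by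
    intro s hs
    by_cases hsμ : N.μ s < N.μ 0
    · have hsS : s ∈ S := by
        rw [hS, Finset.mem_filter, Finset.mem_range]; exact ⟨by omega, hsμ⟩
      have h1 := hmin' s hsS
      rw [div_le_div_iff₀ (hposμ ss hss) (hposμ s hsS)] at h1
      have h2 : ((N.μ 0 : ℚ) - N.μ ss) = q := by rw [hq]; push_cast; ring
      rw [h2] at h1
      have h3 : ((ss * N.μ 0 : ℕ) : ℚ) ≤ ((q * s + ss * N.μ s : ℕ) : ℚ) := by
        push_cast; linarith
      exact_mod_cast h3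
    · have : ss * N.μ 0 ≤ ss * N.μ s := Nat.mul_le_mul_left _ (by omega)
      omega
  -- the polynomials
  have hne0 : homogeneousComponent (d - 0) P ≠ 0 := by
    rw [Nat.sub_zero]; exact Pool.Agent.Q98.EG.homog_ne_zero hP
  have hness : homogeneousComponent (d - ss) P ≠ 0 := by
    intro h
    have := N.h0 ss (by omega) h
    omega
  have hcoef : ∀ ε : ℂ, ε ≠ 0 → ∀ s0 ≤ d, q * s0 + ss * N.μ s0 = ss * N.μ 0 →
      homogeneousComponent (d - s0) P ≠ 0 → (N.ff ss q ε).coeff (N.μ s0) ≠ 0 := by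
    intro ε hε s0 hs0 hedge hne
    unfold Nt.ff
    rw [Polynomial.finsetSum_coeff, Finset.sum_eq_single s0]
    · rw [Polynomial.coeff_monomial, if_pos rfl, if_pos hedge]
      exact mul_ne_zero (mul_ne_zero (pow_ne_zero _ hε) (pow_ne_zero _ (neg_ne_zero.2 hε)))
        (N.hQ s0 hs0 hne)
    · intro s _ hs
      rw [Polynomial.coeff_monomial]
      split_ifs with h2 h3
      · exfalso
        apply hs
        rw [h2] at h3
        have h4 : q * s = q * s0 := by omega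
        exact Nat.eq_of_mul_eq_mul_left (by omega) h4
      · rfl
      · rfl
    · intro h; exact absurd (Finset.mem_range.2 (by omega)) h
  have hedge0 : q * 0 + ss * N.μ 0 = ss * N.μ 0 := by ring
  have hedges : q * ss + ss * N.μ ss = ss * N.μ 0 := by rw [hq]; ring
  have hI0 : Complex.I * ((1 : ℝ) : ℂ) ≠ 0 := by simp
  have hI1 : Complex.I * ((-1 : ℝ) : ℂ) ≠ 0 := by simp
  have hf1 : N.ff ss q (Complex.I * ((1 : ℝ) : ℂ)) ≠ 0 := by
    intro h
    have := hcoef _ hI0 0 (Nat.zero_le _) hedge0 hne0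
    rw [h, Polynomial.coeff_zero] at this
    exact this rfl
  have hf2 : N.ff ss q (Complex.I * ((-1 : ℝ) : ℂ)) ≠ 0 := by
    intro h
    have := hcoef _ hI1 0 (Nat.zero_le _) hedge0 hne0
    rw [h, Polynomial.coeff_zero] at this
    exact this rfl
  obtain ⟨w, hw0, hw⟩ := exists_root_ne (show N.μ 0 ≠ N.μ ss by omega)
    (hcoef _ hI0 0 (Nat.zero_le _) hedge0 hne0) (hcoef _ hI0 ss (by omega) hedges hness)
  obtain ⟨η, hη, hηp⟩ := exists_rot (show 0 < q - ss by omega) (show q - ss < q by omega)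
  have hη0 : η ≠ 0 := by
    rintro rfl
    rw [zero_pow (by omega)] at hη
    norm_num at hη
  have hrel : η ^ (ss * N.μ 0) * (N.ff ss q (Complex.I * ((-1 : ℝ) : ℂ))).eval (η ^ (q - ss) * w) =
      (-1) ^ d * (N.ff ss q (Complex.I * ((1 : ℝ) : ℂ))).eval w := by
    rw [N.ff_eval, N.ff_eval, Finset.mul_sum, Finset.mul_sum]
    refine Finset.sum_congr rfl fun s hs => ?_
    rw [Finset.mem_range] at hs
    by_cases he : q * s + ss * N.μ s = ss * N.μ 0
    · rw [if_pos he, if_pos he]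
      have e1 : Complex.I * ((-1 : ℝ) : ℂ) = (-1) * Complex.I := by push_cast; ring
      have e2 : Complex.I * ((1 : ℝ) : ℂ) = Complex.I := by push_cast; ring
      rw [e1, e2, mul_pow (-1 : ℂ) Complex.I, show -((-1 : ℂ) * Complex.I) = (-1) * (-Complex.I) by ring,
        mul_pow (-1 : ℂ) (-Complex.I), mul_pow (η ^ (q - ss)) w]
      have e3 : η ^ (ss * N.μ 0) * ((-1 : ℂ) ^ (d - s) * (-1) ^ N.μ s * (η ^ (q - ss)) ^ N.μ s) =
          (-1) ^ d := by
        have g1 : (-1 : ℂ) ^ (d - s) = η ^ (q * (d - s)) := by rw [pow_mul, hη]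
        have g2 : (-1 : ℂ) ^ N.μ s = η ^ (q * N.μ s) := by rw [pow_mul, hη]
        have g3 : (-1 : ℂ) ^ d = η ^ (q * d) := by rw [pow_mul, hη]
        have g4 : η ^ (2 * q * N.μ s) = 1 := by
          rw [mul_comm 2 q, mul_assoc, pow_mul, hη, pow_mul]; simp
        rw [g1, g2, g3, ← pow_mul, ← pow_add, ← pow_add, ← pow_add, ← he]
        have g5 : q * s + ss * N.μ s + (q * (d - s) + q * N.μ s + (q - ss) * N.μ s) =
            q * d + 2 * q * N.μ s := by
          obtain ⟨q', hq'⟩ : ∃ q', q = ss + q' := ⟨q - ss, by omega⟩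
          obtain ⟨d', hd'⟩ : ∃ d', d = s + d' := ⟨d - s, by omega⟩
          rw [hd', hq', Nat.add_sub_cancel_left, Nat.add_sub_cancel_left]
          ring
        rw [g5, pow_add, g4, mul_one]
      calc η ^ (ss * N.μ 0) * ((-1 : ℂ) ^ (d - s) * Complex.I ^ (d - s) *
            ((-1) ^ N.μ s * (-Complex.I) ^ N.μ s) * eval (cx κ) (N.Q s) *
            ((η ^ (q - ss)) ^ N.μ s * w ^ N.μ s)) =
          (η ^ (ss * N.μ 0) * ((-1 : ℂ) ^ (d - s) * (-1) ^ N.μ s * (η ^ (q - ss)) ^ N.μ s)) *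
            (Complex.I ^ (d - s) * (-Complex.I) ^ N.μ s * eval (cx κ) (N.Q s) * w ^ N.μ s) := by ring
        _ = _ := by rw [e3]
    · rw [if_neg he, if_neg he]; ring
  have hla : ∑ i, l i * a i ≠ 0 := fun h => by rw [h, zero_mul] at hab; exact lt_irrefl _ hab
  have hlb : ∑ i, l i * b i ≠ 0 := fun h => by rw [h, mul_zero] at hab; exact lt_irrefl _ hab
  have hre : ∀ (f : Polynomial ℂ), f ≠ 0 → LimInf P (Polynomial.aeval (lin l) f) →
      ∀ z, f.eval z = 0 → z.re = 0 := by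
    intro f hf hlim z hz
    obtain ⟨t1, t2⟩ := hstar _ hlim
    have h1 := star_side' hlv hf hla t1 hz
    have h2 := star_side' hlv hf hlb t2 hz
    by_contra hz0
    rcases mul_neg_iff.1 hab with ⟨h3, h4⟩ | ⟨h3, h4⟩
    · rcases lt_or_gt_of_ne hz0 with h5 | h5
      · nlinarith
      · nlinarith
    · rcases lt_or_gt_of_ne hz0 with h5 | h5
      · nlinarith
      · nlinarith
  have hw1 := hre _ hf1 (N.limInf hlv hss0 hpq hmin (by norm_num) hf1) w hw
  have hw2 := hre _ hf2 (N.limInf hlv hss0 hpq hmin (by norm_num) hf2) (η ^ (q - ss) * w) (by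
    rw [hw, mul_zero] at hrel
    exact (mul_eq_zero.1 hrel).resolve_left (pow_ne_zero _ hη0))
  rw [Complex.mul_re, hw1, mul_zero, zero_sub, neg_eq_zero] at hw2
  rcases mul_eq_zero.1 hw2 with h | h
  · exact hηp h
  · exact hw0 (Complex.ext hw1 h)

end Pool.Agent.Helper57.HT
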