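import Pool.Agent.Helper57.HT.Stage

/-!
Project HT (helper57): exponential points near irrational flat pieces, assembly.
-/

set_option autoImplicit false

namespace Pool.Agent.Helper57.HT

open MvPolynomial Filter Topology Metric Pool.Agent.W996.EC Pool.Agent.Q72.EG

variable {n : ℕ} {E : Type} [Field E] [Algebra ℂ E]

/-- the families -/
theorem stage_ev {P : MvPolynomial (Fin n) ℂ} (hP : Irreducible P) {x y : Fin n → E}
    (hx : ∀ g : MvPolynomial (Fin n) ℂ, aeval x g = 0 ↔ P ∣ g) (hy : ∀ l, y l ≠ 0) (htr : Tr1 x)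
    {l v κ : Fin n → ℝ} {Me : ℕ} (hreg : HasReg P l v κ Me) {m : Fin n → ℤ}
    {S : Finset (Fin n → ℚ)} {R : MvPolynomial (Fin n) ℂ} (hR : ¬ P ∣ R)
    (hfar : ∀ R', R ∣ R' → ∀ D : ℕ, ∃ C : ℝ, 0 ≤ C ∧ ∀ T : ℝ, 2 ≤ T → ∀ z : Fin n ⊕ Fin n → ℂ,
        z ∈ Pt (Sum.elim x y) → (∀ i, z (Sum.inr i) ≠ 0) → (∀ i, ‖z (Sum.inl i)‖ ≤ T ^ D) →
        1 ≤ T ^ D * ‖eval (fun i => z (Sum.inl i)) R'‖ →
        (∀ i, |Real.log ‖z (Sum.inr i)‖| ≤ C * Real.log T) ∨ ∃ σ ∈ S, ∃ lam : ℝ, ∀ i,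
          |Real.log ‖z (Sum.inr i)‖ - (σ i : ℝ) * lam| ≤ C * Real.log T)
    (hm1 : ∀ a : Fin n → ℚ, ∑ i, l i * (a i : ℝ) = 0 → ∑ i, (m i : ℝ) * (a i : ℝ) = 0)
    (hm2 : ∀ a ∈ S, ∑ i, l i * (a i : ℝ) ≠ 0 →
      0 < (∑ i, l i * (a i : ℝ)) * (∑ i, (m i : ℝ) * (a i : ℝ)))
    (hη : Transcendental (IntermediateField.adjoin ℂ (Set.range x)) (∏ i, y i ^ m i))
    {H : MvPolynomial (Fin n ⊕ Fin n) ℂ} (hH : aeval (Sum.elim x y) H ≠ 0) :
    ∃ (N : ℕ) (κ1 : Fin n → ℝ) (c r1 B C0 : ℝ), ∑ i, l i * κ1 i = 0 ∧ 0 < c ∧ 0 < r1 ∧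
      ∀ ρ : ℝ, 0 < ρ → ∀ᶠ τ in atTop, Nonempty (St n N l m v κ κ1 Me c r1 B C0 (Gd x y H) ρ τ) := by
  classical
  obtain ⟨H1, A, N, hH1, hA1, hN2, hlift⟩ := lift_L hx hy htr hη hH
  obtain ⟨Hs, hHs1, hAH⟩ : ∃ Hs : Finset (MvPolynomial (Option (Fin n)) ℂ), H1 ∈ Hs ∧
      ∀ i, ∀ b ∈ Finset.range (N + 1), (A i).coeff b ∈ Hs :=
    ⟨insert H1 (Finset.univ.biUnion fun i => (Finset.range (N + 1)).image (A i).coeff),
      Finset.mem_insert_self _ _, fun i b hb =>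
        Finset.mem_insert_of_mem (Finset.mem_biUnion.2 ⟨i, Finset.mem_univ i,
          Finset.mem_image.2 ⟨b, hb, rfl⟩⟩)⟩
  obtain ⟨c, c0, hc, hc0, hc01, κ1, D, B, hκ1, hA⟩ := stepA hP hreg Hs {R}
  obtain ⟨C, hC, hfarC⟩ := hfar R dvd_rfl D
  obtain ⟨δ0, hδ0, hst0⟩ := stay_log N (ρ := 1 / 2) (by norm_num) le_rfl
  have hN0 : (0 : ℝ) ≤ N := Nat.cast_nonneg N
  obtain ⟨r1, hr1, hr1N, hr1δ⟩ : ∃ r1 : ℝ, 0 < r1 ∧ N * r1 ≤ 1 ∧ 2 * (N * r1) / c0 ≤ δ0 := by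
    refine ⟨min (1 / (N + 1)) (δ0 * c0 / (2 * (N + 1))), by positivity, ?_, ?_⟩
    · have h1 : min (1 / ((N : ℝ) + 1)) (δ0 * c0 / (2 * (N + 1))) ≤ 1 / (N + 1) := min_le_left _ _
      rw [le_div_iff₀ (by positivity)] at h1
      have h2 : 0 < min (1 / ((N : ℝ) + 1)) (δ0 * c0 / (2 * (N + 1))) := by positivity
      nlinarith
    · have h1 : min (1 / ((N : ℝ) + 1)) (δ0 * c0 / (2 * (N + 1))) ≤ δ0 * c0 / (2 * (N + 1)) :=
        min_le_right _ _
      rw [le_div_iff₀ (by positivity)] at h1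
      rw [div_le_iff₀ hc0]
      have h2 : 0 < min (1 / ((N : ℝ) + 1)) (δ0 * c0 / (2 * (N + 1))) := by positivity
      nlinarith
  obtain ⟨K0, hK00, hcross⟩ := cross_L (B := B) hm1 hm2 hC
  have hlogN : 0 ≤ Real.log ((N : ℝ) + 1) := Real.log_nonneg (by linarith)
  refine ⟨N, κ1, c, r1, B, 2 * (D + N * K0 + |Real.log c0| + Real.log (N + 1)) + Real.log (N + 1),
    hκ1, hc, hr1, fun ρ hρ => ?_⟩
  have hρ'0 : 0 < min (ρ / 2) (1 / 2) := by positivity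
  obtain ⟨δ, hδ, hst⟩ := stay_log N hρ'0 (min_le_right _ _)
  obtain ⟨ε, hε, hερ, hεδ, hεh⟩ : ∃ ε : ℝ, 0 < ε ∧ ε ≤ ρ ∧ ε / c0 ≤ δ ∧ ε / c0 ≤ 1 / 2 := by
    refine ⟨min (min ρ (δ * c0)) (c0 / 2), by positivity,
      (min_le_left _ _).trans (min_le_left _ _), ?_, ?_⟩
    · rw [div_le_iff₀ hc0]
      exact (min_le_left _ _).trans (min_le_right _ _)
    · rw [div_le_iff₀ hc0]
      have : min (min ρ (δ * c0)) (c0 / 2) ≤ c0 / 2 := min_le_right _ _
      linarith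
  filter_upwards [hA _ hε, eventually_ge_atTop (Real.exp 1), eventually_ge_atTop 2] with τ hτ hτe hτ2
  obtain ⟨φ, w, X0, hX0, hwd, hwB, hball, hX0b, hRb, hcfb, hsec⟩ := hτ
  have hτ0 : 0 < τ := by linarith
  have hlog1 : 1 ≤ Real.log τ := by
    rw [Real.le_log_iff_exp_le hτ0]; exact hτe
  have hsq : 0 < √τ := Real.sqrt_pos.2 hτ0
  obtain ⟨cc, hcc⟩ : ∃ cc, cc = cen κ1 τ := ⟨_, rfl⟩
  rw [← hcc] at hX0 hwd hwB hball
  have hccm : cc ∈ ball cc (√τ) := mem_ball_self hsq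
  have hUo : IsOpen (ball cc (√τ) ×ˢ Strip φ c) := isOpen_ball.prod (isOpen_strip' φ c)
  have hUc : Convex ℝ (ball cc (√τ) ×ˢ Strip φ c) := (convex_ball _ _).prod (convex_strip' φ c)
  have hs0 : ((φ : ℂ) * Complex.I) ∈ Strip φ c := by
    show |((φ : ℂ) * Complex.I).im - φ| < c
    simp [hc]
  have hUne : (ball cc (√τ) ×ˢ Strip φ c).Nonempty := ⟨(cc, (φ : ℂ) * Complex.I), hccm, hs0⟩
  obtain ⟨Xf, hXf⟩ : ∃ Xf : (Fin n → ℂ) → Fin n → ℂ, ∀ u, xp l v κ Me τ u (w u) = Xf u :=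
    ⟨fun u => xp l v κ Me τ u (w u), fun u => rfl⟩
  simp only [hXf] at hX0 hball
  subst hX0
  have hXP : ∀ u ∈ ball cc (√τ), eval (Xf u) P = 0 := fun u hu => (hball u hu).1
  have hX0P : eval (Xf cc) P = 0 := hXP cc hccm
  have hXd : ∀ i, DifferentiableOn ℂ (fun u => Xf u i) (ball cc (√τ)) := by
    intro i
    simp only [← hXf, xp]
    refine DifferentiableOn.add ?_ (DifferentiableOn.mul_const (hwd.sub ?_) _)
    · fun_prop
    · fun_prop
  have hsec' : ∀ s ∈ Strip φ c, ∀ H ∈ Hs, ∀ D', c0 * ∑ j ∈ Finset.range D',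
        ‖eval (Xf cc) (cf H j)‖ * ‖Complex.exp s‖ ^ j ≤ ‖eval (oe (Complex.exp s) (Xf cc)) H‖ :=
    fun s hs => hsec s (le_of_lt hs)
  have hclose : ∀ u ∈ ball cc (√τ), ∀ s ∈ Strip φ c, ∀ H ∈ Hs,
      ‖eval (oe (Complex.exp s) (Xf u)) H - eval (oe (Complex.exp s) (Xf cc)) H‖ ≤
        ε / c0 * ‖eval (oe (Complex.exp s) (Xf cc)) H‖ := fun u hu s hs H hH' =>
    ev_close hc0 hε.le ((hball u hu).2.2 H hH') (hsec' s hs H hH')
  -- nonvanishing of elements which do not vanish generically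
  have hgen : ∀ H' ∈ Hs, aeval (oe (∏ i, y i ^ m i) x) H' ≠ 0 → ∀ s ∈ Strip φ c,
      eval (oe (Complex.exp s) (Xf cc)) H' ≠ 0 := by
    intro H' hH' hne s hs
    obtain ⟨j, hj⟩ := ndvd_of_aeval hx hne
    have h1 := (hcfb H' hH' j hj).1
    have h2 : 0 < ‖eval (Xf cc) (cf H' j)‖ := by
      by_contra h
      push Not at h
      have h3 : ‖eval (Xf cc) (cf H' j)‖ = 0 := le_antisymm h (norm_nonneg _)
      rw [h3, mul_zero] at h1
      linarith
    have h3 := hsec' s hs H' hH' (j + 1)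
    have h4 : ‖eval (Xf cc) (cf H' j)‖ * ‖Complex.exp s‖ ^ j ≤ ∑ j ∈ Finset.range (j + 1),
        ‖eval (Xf cc) (cf H' j)‖ * ‖Complex.exp s‖ ^ j :=
      Finset.single_le_sum (f := fun j => ‖eval (Xf cc) (cf H' j)‖ * ‖Complex.exp s‖ ^ j)
        (fun _ _ => by positivity) (Finset.mem_range.2 (Nat.lt_succ_self _))
    have h5 : 0 < ‖Complex.exp s‖ ^ j := by
      have := norm_pos_iff.2 (Complex.exp_ne_zero s)
      positivity
    intro h6
    rw [h6, norm_zero] at h3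
    have h7 : 0 < ‖eval (Xf cc) (cf H' j)‖ * ‖Complex.exp s‖ ^ j := mul_pos h2 h5
    nlinarith
  have htH : ∀ p ∈ ball cc (√τ) ×ˢ Strip φ c, eval (oe (Complex.exp p.2) (Xf p.1)) H1 ≠ 0 := by
    intro p hp h0
    have h1 := hclose p.1 hp.1 p.2 hp.2 H1 hHs1
    have h2 := hgen H1 hHs1 hH1 p.2 hp.2
    rw [h0, zero_sub, norm_neg] at h1
    have h4 := norm_pos_iff.2 h2
    nlinarith
  have hnecoef : ∀ i, ∀ s ∈ Strip φ c, ∃ b ∈ Finset.range (N + 1),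
      eval (oe (Complex.exp s) (Xf cc)) ((A i).coeff b) ≠ 0 := by
    intro i s hs
    obtain ⟨b, hbN, hb⟩ := hA1 i
    exact ⟨b, hbN, hgen _ (hAH i b hbN) hb s hs⟩
  obtain ⟨L, hLd, hL⟩ := hlift _ hUo hUc hUne Xf
    (fun i => (hXd i).comp differentiableOn_fst fun p hp => hp.1) (fun p hp => hXP p.1 hp.1) htH
  have hnear : ∀ i, ∀ u ∈ ball cc (√τ), ∀ s ∈ Strip φ c, ‖L i (u, s) - L i (cc, s)‖ ≤ ρ := by
    intro i u hu s hs
    have h1 := near_L (N := N) (A := A i) (L := L i) (X := Xf) (cc := cc) (r := √τ) (φ := φ) (c := c)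
      hsq hc0 hε.le hεδ hst (fun u hu b hb j => (hball u hu).2.2 _ (hAH i b hb) j)
      (fun s hs b hb => hsec' s hs _ (hAH i b hb)) (hnecoef i) (hLd i).continuousOn
      (fun p hp => (hL p hp).1 i) hu hs
    refine h1.trans ?_
    have : min (ρ / 2) (1 / 2) ≤ ρ / 2 := min_le_left _ _
    linarith
  have hlip : ∀ i, ∀ s ∈ Strip φ c, ∀ s' ∈ Strip φ c, ‖s - s'‖ ≤ r1 →
      ‖L i (cc, s) - L i (cc, s')‖ ≤ 1 := by
    intro i s hs s' hs' hss
    have h1 := lip_L (N := N) (A := A i) (L := L i) (X := Xf) (cc := cc) (r := √τ) (φ := φ) (c := c)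
      hsq hc0 hr1N hr1δ hst0 (hN2 i) (fun s hs b hb => hsec' s hs _ (hAH i b hb)) (hnecoef i)
      (hLd i).continuousOn (fun p hp => (hL p hp).1 i) hs hs' hss
    linarith
  have hLs : ∀ i, DifferentiableOn ℂ (fun s => L i (cc, s)) (Strip φ c) := by
    intro i
    refine (hLd i).comp (t := ball cc (√τ) ×ˢ Strip φ c)
      (f := fun s : ℂ => ((cc, s) : (Fin n → ℂ) × ℂ)) (by fun_prop) ?_
    intro s hs
    exact ⟨hccm, hs⟩
  have hmL : ∀ s ∈ Strip φ c, ∀ s' ∈ Strip φ c,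
      ∑ i, (m i : ℂ) * (L i (cc, s) - L i (cc, s')) = s - s' := by
    intro s hs s' hs'
    have h1 := const_of_exp (g := fun s => ∑ i, (m i : ℂ) * L i (cc, s) - s)
      (isOpen_strip' φ c) (convex_strip' φ c) (by
        refine DifferentiableOn.sub ?_ differentiableOn_id
        exact DifferentiableOn.fun_sum fun i _ => (hLs i).const_mul _)
      (fun s hs => (hL (cc, s) ⟨hccm, hs⟩).2.1) hs hs'
    simp only [mul_sub, Finset.sum_sub_distrib]
    linear_combination h1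
  have hmre : ∀ s ∈ Strip φ c, ∑ i, (m i : ℝ) * (L i (cc, s)).re = s.re := by
    intro s hs
    have h1 := (hL (cc, s) ⟨hccm, hs⟩).2.1
    have h2 : ‖Complex.exp (∑ i, (m i : ℂ) * L i (cc, s) - s)‖ = 1 := by rw [h1, norm_one]
    rw [Complex.norm_exp, Real.exp_eq_one_iff, Complex.sub_re, Complex.re_sum] at h2
    have h3 : ∀ i, ((m i : ℂ) * L i (cc, s)).re = (m i : ℝ) * (L i (cc, s)).re := by
      intro i
      rw [show (m i : ℂ) = ((m i : ℝ) : ℂ) by push_cast; rfl, Complex.re_ofReal_mul]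
    simp only [h3] at h2
    linarith
  have hlogre : ∀ (z : ℂ), Real.log ‖Complex.exp z‖ = z.re := by
    intro z
    rw [Complex.norm_exp, Real.log_exp]
  -- far away
  have hfar2 : ∀ s ∈ Strip φ c, (∀ i, |(L i (cc, s)).re| ≤ C * Real.log τ) ∨ ∃ σ ∈ S,
      ∃ lam : ℝ, ∀ i, |(L i (cc, s)).re - (σ i : ℝ) * lam| ≤ C * Real.log τ := by
    intro s hs
    have h1 := hfarC τ hτ2 (Sum.elim (Xf cc) (fun i => Complex.exp (L i (cc, s))))
      (hL (cc, s) ⟨hccm, hs⟩).2.2.1 (fun i => Complex.exp_ne_zero _) (fun i => hX0b i)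
      (hRb R (Finset.mem_singleton_self R) hR)
    simp only [Sum.elim_inr, hlogre] at h1
    exact h1
  obtain ⟨σc, hσ1, hσ2⟩ := hcross τ φ c (fun i s => L i (cc, s)) (w cc) hc hlog1
    (fun i => (hLs i).continuousOn) hmre hfar2 hwB
  have hsline : ((σc : ℂ) + (φ : ℂ) * Complex.I) ∈ Strip φ c := by
    show |((σc : ℂ) + (φ : ℂ) * Complex.I).im - φ| < c
    simp [hc]
  have hsre : ((σc : ℂ) + (φ : ℂ) * Complex.I).re = σc := by simp
  have hbound : ∀ i, |(L i (cc, (σc : ℂ) + (φ : ℂ) * Complex.I)).re| ≤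
      (2 * (D + N * K0 + |Real.log c0| + Real.log (N + 1)) + Real.log (N + 1)) * Real.log τ := by
    intro i
    rw [← hlogre]
    have h1 := root_size (N := N) (t := fun b =>
        eval (oe (Complex.exp ((σc : ℂ) + (φ : ℂ) * Complex.I)) (Xf cc)) ((A i).coeff b))
      (Complex.exp_ne_zero (L i (cc, (σc : ℂ) + (φ : ℂ) * Complex.I)))
      (B := (D + N * K0 + |Real.log c0| + Real.log (N + 1)) * Real.log τ)
      ((hL (cc, _) ⟨hccm, hsline⟩).1 i) (hnecoef i _ hsline) (fun b hb hb0 =>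
        ev_size (hN2 i b) hc0 hτe hX0P (by rw [hsre]; exact hσ2) (hsec' _ hsline _ (hAH i b hb))
          (hcfb _ (hAH i b hb)) hb0)
    refine h1.trans ?_
    have h2 : Real.log ((N : ℝ) + 1) ≤ Real.log ((N : ℝ) + 1) * Real.log τ :=
      le_mul_of_one_le_right hlogN hlog1
    linarith
  subst hcc
  refine ⟨⟨φ, fun p i => L i p, w, ?_, hwd, ?_, ?_, hwB,
    fun u hu => ((hball u hu).2.1).trans hερ, ?_, ?_, ?_, ?_⟩⟩
  · exact differentiableOn_pi.2 fun i => hLd i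
  · intro u hu s hs
    have h1 := (hL (u, s) ⟨hu, hs⟩).2.2
    rw [← hXf] at h1
    exact h1
  · intro u hu s hs
    rw [pi_norm_le_iff_of_nonneg hρ.le]
    intro i
    exact hnear i u hu s hs
  · intro s s' hs hs' hss
    rw [pi_norm_le_iff_of_nonneg (by norm_num)]
    intro i
    exact hlip i s hs s' hs' hss
  · intro s s' hs hs'
    exact hmL s hs s' hs'
  · exact ⟨σc, hσ1, hbound⟩
  · intro i
    refine ⟨fun p => eval (Xf (cen κ1 τ)) (cf ((A i).coeff p.1) p.2), ?_, ?_⟩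
    · obtain ⟨b, hbN, hb⟩ := hA1 i
      obtain ⟨j, hj⟩ := ndvd_of_aeval hx hb
      have hjN : j < N + 1 := by
        by_contra hcon
        apply hj
        have : cf ((A i).coeff b) j = 0 := by
          unfold cf
          apply Polynomial.coeff_eq_zero_of_natDegree_lt
          have := hN2 i b
          omega
        rw [this]; exact dvd_zero _
      refine ⟨(b, j), ?_, ?_⟩
      · exact Finset.mem_product.2 ⟨hbN, Finset.mem_range.2 hjN⟩
      · intro h0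
        have h1 := (hcfb _ (hAH i b hbN) j hj).1
        simp only at h0
        rw [h0, norm_zero, mul_zero] at h1
        linarith
    · intro s hs
      have h1 := (hL (cen κ1 τ, s) ⟨hccm, hs⟩).1 i
      unfold box
      rw [Finset.sum_product, ← h1]
      refine Finset.sum_congr rfl fun b _ => ?_
      simp only
      rw [eval_oe_sum, Finset.sum_mul]
      symm
      refine Finset.sum_subset (Finset.range_subset_range.2
        (Nat.succ_le_succ (hN2 i b))) ?_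
      intro j _ hj
      have : cf ((A i).coeff b) j = 0 := by
        unfold cf
        apply Polynomial.coeff_eq_zero_of_natDegree_lt
        rw [Finset.mem_range] at hj
        omega
      rw [this, map_zero, zero_mul, zero_mul]

/-- **exponential points near irrational flat rays** -/
theorem stage {P : MvPolynomial (Fin n) ℂ} (hP : Irreducible P) {x y : Fin n → E}
    (hx : ∀ g : MvPolynomial (Fin n) ℂ, aeval x g = 0 ↔ P ∣ g) (hy : ∀ l, y l ≠ 0) (htr : Tr1 x)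
    {l v κ : Fin n → ℝ} (hl : ∀ m : Fin n → ℤ, m ≠ 0 → ∃ i j, (m i : ℝ) * l j ≠ m j * l i)
    {Me : ℕ} (hreg : HasReg P l v κ Me) {a : Fin n → ℚ} (hla : ∑ i, l i * (a i : ℝ) ≠ 0)
    (ha : ∀ m : Fin n → ℤ, ∑ i, (m i : ℝ) * (a i : ℝ) ≠ 0 →
      Transcendental (IntermediateField.adjoin ℂ (Set.range x)) (∏ i, y i ^ m i))
    {H : MvPolynomial (Fin n ⊕ Fin n) ℂ} (hH : aeval (Sum.elim x y) H ≠ 0) :
    ∃ z : Fin n → ℂ, Sum.elim z (fun l => Complex.exp (z l)) ∈ Pt (Sum.elim x y) ∧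
      eval (Sum.elim z (fun l => Complex.exp (z l))) H ≠ 0 := by
  classical
  have hl0 : l ≠ 0 := by
    rintro rfl
    apply hla
    simp
  obtain ⟨S, R, hR, hfar⟩ := far hP hx hy htr
  obtain ⟨m, hm1, hm2⟩ := exists_int_approx l (insert a S)
  have hma : ∑ i, (m i : ℝ) * (a i : ℝ) ≠ 0 := by
    intro h
    have := hm2 a (Finset.mem_insert_self _ _) hla
    rw [h, mul_zero] at this
    exact lt_irrefl _ this
  obtain ⟨N, κ1, c, r1, B, C0, hκ1, hc, hr1, hst⟩ := stage_ev hP hx hy htr hreg hR hfar hm1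
    (fun q hq => hm2 q (Finset.mem_insert_of_mem hq)) (ha m hma) hH
  obtain ⟨ηf, hηf, hηst⟩ := exists_eta
    (Q := fun ρ τ => Nonempty (St n N l m v κ κ1 Me c r1 B C0 (Gd x y H) ρ τ))
    (fun ρ ρ' τ h hd => ⟨St.weaken h hd.some⟩) hst
  obtain ⟨z, hz⟩ := final (N := N) hl0 hl hm1 hκ1 hc hr1 hηf hηst
  exact ⟨z, hz.1, hz.2⟩

end Pool.Agent.Helper57.HT
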