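import Pool.Agent.Helper57.HT.Ends2
import Pool.Agent.Helper57.HT.Newt
import Pool.Agent.Helper57.HT.Stage2

/-!
Project HT (helper57): assembly in the function field.
-/

set_option autoImplicit false

namespace Pool.Agent.Helper57.HT

open MvPolynomial Filter Topology Metric Pool.Agent.W996.EC Pool.Agent.Q72.EG
  Pool.Agent.Helper57.RA

variable {n : ℕ} {E : Type} [Field E] [Algebra ℂ E]

/-- a real factor which is not invariant -/
theorem exists_real_factor {P : MvPolynomial (Fin n) ℂ} (hP : P ≠ 0) {a : Fin n → ℝ}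
    (hstar : ∀ q, LimInf P q → Star {a} q) (hF : NI (homogeneousComponent P.totalDegree P) a) :
    ∃ G, Irreducible G ∧ G ∣ homogeneousComponent P.totalDegree P ∧ NI G a ∧
      ∀ m, (coeff m G).im = 0 := by
  obtain ⟨G, hG, hGF, hinv⟩ := exists_factor hF
  have hreal : ∃ c : ℂ, c ≠ 0 ∧ ∀ m, (coeff m (C c * G)).im = 0 := by
    by_contra h
    obtain ⟨q, hq, hns⟩ := Pool.Agent.Q151.EG.nr n P G a hP hG hGF h hinv
    exact hns (hstar q hq)
  obtain ⟨c, hc, hreal⟩ := hreal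
  have hu : IsUnit (C c : MvPolynomial (Fin n) ℂ) := (isUnit_iff_ne_zero.2 hc).map C
  have hassoc : Associated G (C c * G) := by
    rw [mul_comm]
    exact (associated_mul_unit_right G (C c) hu)
  refine ⟨C c * G, hassoc.irreducible hG, hassoc.symm.dvd.trans hGF, ?_, hreal⟩
  obtain ⟨x, t, hxt⟩ := hinv
  refine ⟨x, t, ?_⟩
  rw [map_mul, map_mul, eval_C]
  intro h
  rw [eval_C] at h
  exact hxt (mul_left_cancel₀ hc h)

/-- **the theorem in the function field** -/
theorem core {P : MvPolynomial (Fin n) ℂ} (hP : Irreducible P) {x y : Fin n → E}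
    (hx : ∀ g : MvPolynomial (Fin n) ℂ, aeval x g = 0 ↔ P ∣ g) (hy : ∀ l, y l ≠ 0)
    (htr : Tr1 x)
    (hF : homogeneousComponent P.totalDegree P ∉ Algebra.adjoin ℂ {g | ∃ m : Fin n → ℤ,
      IsAlgebraic (IntermediateField.adjoin ℂ (Set.range x)) (∏ l, y l ^ m l) ∧ g = linm m})
    (hnc : ∀ (m : Fin n → ℤ) (c : ℂ), m ≠ 0 → ¬ P ∣ linm m - C c)
    {H : MvPolynomial (Fin n ⊕ Fin n) ℂ} (hH : aeval (Sum.elim x y) H ≠ 0) :
    ∃ z : Fin n → ℂ, Sum.elim z (fun l => Complex.exp (z l)) ∈ Pt (Sum.elim x y) ∧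
      eval (Sum.elim z (fun l => Complex.exp (z l))) H ≠ 0 := by
  classical
  by_contra hcon
  have hno : NoExp x y H := by
    intro z hz
    by_contra h
    exact hcon ⟨z, hz, h⟩
  apply hcon
  obtain ⟨G0, e1, e2, e3, hNI⟩ : ∃ G0 : Gen n E, G0.P = P ∧ G0.x = x ∧ G0.y = y ∧
      NI (homogeneousComponent P.totalDegree P) G0.a := by
    by_contra h
    push Not at h
    exact hF (mem_adjoin_of_inv hP hx hy htr h)
  have hstarG : ∀ G1 : Gen n E, G1.P = P → G1.x = x → G1.y = y → ∀ q, LimInf P q →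
      Star {G1.a} q := by
    intro G1 h1 h2 h3 q hq
    exact all_core n E G1 H (by rw [h2, h3]; exact hH) (by rw [h2, h3]; exact hno) q
      (by rw [h1]; exact hq)
  have hstar := hstarG G0 e1 e2 e3
  obtain ⟨G, hG, hGF, hinv, hreal⟩ := exists_real_factor hP.ne_zero hstar hNI
  -- the case of a rational linear factor
  by_cases hrat : ∃ m : Fin n → ℤ, m ≠ 0 ∧ ∀ i j, Dk (wv m i j) G = 0
  · obtain ⟨m, hm0, hW⟩ := hrat
    obtain ⟨κ, hκ, -⟩ := exists_real_pt hP.ne_zero hG hGF hinv hstar (ι := Empty)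
      (fun i => i.elim) (fun i => i.elim)
    exact rational_case hP hx hy htr hnc G0 e2 e3 hGF hinv hκ hm0 hW hH
  push Not at hrat
  choose i1 j1 hij using hrat
  set d := P.totalDegree with hd
  set cp : ℕ → MvPolynomial (Fin n) ℂ := fun s => homogeneousComponent (d - s) P with hcp
  have hcp0 : cp 0 = homogeneousComponent d P := by rw [hcp]; simp
  have htop : cp 0 ≠ 0 := by
    rw [hcp0]; exact Pool.Agent.Q98.EG.homog_ne_zero hP.ne_zero
  set μ : ℕ → ℕ := fun s => if cp s = 0 then multiplicity G (cp 0) else multiplicity G (cp s)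
    with hμ
  have hμ0 : μ 0 = multiplicity G (cp 0) := by
    simp only [hμ]
    split_ifs <;> rfl
  have hQex : ∀ s, ∃ Q, cp s = G ^ μ s * Q ∧ (cp s ≠ 0 → ¬ G ∣ Q) := by
    intro s
    by_cases hs : cp s = 0
    · exact ⟨0, by rw [hs, mul_zero], fun h => absurd hs h⟩
    · have hfm : FiniteMultiplicity G (cp s) := FiniteMultiplicity.of_not_isUnit hG.not_isUnit hs
      obtain ⟨Q, hQ1, hQ2⟩ := hfm.exists_eq_pow_mul_and_not_dvd
      refine ⟨Q, ?_, fun _ => hQ2⟩
      simp only [hμ, if_neg hs]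
      exact hQ1
  choose Q hQ1 hQ2 using hQex
  -- the real point
  obtain ⟨κ, hκ, hκR⟩ := exists_real_pt hP.ne_zero hG hGF hinv hstar
    (ι := {s : ℕ // cp s ≠ 0} ⊕ (Unit ⊕ {m : Fin n → ℤ // m ≠ 0}))
    (Sum.elim (fun s => Q s.1) (Sum.elim (fun _ => Dk G0.a G)
      (fun m => Dk (wv m.1 (i1 m.1 m.2) (j1 m.1 m.2)) G))) (by
      rintro (s | _ | m)
      · exact hQ2 s.1 s.2
      · exact Pool.Agent.Q251.EG.Reg.dk_ndvd hinv
      · exact ndvd_Dk (hij m.1 m.2))
  have hκQ : ∀ s, cp s ≠ 0 → eval (cx κ) (Q s) ≠ 0 := fun s hs => hκR (Sum.inl ⟨s, hs⟩)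
  have hκa : eval (cx κ) (Dk G0.a G) ≠ 0 := hκR (Sum.inr (Sum.inl ()))
  have hκm : ∀ m (hm : m ≠ 0), eval (cx κ) (Dk (wv m (i1 m hm) (j1 m hm)) G) ≠ 0 :=
    fun m hm => hκR (Sum.inr (Sum.inr ⟨m, hm⟩))
  set l : Fin n → ℝ := fun i => (eval (cx κ) (pderiv i G)).re with hl
  have hlc : ∀ i, ((l i : ℝ) : ℂ) = eval (cx κ) (pderiv i G) := by
    intro i
    have h1 := real_val (real_pderiv hreal i) κ
    apply Complex.ext
    · simp [hl]
    · simp [h1]
  have hla : ∑ i, l i * G0.a i ≠ 0 := by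
    intro h
    apply hκa
    rw [eval_Dk]
    have h1 : ∀ i, ((G0.a i : ℝ) : ℂ) * eval (cx κ) (pderiv i G) = ((l i * G0.a i : ℝ) : ℂ) := by
      intro i
      rw [← hlc i]
      push_cast
      ring
    rw [Finset.sum_congr rfl fun i _ => h1 i, ← Complex.ofReal_sum, h, Complex.ofReal_zero]
  have hlm : ∀ m : Fin n → ℤ, m ≠ 0 → ∃ i j, (m i : ℝ) * l j ≠ m j * l i := by
    intro m hm
    refine ⟨i1 m hm, j1 m hm, fun h => hκm m hm ?_⟩
    rw [eval_Dk_wv, ← hlc, ← hlc]
    have h1 : ((m (i1 m hm) : ℝ) : ℂ) * (l (j1 m hm) : ℂ) = ((m (j1 m hm) : ℝ) : ℂ) * (l (i1 m hm) : ℂ) := by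
      exact_mod_cast h
    push_cast at h1
    rw [h1, sub_self]
  set v : Fin n → ℝ := fun i => G0.a i / ∑ i, l i * G0.a i with hv
  have hlv : ∑ i, l i * v i = 1 := by
    simp only [hv]
    rw [Finset.sum_congr rfl fun i _ => (mul_div_assoc (l i) (G0.a i) _).symm, ← Finset.sum_div]
    exact div_self hla
  obtain ⟨K, hK, hKe⟩ := taylor (cx κ) G
  have hGcp : G ∣ cp 0 := by rw [hcp0]; exact hGF
  have hN : Nt P G κ l :=
    { K := K
      hK := hK
      hG := by
        intro y h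
        have h1 := hKe y h
        rw [hκ, zero_add] at h1
        simp only [← hlc] at h1
        exact h1
      μ := μ
      Q := Q
      hPQ := fun s _ => hQ1 s
      hQ := fun s _ hs => hκQ s hs
      h0 := by
        intro s _ hs
        have h1 : cp s = 0 := hs
        rw [hμ0]
        simp only [hμ, if_pos h1]
      hμ := by
        by_contra h
        have h0 : μ 0 = 0 := by omega
        have h1 := hQ1 0
        rw [h0, pow_zero, one_mul] at h1
        exact hQ2 0 htop (h1 ▸ hGcp) }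
  obtain ⟨G1, f1, f2, f3, hopp⟩ := opposite hP hx hy htr G0 e1 e2 e3 hla
  have hI := hN.regime hlv hP.ne_zero hopp
    (fun q hq => ⟨hstar q hq, hstarG G1 f1 f2 f3 q hq⟩)
  have hfr := hN.flat hlv hP.ne_zero hI
  have hreg := region hP hlv hfr
  refine stage hP hx hy htr hlm hreg (a := aq G0) ?_ ?_ hH
  · simp only [aq_cast]
    exact hla
  · intro m hm
    simp only [aq_cast] at hm
    have := gen_trans G0 hm
    rw [e2, e3] at this
    exact this

end Pool.Agent.Helper57.HT
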