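import Pool.Agent.Helper57.RA.Main

/-!
Project HT (helper57): real points of a factor of the leading form, algebra.
-/

set_option autoImplicit false

namespace Pool.Agent.Helper57.HT

open MvPolynomial Filter Topology Metric Pool.Agent.W996.EC Pool.Agent.Q72.EG
  Pool.Agent.Helper57.RA

variable {n : ℕ}

theorem cx_cont : Continuous (cx (n := n)) := by
  unfold cx
  fun_prop

/-- a common real non-zero point of countably many nonzero polynomials -/
theorem exists_real_ne {ι : Type} [Countable ι] (ρ : ι → MvPolynomial (Fin n) ℂ)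
    (h : ∀ i, ρ i ≠ 0) : ∃ κ : Fin n → ℝ, ∀ i, eval (cx κ) (ρ i) ≠ 0 := by
  have hopen : ∀ i, IsOpen {κ : Fin n → ℝ | eval (cx κ) (ρ i) ≠ 0} := by
    intro i
    exact isOpen_ne.preimage ((MvPolynomial.continuous_eval (ρ i)).comp cx_cont)
  have hdense : ∀ i, Dense {κ : Fin n → ℝ | eval (cx κ) (ρ i) ≠ 0} := by
    intro i
    rw [Metric.dense_iff]
    intro κ r hr
    by_contra hcon
    rw [Set.not_nonempty_iff_eq_empty, Set.eq_empty_iff_forall_notMem] at hcon
    apply h i
    refine MvPolynomial.funext_set (fun j => (fun s : ℝ => (s : ℂ)) '' Set.Ioo (κ j - r) (κ j + r)) ?_ ?_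
    · intro j
      exact (Set.Ioo_infinite (by linarith)).image (Complex.ofReal_injective.injOn)
    · intro x hx
      have h1 : ∀ j, ∃ s : ℝ, s ∈ Set.Ioo (κ j - r) (κ j + r) ∧ (s : ℂ) = x j :=
        fun j => hx j (Set.mem_univ j)
      choose κ' hκ1 hκ2 using h1
      have h2 : x = cx κ' := by
        funext j
        exact (hκ2 j).symm
      rw [map_zero]
      by_contra h3
      refine hcon κ' ⟨?_, ?_⟩
      · rw [mem_ball, dist_pi_lt_iff hr]
        intro j
        rw [Real.dist_eq, abs_lt]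
        exact ⟨by linarith [(hκ1 j).1], by linarith [(hκ1 j).2]⟩
      · show eval (cx κ') (ρ i) ≠ 0
        rw [← h2]
        exact h3
  obtain ⟨κ, hκ⟩ := (dense_iInter_of_isOpen hopen hdense).nonempty
  exact ⟨κ, fun i => Set.mem_iInter.1 hκ i⟩

/-- not invariant in the direction `a` -/
def NI (P : MvPolynomial (Fin n) ℂ) (a : Fin n → ℝ) : Prop :=
  ∃ (x : Fin n → ℂ) (t : ℂ), eval (fun l => x l + t * (a l : ℂ)) P ≠ eval x P

/-- roots on generic real lines are real -/
theorem real_root {P : MvPolynomial (Fin n) ℂ} {a : Fin n → ℝ} (hP : P ≠ 0)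
    (hstar : ∀ q, LimInf P q → Star {a} q) {κ : Fin n → ℝ} {s : ℂ}
    (hκ : eval (cx κ) (homogeneousComponent P.totalDegree P) ≠ 0)
    (hFs : eval (fun l => (κ l : ℂ) + s * (a l : ℂ)) (homogeneousComponent P.totalDegree P) = 0) :
    s.im = 0 := by
  by_contra him
  obtain ⟨h1, h2⟩ := Pool.Agent.W565.EC.t_top n P hP
  obtain ⟨F, hF⟩ : ∃ F, F = homogeneousComponent P.totalDegree P := ⟨_, rfl⟩
  rw [← hF] at h1 h2 hκ hFs
  have hhom : F.IsHomogeneous P.totalDegree := by
    rw [hF]
    exact homogeneousComponent_isHomogeneous _ _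
  have hstarF := hstar F h1
  obtain ⟨σ, hσ, hσs⟩ : ∃ σ : ℝ, σ ≠ 0 ∧ 0 < σ * s.im := by
    rcases lt_or_gt_of_ne him with h | h
    · exact ⟨-1, by norm_num, by linarith⟩
    · exact ⟨1, by norm_num, by linarith⟩
  rcases hstarF a rfl (fun l => σ * κ l) with h3 | h3
  · refine h3 (σ * Complex.I * s) ?_ ?_
    · have : ((σ : ℂ) * Complex.I * s).re = -(σ * s.im) := by
        simp
      rw [this]
      linarith
    · have e1 : (fun i => (a i : ℂ) * (σ * Complex.I * s) + Complex.I * (((σ * κ i : ℝ)) : ℂ)) =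
          fun i => (Complex.I * σ) * ((κ i : ℂ) + s * (a i : ℂ)) := by
        funext i
        push_cast
        ring
      rw [e1, Pool.Agent.Q151.EG.eval_smul_hom hhom, hFs, mul_zero]
  · have h4 := h3 0
    have e1 : (fun i => (a i : ℂ) * 0 + Complex.I * (((σ * κ i : ℝ)) : ℂ)) =
        fun i => (Complex.I * σ) * (cx κ i) := by
      funext i
      unfold cx
      push_cast
      ring
    rw [e1, Pool.Agent.Q151.EG.eval_smul_hom hhom] at h4
    rcases mul_eq_zero.mp h4 with h5 | h5
    · have h6 : Complex.I * (σ : ℂ) ≠ 0 := mul_ne_zero Complex.I_ne_zero (by exact_mod_cast hσ)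
      exact (pow_ne_zero _ h6) h5
    · exact hκ h5

/-- real points of the factor, outside of countably many hypersurfaces -/
theorem exists_real_pt {P G : MvPolynomial (Fin n) ℂ} {a : Fin n → ℝ} (hP : P ≠ 0)
    (hG : Irreducible G) (hGF : G ∣ homogeneousComponent P.totalDegree P)
    (hinv : NI G a) (hstar : ∀ q, LimInf P q → Star {a} q)
    {ι : Type} [Countable ι] (R : ι → MvPolynomial (Fin n) ℂ) (hR : ∀ i, ¬ G ∣ R i) :
    ∃ κ : Fin n → ℝ, eval (cx κ) G = 0 ∧ ∀ i, eval (cx κ) (R i) ≠ 0 := by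
  choose ρ α β hρ hE using fun i => Pool.Agent.Q252.EG.elim n G (R i) a hG hinv (hR i)
  have hdeg : (Pool.Agent.Q252.EG.hat a G).natDegree ≠ 0 := Pool.Agent.Q252.EG.hat_deg a hinv
  have hlc : (Pool.Agent.Q252.EG.hat a G).leadingCoeff ≠ 0 := by
    rw [Ne, Polynomial.leadingCoeff_eq_zero]
    intro h
    rw [h, Polynomial.natDegree_zero] at hdeg
    exact hdeg rfl
  have hF0 : homogeneousComponent P.totalDegree P ≠ 0 := Pool.Agent.Q98.EG.homog_ne_zero hP
  obtain ⟨κ0, hκ0⟩ := exists_real_ne (ι := Option (Option ι)) (fun o => match o with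
    | none => (Pool.Agent.Q252.EG.hat a G).leadingCoeff
    | some none => homogeneousComponent P.totalDegree P
    | some (some i) => ρ i) (by
      rintro (_ | _ | i)
      · exact hlc
      · exact hF0
      · exact hρ i)
  have hκ1 : eval (cx κ0) (Pool.Agent.Q252.EG.hat a G).leadingCoeff ≠ 0 := hκ0 none
  have hκ2 : eval (cx κ0) (homogeneousComponent P.totalDegree P) ≠ 0 := hκ0 (some none)
  have hκ3 : ∀ i, eval (cx κ0) (ρ i) ≠ 0 := fun i => hκ0 (some (some i))
  obtain ⟨s, hs⟩ : ∃ s : ℂ, ((Pool.Agent.Q252.EG.hat a G).map (eval (cx κ0))).eval s = 0 := by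
    apply IsAlgClosed.exists_root
    rw [Polynomial.degree_map_eq_of_leadingCoeff_ne_zero _ hκ1]
    intro h
    apply hdeg
    exact Polynomial.natDegree_eq_of_degree_eq_some h
  rw [Pool.Agent.Q252.EG.eval_hat] at hs
  have hFs : eval (fun l => (κ0 l : ℂ) + s * (a l : ℂ)) (homogeneousComponent P.totalDegree P) = 0 := by
    obtain ⟨H, hH⟩ := hGF
    rw [hH, map_mul]
    have : eval (fun l => (κ0 l : ℂ) + s * (a l : ℂ)) G = 0 := hs
    exact mul_eq_zero_of_left this _
  have him := real_root hP hstar hκ2 hFs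
  have hcx : (fun l => cx κ0 l + s * (a l : ℂ)) = cx (fun l => κ0 l + s.re * a l) := by
    funext l
    have : s = (s.re : ℂ) := by
      apply Complex.ext <;> simp [him]
    rw [this]
    simp [cx]
  refine ⟨fun l => κ0 l + s.re * a l, ?_, fun i h0 => ?_⟩
  · rw [← hcx]; exact hs
  · have h1 := hE i (cx κ0) s
    rw [hs, mul_zero, zero_add, hcx, h0, mul_zero] at h1
    exact hκ3 i h1

/-- first order expansion -/
theorem taylor (κ : Fin n → ℂ) (p : MvPolynomial (Fin n) ℂ) :
    ∃ K : (Fin n → ℂ) × ℂ → ℂ, Continuous K ∧ ∀ (y : Fin n → ℂ) (h : ℂ),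
      eval (fun i => κ i + h * y i) p =
        eval κ p + h * (∑ i, eval κ (pderiv i p) * y i + h * K (y, h)) := by
  induction p using MvPolynomial.induction_on with
  | C c => exact ⟨fun _ => 0, continuous_const, fun y h => by simp⟩
  | add p q hp hq =>
    obtain ⟨K, hK, h1⟩ := hp
    obtain ⟨L, hL, h2⟩ := hq
    refine ⟨fun z => K z + L z, hK.add hL, fun y h => ?_⟩
    simp only [map_add, h1, h2, add_mul, Finset.sum_add_distrib]
    ring
  | mul_X p j hp =>
    obtain ⟨K, hK, h1⟩ := hp
    refine ⟨fun z => K z * κ j + (∑ i, eval κ (pderiv i p) * z.1 i + z.2 * K z) * z.1 j, ?_,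
      fun y h => ?_⟩
    · fun_prop
    · rw [map_mul, h1, eval_X, map_mul, eval_X]
      have h3 : ∀ i, eval κ (pderiv i (p * X j)) * y i =
          (eval κ (pderiv i p) * y i) * κ j + (if j = i then eval κ p * y i else 0) := by
        intro i
        rw [pderiv_mul, map_add, map_mul, map_mul, eval_X, pderiv_X]
        by_cases hij : j = i
        · subst hij
          simp; ring
        · rw [Pi.single_eq_of_ne hij, if_neg hij]
          simp; ring
      rw [Finset.sum_congr rfl fun i _ => h3 i, Finset.sum_add_distrib, ← Finset.sum_mul,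
        Finset.sum_ite_eq]
      simp only [Finset.mem_univ, if_true]
      ring

/-- values of a real polynomial at real points -/
theorem real_val {p : MvPolynomial (Fin n) ℂ} (hp : ∀ m, (coeff m p).im = 0) (κ : Fin n → ℝ) :
    (eval (cx κ) p).im = 0 := by
  have h1 : Pool.Agent.Q151.EG.bar p = p := by
    ext m
    unfold Pool.Agent.Q151.EG.bar
    rw [coeff_map]
    exact Complex.conj_eq_iff_im.2 (hp m)
  have h2 := Pool.Agent.Q151.EG.bar_eval p κ
  rw [h1] at h2
  exact Complex.conj_eq_iff_im.1 h2.symm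

theorem real_pderiv {p : MvPolynomial (Fin n) ℂ} (hp : ∀ m, (coeff m p).im = 0) (i : Fin n) :
    ∀ m, (coeff m (pderiv i p)).im = 0 := by
  have h1 : Pool.Agent.Q151.EG.bar p = p := by
    ext m
    unfold Pool.Agent.Q151.EG.bar
    rw [coeff_map]
    exact Complex.conj_eq_iff_im.2 (hp m)
  have h2 : Pool.Agent.Q151.EG.bar (pderiv i p) = pderiv i p := by
    conv_rhs => rw [← h1]
    unfold Pool.Agent.Q151.EG.bar
    rw [MvPolynomial.pderiv_map]
  intro m
  have h3 := congrArg (coeff m) h2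
  unfold Pool.Agent.Q151.EG.bar at h3
  rw [coeff_map] at h3
  exact Complex.conj_eq_iff_im.1 h3

end Pool.Agent.Helper57.HT
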