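import Mathlib

/-!
Project HT (helper57): rational approximation of real linear forms.
-/

set_option autoImplicit false

namespace Pool.Agent.Helper57.HT

open Filter Topology Metric

/-- a common denominator -/
theorem exists_den {n : ℕ} (q : Fin n → ℚ) :
    ∃ (D : ℕ) (m : Fin n → ℤ), 0 < D ∧ ∀ i, (m i : ℚ) = D * q i := by
  refine ⟨∏ i, (q i).den, fun i => (q i).num * ∏ j ∈ Finset.univ.erase i, ((q j).den : ℤ),
    Finset.prod_pos fun i _ => (q i).den_pos, fun i => ?_⟩
  rw [← Finset.mul_prod_erase _ _ (Finset.mem_univ i)]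
  have h : (q i : ℚ) * (q i).den = (q i).num := Rat.mul_den_eq_num (q i)
  push_cast
  rw [← h]; ring

/-- **an integral vector with the rational relations of `l` and close to the direction of `l`** -/
theorem exists_int_approx {n : ℕ} (l : Fin n → ℝ) (S : Finset (Fin n → ℚ)) :
    ∃ m : Fin n → ℤ, (∀ a : Fin n → ℚ, ∑ i, l i * (a i : ℝ) = 0 → ∑ i, (m i : ℝ) * (a i : ℝ) = 0) ∧
      ∀ a ∈ S, ∑ i, l i * (a i : ℝ) ≠ 0 →
        0 < (∑ i, l i * (a i : ℝ)) * (∑ i, (m i : ℝ) * (a i : ℝ)) := by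
  classical
  set V := Submodule.span ℚ (Set.range l) with hV
  have hfin : Module.Finite ℚ V := Module.Finite.span_of_finite ℚ (Set.finite_range l)
  set β := Module.finBasis ℚ V with hβ
  set r := Module.finrank ℚ V with hr
  have hlV : ∀ i, l i ∈ V := fun i => Submodule.subset_span ⟨i, rfl⟩
  set q : Fin n → Fin r → ℚ := fun i k => β.repr ⟨l i, hlV i⟩ k with hq
  have hl : ∀ i, l i = ∑ k, (q i k : ℝ) * ((β k : V) : ℝ) := by
    intro i
    have h1 := β.sum_repr ⟨l i, hlV i⟩
    have h2 := congrArg (fun x : V => (x : ℝ)) h1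
    simp only [Submodule.coe_sum, Submodule.coe_smul] at h2
    rw [← h2]
    refine Finset.sum_congr rfl fun k _ => ?_
    rw [Rat.smul_def]
  have hlin : ∀ c : Fin r → ℚ, ∑ k, (c k : ℝ) * ((β k : V) : ℝ) = 0 → c = 0 := by
    intro c hc
    have h1 : ∑ k, c k • β k = 0 := by
      apply Subtype.ext
      simp only [Submodule.coe_sum, Submodule.coe_smul, Submodule.coe_zero]
      rw [← hc]
      exact Finset.sum_congr rfl fun k _ => by rw [Rat.smul_def]
    exact funext (Fintype.linearIndependent_iff.1 β.linearIndependent c h1)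
  -- the family
  set Φ : (Fin r → ℝ) → Fin n → ℝ := fun b i => ∑ k, (q i k : ℝ) * b k with hΦ
  have hΦc : Continuous Φ := by
    refine continuous_pi fun i => ?_
    simp only [hΦ]
    fun_prop
  have hΦβ : Φ (fun k => ((β k : V) : ℝ)) = l := funext fun i => (hl i).symm
  have hdot : ∀ (b : Fin r → ℝ) (a : Fin n → ℚ), ∑ i, Φ b i * (a i : ℝ) =
      ∑ k, ((∑ i, q i k * a i : ℚ) : ℝ) * b k := by
    intro b a
    simp only [hΦ, Finset.sum_mul]
    rw [Finset.sum_comm]
    refine Finset.sum_congr rfl fun k _ => ?_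
    push_cast
    rw [Finset.sum_mul]
    exact Finset.sum_congr rfl fun i _ => by ring
  -- the open condition
  have hopen : ∀ᶠ b in 𝓝 (fun k => ((β k : V) : ℝ)), ∀ a ∈ S, ∑ i, l i * (a i : ℝ) ≠ 0 →
      0 < (∑ i, l i * (a i : ℝ)) * (∑ i, Φ b i * (a i : ℝ)) := by
    rw [Filter.eventually_all_finset]
    intro a _
    by_cases h0 : ∑ i, l i * (a i : ℝ) = 0
    · exact Eventually.of_forall fun b h => absurd h0 h
    · have hc : Continuous fun b => (∑ i, l i * (a i : ℝ)) * (∑ i, Φ b i * (a i : ℝ)) := by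
        have : ∀ i, Continuous fun b => Φ b i := fun i => (continuous_apply i).comp hΦc
        fun_prop
      have hpos : 0 < (∑ i, l i * (a i : ℝ)) * (∑ i, Φ (fun k => ((β k : V) : ℝ)) i * (a i : ℝ)) := by
        rw [hΦβ]
        exact mul_self_pos.2 h0
      filter_upwards [hc.continuousAt.eventually (lt_mem_nhds hpos)] with b hb _ using hb
  have hdense : DenseRange (Pi.map fun (_ : Fin r) (x : ℚ) => (x : ℝ)) :=
    DenseRange.piMap fun _ => Rat.denseRange_cast
  obtain ⟨b, hb⟩ := hdense.exists_mem_open isOpen_interior ⟨_, mem_interior_iff_mem_nhds.2 hopen⟩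
  have hb' := interior_subset hb
  obtain ⟨D, m, hD, hm⟩ := exists_den fun i => ∑ k, q i k * b k
  have hDr : (0 : ℝ) < D := by exact_mod_cast hD
  have hmΦ : ∀ i, (m i : ℝ) = D * Φ (fun k => (b k : ℝ)) i := by
    intro i
    have h1 := hm i
    have h2 : ((m i : ℚ) : ℝ) = ((D * ∑ k, q i k * b k : ℚ) : ℝ) := by rw [h1]
    simp only [hΦ]
    push_cast at h2
    exact h2
  have hmdot : ∀ a : Fin n → ℚ, ∑ i, (m i : ℝ) * (a i : ℝ) =
      D * ∑ i, Φ (fun k => (b k : ℝ)) i * (a i : ℝ) := by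
    intro a
    rw [Finset.mul_sum]
    exact Finset.sum_congr rfl fun i _ => by rw [hmΦ]; ring
  refine ⟨m, ?_, ?_⟩
  · intro a ha
    rw [hmdot, hdot]
    have h1 : (fun k => ∑ i, q i k * a i) = 0 := by
      apply hlin
      rw [← hdot, hΦβ]
      exact ha
    have h2 : ∀ k, ((∑ i, q i k * a i : ℚ) : ℝ) = 0 := by
      intro k
      have := congrFun h1 k
      simp only [Pi.zero_apply] at this
      rw [this]; simp
    simp only [h2, zero_mul, Finset.sum_const_zero, mul_zero]
  · intro a ha h0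
    rw [hmdot]
    have h1 := hb' a ha h0
    have h2 : 0 < (D : ℝ) * ((∑ i, l i * (a i : ℝ)) *
        (∑ i, Φ (fun k => (b k : ℝ)) i * (a i : ℝ))) := mul_pos hDr h1
    linarith

/-- **integral vectors near a given vector, with given value of an irrational linear form** -/
theorem exists_int_near {n : ℕ} (l : Fin n → ℝ) (hl0 : l ≠ 0)
    (hl : ∀ m : Fin n → ℤ, m ≠ 0 → ∃ i j, (m i : ℝ) * l j ≠ m j * l i) (ε : ℝ) (hε : 0 < ε)
    (B : ℝ) : ∃ R : ℝ, ∀ (k : Fin n → ℝ) (c : ℝ), |c| ≤ B → ∃ M : Fin n → ℤ,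
      (∀ i, |2 * Real.pi * M i - k i| ≤ R) ∧
      |∑ i, l i * (2 * Real.pi * M i - k i) - c| ≤ ε := by
  classical
  obtain ⟨j, hj⟩ : ∃ j, l j ≠ 0 := by
    by_contra h
    push Not at h
    exact hl0 (funext h)
  obtain ⟨i, hi⟩ : ∃ i, Irrational (l i / l j) := by
    by_contra h
    push Not at h
    have h1 : ∀ i, ∃ q : ℚ, (q : ℝ) = l i / l j := by
      intro i
      have := h i
      rw [irrational_iff_ne_rational] at this
      push Not at this
      obtain ⟨a, b, -, hab⟩ := this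
      exact ⟨a / b, by push_cast; exact hab.symm⟩
    choose q hq using h1
    obtain ⟨D, m, hD, hm⟩ := exists_den q
    have hmr : ∀ i, (m i : ℝ) = D * (l i / l j) := by
      intro i
      have h2 : ((m i : ℚ) : ℝ) = ((D * q i : ℚ) : ℝ) := by rw [hm i]
      push_cast at h2
      rw [h2, hq]
    have hm0 : m ≠ 0 := by
      intro h0
      have h2 := hmr j
      rw [h0, div_self hj] at h2
      simp only [Pi.zero_apply, Int.cast_zero, mul_one] at h2
      have : D = 0 := by exact_mod_cast h2.symm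
      omega
    obtain ⟨a, b, hab⟩ := hl m hm0
    apply hab
    rw [hmr, hmr]; ring
  have hdense : Dense (AddSubgroup.closure {l i, l j} : Set ℝ) :=
    dense_addSubgroupClosure_pair_iff.2 hi
  have hnear : ∀ c : ℝ, ∃ p q : ℤ, |l i * (2 * Real.pi * p) + l j * (2 * Real.pi * q) - c| ≤ ε / 2 := by
    intro c
    have hpi := Real.two_pi_pos
    obtain ⟨y, hy, hyd⟩ := hdense.exists_dist_lt (c / (2 * Real.pi))
      (show 0 < ε / 2 / (2 * Real.pi) by positivity)
    rw [SetLike.mem_coe, AddSubgroup.mem_closure_pair] at hy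
    obtain ⟨p, q, rfl⟩ := hy
    refine ⟨p, q, ?_⟩
    rw [Real.dist_eq, abs_sub_comm] at hyd
    have h1 : l i * (2 * Real.pi * p) + l j * (2 * Real.pi * q) - c =
        (2 * Real.pi) * (p • l i + q • l j - c / (2 * Real.pi)) := by
      rw [zsmul_eq_mul, zsmul_eq_mul]
      field_simp
    rw [h1, abs_mul, abs_of_pos hpi]
    have h2 := mul_lt_mul_of_pos_left hyd hpi
    have h3 : 2 * Real.pi * (ε / 2 / (2 * Real.pi)) = ε / 2 := by field_simp
    linarith
  choose p q hpq using hnear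
  -- the net
  set A : ℝ := ∑ i, |l i| with hA
  have hA0 : 0 ≤ A := Finset.sum_nonneg fun _ _ => abs_nonneg _
  obtain ⟨N, hN⟩ := exists_nat_ge ((|B| + A * 4) / (ε / 2))
  set R0 : ℝ := ∑ t ∈ Finset.Icc (-(N : ℤ)) N, (|2 * Real.pi * (p (t * (ε / 2)) : ℝ)| +
    |2 * Real.pi * (q (t * (ε / 2)) : ℝ)|) with hR0
  refine ⟨R0 + 4, fun k c hc => ?_⟩
  set M0 : Fin n → ℤ := fun i => round (k i / (2 * Real.pi)) with hM0
  have hM0b : ∀ i, |2 * Real.pi * M0 i - k i| ≤ 4 := by
    intro i
    have h1 : 2 * Real.pi * (M0 i : ℝ) - k i = 2 * Real.pi * ((M0 i : ℝ) - k i / (2 * Real.pi)) := by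
      field_simp
    rw [h1, abs_mul, abs_of_pos Real.two_pi_pos]
    have h2 : |(M0 i : ℝ) - k i / (2 * Real.pi)| ≤ 1 / 2 := by
      rw [abs_sub_comm]; exact abs_sub_round _
    have := Real.pi_lt_four
    nlinarith [Real.pi_pos]
  set c' : ℝ := c - ∑ i, l i * (2 * Real.pi * M0 i - k i) with hc'
  have hc'b : |c'| ≤ |B| + A * 4 := by
    have h1 : |∑ i, l i * (2 * Real.pi * M0 i - k i)| ≤ A * 4 := by
      rw [hA, Finset.sum_mul]
      refine (Finset.abs_sum_le_sum_abs _ _).trans (Finset.sum_le_sum fun i _ => ?_)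
      rw [abs_mul]
      exact mul_le_mul_of_nonneg_left (hM0b i) (abs_nonneg _)
    have h2 : |c'| ≤ |c| + |∑ i, l i * (2 * Real.pi * M0 i - k i)| := abs_sub _ _
    have := le_abs_self B
    linarith
  set t : ℤ := ⌊c' / (ε / 2)⌋ with ht
  have hε2 : 0 < ε / 2 := by positivity
  have ht1 : (t : ℝ) * (ε / 2) ≤ c' := by
    have := Int.floor_le (c' / (ε / 2))
    rwa [le_div_iff₀ hε2] at this
  have ht2 : c' < (t : ℝ) * (ε / 2) + ε / 2 := by
    have := Int.lt_floor_add_one (c' / (ε / 2))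
    rw [div_lt_iff₀ hε2, ← ht, add_mul, one_mul] at this
    exact this
  have htN : t ∈ Finset.Icc (-(N : ℤ)) N := by
    have hb : |c' / (ε / 2)| ≤ N := by
      rw [abs_div, abs_of_pos hε2]
      refine le_trans ?_ hN
      gcongr
    rw [abs_le] at hb
    rw [Finset.mem_Icc]
    constructor
    · apply Int.le_floor.2
      push_cast
      exact hb.1
    · have h1 : (t : ℝ) ≤ N := (Int.floor_le _).trans hb.2
      exact_mod_cast h1
  have hR0b : |2 * Real.pi * (p (t * (ε / 2)) : ℝ)| + |2 * Real.pi * (q (t * (ε / 2)) : ℝ)| ≤ R0 := by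
    rw [hR0]
    exact Finset.single_le_sum (f := fun t : ℤ => |2 * Real.pi * (p (t * (ε / 2)) : ℝ)| +
      |2 * Real.pi * (q (t * (ε / 2)) : ℝ)|) (fun _ _ => by positivity) htN
  set P' := p (t * (ε / 2)) with hP'
  set Q' := q (t * (ε / 2)) with hQ'
  have hij : i ≠ j := by
    rintro rfl
    rw [div_self hj] at hi
    exact hi ⟨1, by simp⟩
  refine ⟨fun s => M0 s + (if s = i then P' else 0) + (if s = j then Q' else 0), ?_, ?_⟩
  · intro s
    have h1 : 2 * Real.pi * ((M0 s + (if s = i then P' else 0) + (if s = j then Q' else 0) : ℤ) : ℝ) -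
        k s = (2 * Real.pi * M0 s - k s) + 2 * Real.pi * ((if s = i then P' else 0 : ℤ) : ℝ) +
        2 * Real.pi * ((if s = j then Q' else 0 : ℤ) : ℝ) := by
      push_cast; ring
    rw [h1]
    have h2 : |2 * Real.pi * ((if s = i then P' else 0 : ℤ) : ℝ)| ≤ |2 * Real.pi * (P' : ℝ)| := by
      split_ifs
      · exact le_rfl
      · simp
    have h3 : |2 * Real.pi * ((if s = j then Q' else 0 : ℤ) : ℝ)| ≤ |2 * Real.pi * (Q' : ℝ)| := by
      split_ifs
      · exact le_rfl
      · simp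
    refine (abs_add_three _ _ _).trans ?_
    have := hM0b s
    linarith
  · have h1 : ∑ s, l s * (2 * Real.pi *
        ((M0 s + (if s = i then P' else 0) + (if s = j then Q' else 0) : ℤ) : ℝ) - k s) =
        ∑ s, l s * (2 * Real.pi * M0 s - k s) + l i * (2 * Real.pi * P') +
          l j * (2 * Real.pi * Q') := by
      have h2 : ∀ s, l s * (2 * Real.pi *
          ((M0 s + (if s = i then P' else 0) + (if s = j then Q' else 0) : ℤ) : ℝ) - k s) =
          l s * (2 * Real.pi * M0 s - k s) + (if s = i then l i * (2 * Real.pi * P') else 0) +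
          (if s = j then l j * (2 * Real.pi * Q') else 0) := by
        intro s
        split_ifs with h3 h4 h4
        · exact absurd (h3.symm.trans h4) hij
        · rw [h3]; push_cast; ring
        · rw [h4]; push_cast; ring
        · push_cast; ring
      simp only [h2, Finset.sum_add_distrib, Finset.sum_ite_eq', Finset.mem_univ, if_true]
    rw [h1]
    have h2 := hpq (t * (ε / 2))
    rw [← hP', ← hQ'] at h2
    rw [abs_le] at h2 ⊢
    constructor <;> linarith

end Pool.Agent.Helper57.HT
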