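import Pool.Agent.Helper57.HT.Dir
import Pool.Agent.Helper57.HT.Rat

/-!
Project HT (helper57): directions of ends.
-/

set_option autoImplicit false

namespace Pool.Agent.Helper57.HT

open MvPolynomial Filter Topology Metric Pool.Agent.W996.EC Pool.Agent.Q72.EG
  Pool.Agent.Helper57.RA

variable {n : ℕ}

/-- an irreducible factor which is not invariant -/
theorem exists_factor {F : MvPolynomial (Fin n) ℂ} {a : Fin n → ℝ} (h : NI F a) :
    ∃ G, Irreducible G ∧ G ∣ F ∧ NI G a := by
  by_contra hcon
  push Not at hcon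
  have key : (∀ G, Irreducible G → G ∣ F → ¬ NI G a) → ¬ NI F a := by
    clear hcon h
    induction F using WfDvdMonoid.induction_on_irreducible with
    | zero =>
      rintro _ ⟨x, t, h⟩
      exact h (by rw [map_zero, map_zero])
    | unit u hu =>
      rintro _ ⟨x, t, h⟩
      obtain ⟨c, -, rfl⟩ := MvPolynomial.isUnit_iff_eq_C_of_isReduced.1 hu
      exact h (by rw [eval_C, eval_C])
    | mul p i hp hi ih =>
      rintro h1 ⟨x, t, h⟩
      apply h
      have h2 : ∀ x t, eval (fun l => x l + t * (a l : ℂ)) p = eval x p := by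
        intro x t
        by_contra h3
        exact ih (fun G hG hGp => h1 G hG (hGp.mul_left i)) ⟨x, t, h3⟩
      have h3 : ∀ x t, eval (fun l => x l + t * (a l : ℂ)) i = eval x i := by
        intro x t
        by_contra h3
        exact h1 i hi (dvd_mul_right _ _) ⟨x, t, h3⟩
      rw [map_mul, map_mul, h2, h3]
  exact key hcon h

variable {E : Type} [Field E] [Algebra ℂ E]

/-- a polynomial invariant in the directions of all ends -/
theorem mem_adjoin_of_inv {P : MvPolynomial (Fin n) ℂ} (hP : Irreducible P) {x y : Fin n → E}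
    (hx : ∀ g : MvPolynomial (Fin n) ℂ, aeval x g = 0 ↔ P ∣ g) (hy : ∀ l, y l ≠ 0)
    (htr : Tr1 x) {F : MvPolynomial (Fin n) ℂ}
    (hinv : ∀ G : Gen n E, G.P = P → G.x = x → G.y = y → ¬ NI F G.a) :
    F ∈ Algebra.adjoin ℂ {g | ∃ m : Fin n → ℤ, IsAlgebraic
      (IntermediateField.adjoin ℂ (Set.range x)) (∏ l, y l ^ m l) ∧ g = linm m} := by
  classical
  -- the rational directions of invariance
  set W : Submodule ℚ (Fin n → ℚ) :=
    { carrier := {q | ∀ (z : Fin n → ℂ) (t : ℂ), eval (fun l => z l + t * ((q l : ℚ) : ℂ)) F = eval z F}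
      add_mem' := by
        intro p q hp hq z t
        have h1 := hq (fun l => z l + t * ((p l : ℚ) : ℂ)) t
        rw [hp z t] at h1
        rw [← h1]
        congr 2
        funext l
        simp only [Pi.add_apply]
        push_cast
        ring
      zero_mem' := by
        intro z t
        congr 2
        funext l
        simp
      smul_mem' := by
        intro c q hq z t
        have h1 := hq z (t * (c : ℂ))
        rw [← h1]
        congr 2
        funext l
        simp only [Pi.smul_apply, smul_eq_mul]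
        push_cast
        ring } with hW
  have hWm : ∀ q : Fin n → ℚ, q ∈ W ↔ ∀ (z : Fin n → ℂ) (t : ℂ),
      eval (fun l => z l + t * ((q l : ℚ) : ℂ)) F = eval z F := fun q => Iff.rfl
  have hends : ∀ G : Gen n E, G.P = P → G.x = x → G.y = y →
      (fun l => (G.b l : ℚ) / G.N) ∈ W := by
    intro G h1 h2 h3
    rw [hWm]
    intro z t
    have h4 := hinv G h1 h2 h3
    by_contra h5
    apply h4
    refine ⟨z, t, ?_⟩
    rw [← Ne, ] at h5
    convert h5 using 5
    unfold Gen.a
    push_cast
    rfl
  -- the projection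
  obtain ⟨g, hg⟩ := LinearMap.exists_rightInverse_of_surjective W.mkQ (by
    rw [LinearMap.range_eq_top]; exact W.mkQ_surjective)
  set π : (Fin n → ℚ) →ₗ[ℚ] (Fin n → ℚ) := g ∘ₗ W.mkQ with hπ
  have hπ0 : ∀ q ∈ W, π q = 0 := by
    intro q hq
    have h1 : W.mkQ q = 0 := by
      rw [Submodule.mkQ_apply]
      exact (Submodule.Quotient.mk_eq_zero W).2 hq
    rw [hπ, LinearMap.comp_apply, h1, map_zero]
  have hπ1 : ∀ q, π q - q ∈ W := by
    intro q
    have h1 : W.mkQ (π q - q) = 0 := by
      rw [map_sub, hπ, LinearMap.comp_apply]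
      have := LinearMap.congr_fun hg (W.mkQ q)
      rw [LinearMap.comp_apply, LinearMap.id_apply] at this
      rw [this, sub_self]
    rw [Submodule.mkQ_apply] at h1
    exact (Submodule.Quotient.mk_eq_zero W).1 h1
  set w : Fin n → Fin n → ℚ := fun k => π (Pi.single k 1) - Pi.single k 1 with hw
  have hwW : ∀ k, w k ∈ W := fun k => hπ1 _
  set A : Fin n → Fin n → ℚ := fun k => π (Pi.single k 1) with hA
  have hinvA : ∀ z : Fin n → ℂ, eval (fun i => ∑ k, z k * ((A k i : ℚ) : ℂ)) F = eval z F := by
    intro z
    have h1 : ∀ s : Finset (Fin n), eval (fun i => z i + ∑ k ∈ s, z k * ((w k i : ℚ) : ℂ)) F =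
        eval z F := by
      intro s
      induction s using Finset.induction_on with
      | empty => simp
      | insert k s hk ih =>
        have h2 := (hWm _).1 (hwW k) (fun i => z i + ∑ k ∈ s, z k * ((w k i : ℚ) : ℂ)) (z k)
        rw [ih] at h2
        rw [← h2]
        congr 2
        funext i
        rw [Finset.sum_insert hk]
        ring
    rw [← h1 Finset.univ]
    congr 2
    funext i
    have h3 : ∀ k, z k * ((w k i : ℚ) : ℂ) = z k * ((A k i : ℚ) : ℂ) -
        (if k = i then z k else 0) := by
      intro k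
      simp only [hw, hA, Pi.sub_apply, Pi.single_apply]
      push_cast
      split_ifs with h4 h5 h5
      · ring
      · exact absurd h4.symm h5
      · exact absurd h5.symm h4
      · ring
    rw [Finset.sum_congr rfl fun k _ => h3 k, Finset.sum_sub_distrib, Finset.sum_ite_eq']
    simp
  -- integral rows
  choose D m hD hm using fun i => exists_den (fun k => A k i)
  have halg : ∀ i, IsAlgebraic (IntermediateField.adjoin ℂ (Set.range x)) (∏ l, y l ^ m i l) := by
    intro i
    by_contra h
    obtain ⟨G, h1, h2, h3, h4⟩ := all_ends n E P x y hP hx hy htr (m i) h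
    have h5 := hπ0 _ (hends G h1 h2 h3)
    have h6 : ∑ l, (m i l : ℚ) * ((G.b l : ℚ) / G.N) = 0 := by
      have h7 : π (fun l => (G.b l : ℚ) / G.N) i = ∑ k, ((G.b k : ℚ) / G.N) * A k i := by
        rw [LinearMap.pi_apply_eq_sum_univ π (fun l => (G.b l : ℚ) / G.N)]
        rw [Finset.sum_apply]
        refine Finset.sum_congr rfl fun k _ => ?_
        rw [Pi.smul_apply, smul_eq_mul]
        have h8 : (fun j => if k = j then (1 : ℚ) else 0) = Pi.single k 1 := by
          funext j
          simp [Pi.single_apply, eq_comm]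
        rw [h8]
      rw [h5, Pi.zero_apply] at h7
      have h8 : ∑ l, (m i l : ℚ) * ((G.b l : ℚ) / G.N) = D i * ∑ k, ((G.b k : ℚ) / G.N) * A k i := by
        rw [Finset.mul_sum]
        refine Finset.sum_congr rfl fun k _ => ?_
        rw [hm i k]
        ring
      rw [h8, ← h7, mul_zero]
    have h9 : ∑ l, (m i l : ℝ) * G.a l = 0 := by
      have := congrArg (fun q : ℚ => (q : ℝ)) h6
      unfold Gen.a
      push_cast at this
      exact this
    rw [h9] at h4
    exact lt_irrefl _ h4
  have hF : F = aeval (fun i => C ((D i : ℂ)⁻¹) * linm (m i)) F := by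
    apply MvPolynomial.funext
    intro z
    rw [← hinvA z, ← MvPolynomial.coe_aeval_eq_eval, ← MvPolynomial.coe_aeval_eq_eval]
    simp only [RingHom.coe_coe]
    rw [← AlgHom.comp_apply, MvPolynomial.comp_aeval]
    congr 2
    funext i
    rw [map_mul]
    simp only [MvPolynomial.aeval_eq_eval, eval_C, eval_linm, mu]
    have hDc : (D i : ℂ) ≠ 0 := by exact_mod_cast (hD i).ne'
    rw [inv_mul_eq_div, eq_div_iff hDc, Finset.sum_mul]
    refine Finset.sum_congr rfl fun k _ => ?_
    have := congrArg (fun q : ℚ => (q : ℂ)) (hm i k)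
    push_cast at this
    rw [this]
    ring
  rw [hF]
  have h10 : ∀ p : MvPolynomial (Fin n) ℂ, aeval (fun i => C ((D i : ℂ)⁻¹) * linm (m i)) p ∈
      Algebra.adjoin ℂ {g | ∃ m : Fin n → ℤ, IsAlgebraic
      (IntermediateField.adjoin ℂ (Set.range x)) (∏ l, y l ^ m l) ∧ g = linm m} := by
    intro p
    induction p using MvPolynomial.induction_on with
    | C c => rw [aeval_C]; exact algebraMap_mem _ _
    | add p q hp hq => rw [map_add]; exact add_mem hp hq
    | mul_X p i hp =>
      rw [map_mul, aeval_X]
      refine mul_mem hp (mul_mem (algebraMap_mem _ _) (Algebra.subset_adjoin ⟨m i, halg i, rfl⟩))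
  exact h10 F

end Pool.Agent.Helper57.HT
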