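import Pool.Agent.Helper57.HT.Ends

/-!
Project HT (helper57): transcendence from ends, ends on the other side, the case of a rational
linear factor.
-/

set_option autoImplicit false

namespace Pool.Agent.Helper57.HT

open MvPolynomial Filter Topology Metric Pool.Agent.W996.EC Pool.Agent.Q72.EG
  Pool.Agent.Helper57.RA

variable {n : ℕ} {E : Type} [Field E] [Algebra ℂ E]

/-- a monomial which is not a unit at an end is transcendental over `ℂ(x)` -/
theorem gen_trans (G : Gen n E) {m : Fin n → ℤ} (hm : ∑ l, (m l : ℝ) * G.a l ≠ 0) :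
    Transcendental (IntermediateField.adjoin ℂ (Set.range G.x)) (∏ l, G.y l ^ m l) := by
  have htriv : ∀ k ∈ IntermediateField.adjoin ℂ (Set.range G.x), k ≠ 0 → G.O.valuation k = 1 := by
    intro k hk hk0
    obtain ⟨r, hr, s, hs, rfl⟩ := IntermediateField.mem_adjoin_iff_div.mp hk
    rw [Algebra.adjoin_range_eq_range_aeval] at hr hs
    obtain ⟨p, rfl⟩ := hr
    obtain ⟨q, rfl⟩ := hs
    have hp : ¬ G.P ∣ p := by
      intro h
      apply hk0
      have := (G.hx p).2 h
      show (aeval G.x) p / (aeval G.x) q = 0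
      rw [this, zero_div]
    have hq : ¬ G.P ∣ q := by
      intro h
      apply hk0
      have := (G.hx q).2 h
      show (aeval G.x) p / (aeval G.x) q = 0
      rw [this, div_zero]
    show G.O.valuation ((aeval G.x) p / (aeval G.x) q) = 1
    rw [map_div₀, G.hO p hp, G.hO q hq, div_one]
  have : G.O.valuation.IsTrivialOn (IntermediateField.adjoin ℂ (Set.range G.x)) := by
    constructor
    intro a ha
    exact htriv a a.2 (by simpa using ha)
  have hf0 : ∏ l, G.y l ^ m l ≠ 0 :=
    Finset.prod_ne_zero_iff.mpr fun l _ => zpow_ne_zero _ (G.hy l)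
  refine Valuation.transcendental_of_ne_one (v := G.O.valuation) _ _ hf0 ?_
  intro h1
  have hY0 : G.y G.i0 ^ G.ε ≠ 0 := zpow_ne_zero _ (G.hy _)
  have hvY0 : G.O.valuation (G.y G.i0 ^ G.ε) ≠ 0 := (Valuation.ne_zero_iff _).mpr hY0
  have h2 : G.O.valuation (∏ l, G.y l ^ m l) ^ G.N =
      G.O.valuation (G.y G.i0 ^ G.ε) ^ (∑ l, m l * G.b l) := by
    rw [map_prod, ← Finset.prod_pow]
    have h3 : ∀ l, G.O.valuation (G.y l ^ m l) ^ G.N =
        G.O.valuation (G.y G.i0 ^ G.ε) ^ (m l * G.b l) := by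
      intro l
      have h4 := G.hb l
      rw [map_zpow₀, ← zpow_natCast, ← zpow_mul, mul_comm (m l) (G.N : ℤ), zpow_mul, zpow_natCast,
        h4, ← zpow_mul, mul_comm]
    rw [Finset.prod_congr rfl fun l _ => h3 l]
    have h4 : ∀ s : Finset (Fin n), ∏ l ∈ s, G.O.valuation (G.y G.i0 ^ G.ε) ^ (m l * G.b l) =
        G.O.valuation (G.y G.i0 ^ G.ε) ^ (∑ l ∈ s, m l * G.b l) := by
      intro s
      classical
      induction s using Finset.induction_on with
      | empty => simp
      | insert a s ha ih => rw [Finset.prod_insert ha, Finset.sum_insert ha, zpow_add₀ hvY0, ih]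
    exact h4 Finset.univ
  rw [h1, one_pow] at h2
  have h5 : (∑ l, m l * G.b l) = 0 := by
    have h6 : G.O.valuation (G.y G.i0 ^ G.ε) ^ (∑ l, m l * G.b l) =
        G.O.valuation (G.y G.i0 ^ G.ε) ^ (0 : ℤ) := by rw [← h2, zpow_zero]
    exact zpow_right_injective₀ (zero_lt_iff.mpr hvY0) G.hY.ne h6
  apply hm
  have h7 : ∑ l, (m l : ℝ) * G.a l = ((∑ l, m l * G.b l : ℤ) : ℝ) / G.N := by
    unfold Gen.a
    push_cast
    rw [Finset.sum_div]
    exact Finset.sum_congr rfl fun l _ => by ring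
  rw [h7, h5]
  simp

/-- the rational direction of an end -/
noncomputable def aq (G : Gen n E) : Fin n → ℚ := fun l => (G.b l : ℚ) / G.N

theorem aq_cast (G : Gen n E) (l : Fin n) : ((aq G l : ℚ) : ℝ) = G.a l := by
  unfold aq Gen.a
  push_cast
  rfl

/-- **an end on the other side** -/
theorem opposite {P : MvPolynomial (Fin n) ℂ} (hP : Irreducible P) {x y : Fin n → E}
    (hx : ∀ g : MvPolynomial (Fin n) ℂ, aeval x g = 0 ↔ P ∣ g) (hy : ∀ l, y l ≠ 0)
    (htr : Tr1 x) (G0 : Gen n E) (e1 : G0.P = P) (e2 : G0.x = x) (e3 : G0.y = y)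
    {l : Fin n → ℝ} (hl : ∑ i, l i * G0.a i ≠ 0) :
    ∃ G : Gen n E, G.P = P ∧ G.x = x ∧ G.y = y ∧
      (∑ i, l i * G0.a i) * (∑ i, l i * G.a i) < 0 := by
  classical
  have hfin := Pool.Agent.Q206.EG.fin Pool.Agent.Q206.EG.val n E P x y
  set S : Finset (Fin n → ℚ) := hfin.toFinset.image
    (fun a => if h : ∃ q : Fin n → ℚ, ∀ i, (q i : ℝ) = a i then h.choose else 0) with hS
  have hSm : ∀ G : Gen n E, G.P = P → G.x = x → G.y = y → ∃ q ∈ S, ∀ i, ((q i : ℚ) : ℝ) = G.a i := by
    intro G h1 h2 h3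
    have h4 : ∃ q : Fin n → ℚ, ∀ i, (q i : ℝ) = G.a i := ⟨aq G, aq_cast G⟩
    refine ⟨h4.choose, ?_, h4.choose_spec⟩
    rw [hS, Finset.mem_image]
    refine ⟨G.a, ?_, ?_⟩
    · rw [Set.Finite.mem_toFinset]
      exact ⟨G, h1, h2, h3, rfl⟩
    · rw [dif_pos h4]
  obtain ⟨m, hm1, hm2⟩ := exists_int_approx l S
  have key : ∀ G : Gen n E, G.P = P → G.x = x → G.y = y →
      (∑ i, l i * G.a i = 0 → ∑ i, (m i : ℝ) * G.a i = 0) ∧
      (∑ i, l i * G.a i ≠ 0 → 0 < (∑ i, l i * G.a i) * (∑ i, (m i : ℝ) * G.a i)) := by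
    intro G h1 h2 h3
    obtain ⟨q, hq, hqa⟩ := hSm G h1 h2 h3
    have h5 := hm1 q
    have h6 := hm2 q hq
    simp only [hqa] at h5 h6
    exact ⟨h5, h6⟩
  have h0 := (key G0 e1 e2 e3).2 hl
  have hη : Transcendental (IntermediateField.adjoin ℂ (Set.range x)) (∏ l, y l ^ m l) := by
    have := gen_trans G0 (m := m) (by
      intro h
      rw [h, mul_zero] at h0
      exact lt_irrefl _ h0)
    rw [e2, e3] at this
    exact this
  rcases lt_or_gt_of_ne hl with hneg | hpos
  · obtain ⟨G, h1, h2, h3, h4⟩ := all_ends n E P x y hP hx hy htr (fun l => - m l) (trans_neg hη)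
    have h4' : 0 < ∑ l, (m l : ℝ) * G.a l := by
      have : ∑ l, ((- m l : ℤ) : ℝ) * G.a l = - ∑ l, (m l : ℝ) * G.a l := by
        rw [← Finset.sum_neg_distrib]
        exact Finset.sum_congr rfl fun l _ => by push_cast; ring
      rw [this] at h4
      linarith
    refine ⟨G, h1, h2, h3, ?_⟩
    have h5 := key G h1 h2 h3
    have h6 : ∑ i, l i * G.a i ≠ 0 := fun h => h4'.ne' (h5.1 h)
    have h7 : 0 < ∑ i, l i * G.a i := by
      by_contra h
      have := h5.2 h6
      nlinarith [lt_of_le_of_ne (not_lt.1 h) h6]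
    exact mul_neg_of_neg_of_pos hneg h7
  · obtain ⟨G, h1, h2, h3, h4⟩ := all_ends n E P x y hP hx hy htr m hη
    refine ⟨G, h1, h2, h3, ?_⟩
    have h5 := key G h1 h2 h3
    have h6 : ∑ i, l i * G.a i ≠ 0 := fun h => h4.ne (h5.1 h)
    have h7 : ∑ i, l i * G.a i < 0 := by
      by_contra h
      have := h5.2 h6
      nlinarith [lt_of_le_of_ne (not_lt.1 h) h6.symm]
    exact mul_neg_of_pos_of_neg hpos h7

/-- divisibility by a linear form -/
theorem linm_dvd {m : Fin n → ℤ} {i0 : Fin n} (hm : m i0 ≠ 0) {F : MvPolynomial (Fin n) ℂ}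
    (h : ∀ u, mu m u = 0 → eval u F = 0) : linm m ∣ F := by
  classical
  set v : Fin n → ℂ := fun i => if i = i0 then ((m i0 : ℂ))⁻¹ else 0 with hv
  have hmc : (m i0 : ℂ) ≠ 0 := by exact_mod_cast hm
  have key : ∀ p : MvPolynomial (Fin n) ℂ,
      linm m ∣ p - aeval (fun l => X l - linm m * C (v l)) p := by
    intro p
    induction p using MvPolynomial.induction_on with
    | C c =>
      rw [aeval_C]
      exact ⟨0, by simp [MvPolynomial.algebraMap_eq]⟩
    | add p q hp hq =>
      rw [map_add]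
      have := dvd_add hp hq
      convert this using 1
      ring
    | mul_X p i hp =>
      rw [map_mul, aeval_X]
      obtain ⟨g, hg⟩ := hp
      refine ⟨g * X i + aeval (fun l => X l - linm m * C (v l)) p * C (v i), ?_⟩
      linear_combination (X i) * hg
  have h0 : aeval (fun l => X l - linm m * C (v l)) F = 0 := by
    apply MvPolynomial.funext
    intro u
    have h1 : eval u (aeval (fun l => X l - linm m * C (v l)) F) =
        eval (fun l => u l - mu m u * v l) F := by
      rw [← MvPolynomial.coe_aeval_eq_eval, ← MvPolynomial.coe_aeval_eq_eval]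
      simp only [RingHom.coe_coe]
      rw [← AlgHom.comp_apply, MvPolynomial.comp_aeval]
      congr 2
      funext i
      simp [MvPolynomial.aeval_eq_eval]
    rw [h1, map_zero]
    apply h
    unfold mu
    have h2 : ∀ l, (m l : ℂ) * (u l - (∑ l, (m l : ℂ) * u l) * v l) = (m l : ℂ) * u l -
        (∑ l, (m l : ℂ) * u l) * (if l = i0 then 1 else 0) := by
      intro l
      simp only [hv]
      split_ifs with h3
      · subst h3
        field_simp
      · ring
    rw [Finset.sum_congr rfl fun l _ => h2 l, Finset.sum_sub_distrib, ← Finset.mul_sum]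
    simp
  have := key F
  rwa [h0, sub_zero] at this

/-- the vector `m_i e_j - m_j e_i` -/
noncomputable def wv (m : Fin n → ℤ) (i j : Fin n) : Fin n → ℝ :=
  fun k => (m i : ℝ) * (if k = j then 1 else 0) - (m j : ℝ) * (if k = i then 1 else 0)

theorem eval_Dk (κ : Fin n → ℂ) (a : Fin n → ℝ) (G : MvPolynomial (Fin n) ℂ) :
    eval κ (Dk a G) = ∑ i, (a i : ℂ) * eval κ (pderiv i G) := by
  unfold Dk
  rw [map_sum]
  exact Finset.sum_congr rfl fun i _ => by rw [map_mul, eval_C]

theorem eval_Dk_wv (κ : Fin n → ℂ) (m : Fin n → ℤ) (i j : Fin n) (G : MvPolynomial (Fin n) ℂ) :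
    eval κ (Dk (wv m i j) G) =
      (m i : ℂ) * eval κ (pderiv j G) - (m j : ℂ) * eval κ (pderiv i G) := by
  classical
  rw [eval_Dk]
  have h1 : ∀ k, ((wv m i j k : ℝ) : ℂ) * eval κ (pderiv k G) =
      (m i : ℂ) * (if k = j then eval κ (pderiv k G) else 0) -
      (m j : ℂ) * (if k = i then eval κ (pderiv k G) else 0) := by
    intro k
    unfold wv
    split_ifs <;> push_cast <;> ring
  rw [Finset.sum_congr rfl fun k _ => h1 k, Finset.sum_sub_distrib, ← Finset.mul_sum,
    ← Finset.mul_sum, Finset.sum_ite_eq', Finset.sum_ite_eq']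
  simp

theorem ndvd_Dk {G : MvPolynomial (Fin n) ℂ} {a : Fin n → ℝ} (h0 : Dk a G ≠ 0) : ¬ G ∣ Dk a G := by
  rintro ⟨S, hS⟩
  have hP : G ≠ 0 := by rintro rfl; rw [zero_mul] at hS; exact h0 hS
  have hS0 : S ≠ 0 := by rintro rfl; rw [mul_zero] at hS; exact h0 hS
  have h1 : G.totalDegree ≠ 0 := fun h1 => h0 (Pool.Agent.W565.EC.Dk_of_td_zero a G h1)
  have h2 := Pool.Agent.W565.EC.td_Dk a G (G.totalDegree - 1) (by omega)
  rw [hS, totalDegree_mul_of_isDomain hP hS0] at h2
  omega

/-- invariance under the orthogonal space of `m` -/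
theorem inv_of_wv {G : MvPolynomial (Fin n) ℂ} {m : Fin n → ℤ} {i0 : Fin n} (hm : m i0 ≠ 0)
    (h : ∀ j, Dk (wv m i0 j) G = 0) {u : Fin n → ℂ} (hu : mu m u = 0) (z : Fin n → ℂ) :
    eval (fun i => z i + u i) G = eval z G := by
  classical
  have hmc : (m i0 : ℂ) ≠ 0 := by exact_mod_cast hm
  have h1 : ∀ s : Finset (Fin n), eval (fun i => z i + ∑ j ∈ s, ((wv m i0 j i : ℝ) : ℂ) *
      (u j / m i0)) G = eval z G := by
    intro s
    induction s using Finset.induction_on with
    | empty => simp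
    | insert k s hk ih =>
      have h2 := Pool.Agent.W721.EC.inv_of_Dk (h k)
        (fun i => z i + ∑ j ∈ s, ((wv m i0 j i : ℝ) : ℂ) * (u j / m i0)) (u k / m i0)
      rw [ih] at h2
      rw [← h2]
      congr 2
      funext i
      rw [Finset.sum_insert hk]
      ring
  rw [← h1 Finset.univ]
  congr 2
  funext i
  have h2 : ∀ j, ((wv m i0 j i : ℝ) : ℂ) * (u j / m i0) = (if i = j then u j else 0) -
      (if i = i0 then 1 else 0) * ((m j : ℂ) * u j / m i0) := by
    intro j
    unfold wv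
    split_ifs <;> push_cast <;> field_simp <;> ring
  rw [Finset.sum_congr rfl fun j _ => h2 j, Finset.sum_sub_distrib, ← Finset.mul_sum,
    Finset.sum_ite_eq, ← Finset.sum_div]
  unfold mu at hu
  rw [hu]
  simp

/-- the case of a rational linear factor -/
theorem rational_case {P : MvPolynomial (Fin n) ℂ} (hP : Irreducible P) {x y : Fin n → E}
    (hx : ∀ g : MvPolynomial (Fin n) ℂ, aeval x g = 0 ↔ P ∣ g) (hy : ∀ l, y l ≠ 0)
    (htr : Tr1 x) (hnc : ∀ (m : Fin n → ℤ) (c : ℂ), m ≠ 0 → ¬ P ∣ linm m - C c)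
    (G0 : Gen n E) (e2 : G0.x = x) (e3 : G0.y = y)
    {G : MvPolynomial (Fin n) ℂ}
    (hGF : G ∣ homogeneousComponent P.totalDegree P) (hinv : NI G G0.a)
    {z : Fin n → ℂ} (hz : eval z G = 0) {m : Fin n → ℤ} (hm0 : m ≠ 0)
    (hW : ∀ i j, Dk (wv m i j) G = 0)
    {H : MvPolynomial (Fin n ⊕ Fin n) ℂ} (hH : aeval (Sum.elim x y) H ≠ 0) :
    ∃ z : Fin n → ℂ, Sum.elim z (fun l => Complex.exp (z l)) ∈ Pt (Sum.elim x y) ∧
      eval (Sum.elim z (fun l => Complex.exp (z l))) H ≠ 0 := by
  obtain ⟨i0, hi0⟩ : ∃ i, m i ≠ 0 := by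
    by_contra h
    push Not at h
    exact hm0 (funext h)
  have hma : ∑ l, (m l : ℝ) * G0.a l ≠ 0 := by
    intro h
    obtain ⟨u, t, hut⟩ := hinv
    apply hut
    refine inv_of_wv hi0 (hW i0) ?_ u
    unfold mu
    have h1 : ∑ l, (m l : ℂ) * (t * (G0.a l : ℂ)) = t * ((∑ l, (m l : ℝ) * G0.a l : ℝ) : ℂ) := by
      push_cast
      rw [Finset.mul_sum]
      exact Finset.sum_congr rfl fun l _ => by ring
    rw [h1, h]
    simp
  have hη : Transcendental (IntermediateField.adjoin ℂ (Set.range x)) (∏ l, y l ^ m l) := by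
    have := gen_trans G0 hma
    rw [e2, e3] at this
    exact this
  obtain ⟨F, hF⟩ : ∃ F, F = homogeneousComponent P.totalDegree P := ⟨_, rfl⟩
  have hF0 : F ≠ 0 := by rw [hF]; exact Pool.Agent.Q98.EG.homog_ne_zero hP.ne_zero
  have hhom : F.IsHomogeneous P.totalDegree := by
    rw [hF]
    exact homogeneousComponent_isHomogeneous _ _
  rw [← hF] at hGF
  have hzero : ∀ u, mu m u = mu m z → eval u F = 0 := by
    intro u hu
    obtain ⟨S, hS⟩ := hGF
    have h1 := inv_of_wv hi0 (hW i0) (u := fun i => u i - z i) (by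
      unfold mu at hu ⊢
      simp only [mul_sub, Finset.sum_sub_distrib]
      rw [hu, sub_self]) z
    have h2 : (fun i => z i + (u i - z i)) = u := by funext i; ring
    rw [h2, hz] at h1
    rw [hS, map_mul, h1, zero_mul]
  have hmz : mu m z = 0 := by
    by_contra hmz
    have h1 : F * linm m = 0 := by
      apply MvPolynomial.funext
      intro u
      rw [map_mul, map_zero, eval_linm]
      by_cases hu : mu m u = 0
      · rw [hu, mul_zero]
      · have h2 := hzero (fun i => (mu m z / mu m u) * u i) (by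
          unfold mu at hu hmz ⊢
          have : ∀ l, (m l : ℂ) * ((∑ l, (m l : ℂ) * z l) / (∑ l, (m l : ℂ) * u l) * u l) =
            ((∑ l, (m l : ℂ) * z l) / (∑ l, (m l : ℂ) * u l)) * ((m l : ℂ) * u l) := fun l => by ring
          rw [Finset.sum_congr rfl fun l _ => this l, ← Finset.mul_sum]
          field_simp)
        rw [Pool.Agent.Q151.EG.eval_smul_hom hhom] at h2
        rcases mul_eq_zero.1 h2 with h3 | h3
        · exact absurd h3 (pow_ne_zero _ (div_ne_zero hmz hu))
        · rw [h3, zero_mul]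
    rcases mul_eq_zero.1 h1 with h2 | h2
    · exact hF0 h2
    · have h3 := congrArg (eval z) h2
      rw [eval_linm, map_zero] at h3
      exact hmz h3
  have hlead : linm m ∣ homogeneousComponent P.totalDegree P := by
    rw [← hF]
    exact linm_dvd hi0 fun u hu => hzero u (by rw [hu, hmz])
  exact flat_core' hP hx hy htr hm0 hη hlead (fun c => hnc m c hm0) hH

end Pool.Agent.Helper57.HT
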