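import Pool.Agent.Helper57.RA.Solve
import Pool.Graph.R_pool_sql_team_seeded_3997aac3.Q206.EG.Slope
import Pool.Graph.R_pool_sql_team_seeded_3997aac3.Q206.EG.AlgPoly

/-!
Project HT (helper57): the directions of the ends, seen at all points over generic points.
-/

set_option autoImplicit false

namespace Pool.Agent.Helper57.HT

open MvPolynomial Filter Topology Metric Pool.Agent.W996.EC Pool.Agent.Q72.EG

variable {n : ℕ} {E : Type} [Field E] [Algebra ℂ E]

theorem ndvd_of_aeval {P : MvPolynomial (Fin n) ℂ} {x : Fin n → E}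
    (hx : ∀ g : MvPolynomial (Fin n) ℂ, aeval x g = 0 ↔ P ∣ g) {η : E}
    {g : MvPolynomial (Option (Fin n)) ℂ} (hg : aeval (oe η x) g ≠ 0) : ∃ j, ¬ P ∣ cf g j := by
  by_contra h
  push Not at h
  apply hg
  rw [aeval_oe_sum]
  refine Finset.sum_eq_zero fun j _ => ?_
  rw [(hx _).2 (h j), zero_mul]

/-- the data of one coordinate -/
theorem far_one {P : MvPolynomial (Fin n) ℂ} (hP : Irreducible P) {x y : Fin n → E}
    (hx : ∀ g : MvPolynomial (Fin n) ℂ, aeval x g = 0 ↔ P ∣ g) (hy : ∀ l, y l ≠ 0) (htr : Tr1 x)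
    (i0 : Fin n) : ∃ (S : Finset (Fin n → ℚ)) (R : MvPolynomial (Fin n) ℂ), ¬ P ∣ R ∧
      ∀ R', R ∣ R' → ∀ D : ℕ, ∃ C : ℝ, 0 ≤ C ∧ ∀ T : ℝ, 2 ≤ T → ∀ z : Fin n ⊕ Fin n → ℂ,
        z ∈ Pt (Sum.elim x y) → (∀ i, z (Sum.inr i) ≠ 0) → (∀ i, ‖z (Sum.inl i)‖ ≤ T ^ D) →
        1 ≤ T ^ D * ‖eval (fun i => z (Sum.inl i)) R'‖ →
        |Real.log ‖z (Sum.inr i0)‖| ≤ C * Real.log T ∨ ∃ σ ∈ S, ∀ i,
          |Real.log ‖z (Sum.inr i)‖ - (σ i : ℝ) * Real.log ‖z (Sum.inr i0)‖| ≤
            C * Real.log T := by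
  classical
  have hP0 : ∀ z : Fin n ⊕ Fin n → ℂ, z ∈ Pt (Sum.elim x y) →
      eval (fun i => z (Sum.inl i)) P = 0 := by
    intro z hz
    have h1 := hz (rename Sum.inl P) (by
      rw [aeval_rename]
      exact (hx P).2 dvd_rfl)
    rwa [eval_rename] at h1
  by_cases hal : IsAlgebraic (IntermediateField.adjoin ℂ (Set.range x)) (y i0)
  · obtain ⟨A, ⟨b0, hb0⟩, hA⟩ := Pool.Agent.Q206.EG.alg_poly x (y i0) hal
    set F : Finset ℕ := (Finset.range (A.natDegree + 1)).filter (fun b => ¬ P ∣ A.coeff b) with hF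
    have hFmem : ∀ b, b ∈ F ↔ ¬ P ∣ A.coeff b := by
      intro b
      rw [hF, Finset.mem_filter, Finset.mem_range]
      refine ⟨fun h => h.2, fun h => ⟨?_, h⟩⟩
      by_contra hcon
      apply h
      rw [Polynomial.coeff_eq_zero_of_natDegree_lt (by omega)]
      exact dvd_zero _
    have hFne : F.Nonempty := ⟨b0, (hFmem b0).2 fun h => hb0 ((hx _).2 h)⟩
    have hnd : ¬ P ∣ ∏ b ∈ F, A.coeff b := Pool.Agent.Q206.EG.prod_not_dvd hP F _
      fun b hb => (hFmem b).1 hb
    refine ⟨∅, ∏ b ∈ F, A.coeff b, hnd, ?_⟩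
    intro R' hR' D
    obtain ⟨D1, hD1, htwo⟩ := Pool.Agent.Q206.EG.two F (fun b => A.coeff b) R'
      (fun e he => (Finset.dvd_prod_of_mem _ he).trans hR') D
    obtain ⟨s, hs, hc⟩ := Pool.Agent.Q206.EG.const_le (F.card : ℝ)
    refine ⟨2 * D1 + s, by positivity, fun T hT z hz hzy hzx hzR => Or.inl ?_⟩
    have hT0 : (0 : ℝ) < T := by linarith
    have hT1 : (1 : ℝ) < T := by linarith
    have hlT : 0 < Real.log T := Real.log_pos hT1
    have hxn : ‖(fun i => z (Sum.inl i) : Fin n → ℂ)‖ ≤ T ^ (D : ℝ) := by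
      rw [Real.rpow_natCast, pi_norm_le_iff_of_nonneg (by positivity)]
      exact hzx
    have hRn : T ^ (-(D : ℝ)) ≤ ‖eval (fun i => z (Sum.inl i)) R'‖ := by
      rw [Real.rpow_neg hT0.le, Real.rpow_natCast, inv_le_iff_one_le_mul₀ (by positivity)]
      linarith [mul_comm (T ^ D) ‖eval (fun i => z (Sum.inl i)) R'‖]
    have htw := htwo T hT _ hxn hRn
    have hrel := hz (∑ b ∈ Finset.range (A.natDegree + 1),
        rename Sum.inl (A.coeff b) * X (Sum.inr i0) ^ b) (by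
      rw [map_sum]
      simp only [map_mul, aeval_rename, map_pow, aeval_X, Sum.elim_inr]
      rw [Polynomial.eval_map, Polynomial.eval₂_eq_sum_range] at hA
      exact hA)
    rw [map_sum] at hrel
    simp only [map_mul, eval_rename, map_pow, eval_X] at hrel
    have hrel2 : ∑ b ∈ F, eval (fun i => z (Sum.inl i)) (A.coeff b) * z (Sum.inr i0) ^ b = 0 := by
      rw [hF, Finset.sum_filter_of_ne]
      · exact hrel
      · intro b _ hne hd
        apply hne
        rw [Pool.Agent.Q206.EG.eval_zero_of_dvd hd (hP0 z hz), zero_mul]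
    have hZ := hzy i0
    have hZn : ‖z (Sum.inr i0)‖ ≠ 0 := norm_ne_zero_iff.2 hZ
    have hcne : ∀ b ∈ F, eval (fun i => z (Sum.inl i)) (A.coeff b) ≠ 0 := fun b hb =>
      norm_pos_iff.1 ((Real.rpow_pos_of_pos hT0 _).trans_le (htw b hb).1)
    have hne0 : ∀ b ∈ F, eval (fun i => z (Sum.inl i)) (A.coeff b) * z (Sum.inr i0) ^ b ≠ 0 :=
      fun b hb => mul_ne_zero (hcne b hb) (pow_ne_zero _ hZ)
    obtain ⟨e, he, e', he', hne, hle1, hle2⟩ := Pool.Agent.Q206.EG.two_terms F hFne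
      (fun b => eval (fun i => z (Sum.inl i)) (A.coeff b) * z (Sum.inr i0) ^ b) hrel2 hne0
    have hlog : ∀ b ∈ F, Real.log ‖eval (fun i => z (Sum.inl i)) (A.coeff b) * z (Sum.inr i0) ^ b‖ =
        Real.log ‖eval (fun i => z (Sum.inl i)) (A.coeff b)‖ + b * Real.log ‖z (Sum.inr i0)‖ := by
      intro b hb
      rw [norm_mul, norm_pow, Real.log_mul (norm_ne_zero_iff.2 (hcne b hb)) (pow_ne_zero _ hZn),
        Real.log_pow]
    have hpos' := norm_pos_iff.2 (hne0 e' he')
    have hpos := norm_pos_iff.2 (hne0 e he)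
    have l1 := Real.log_le_log hpos' hle1
    have l2 := Real.log_le_log hpos hle2
    have hcardpos : (0 : ℝ) < F.card := by exact_mod_cast hFne.card_pos
    rw [Real.log_mul hcardpos.ne' hpos'.ne'] at l2
    have l3 : Real.log F.card ≤ s * Real.log T := by
      have := Real.log_le_log hcardpos (hc T hT)
      rwa [Real.log_rpow hT0] at this
    rw [hlog e he, hlog e' he'] at l1 l2
    have c1 := abs_le.1 (Pool.Agent.Q206.EG.abs_log_le hT0 (htw e he).1 (htw e he).2)
    have c2 := abs_le.1 (Pool.Agent.Q206.EG.abs_log_le hT0 (htw e' he').1 (htw e' he').2)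
    generalize Real.log ‖z (Sum.inr i0)‖ = lz at *
    have key : |((e : ℝ) - e') * lz| ≤ (2 * D1 + s) * Real.log T := by
      rw [abs_le]
      constructor
      · nlinarith
      · nlinarith
    have hb1 : 1 ≤ |(e : ℝ) - e'| := by
      have : (1 : ℤ) ≤ |(e : ℤ) - e'| := by
        apply Int.one_le_abs
        omega
      exact_mod_cast this
    rw [abs_mul] at key
    have := abs_nonneg lz
    nlinarith
  · -- the transcendental case
    have hal' : Transcendental (IntermediateField.adjoin ℂ (Set.range x)) (y i0) := hal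
    set ζ : Option (Fin n) → E := oe (y i0) x with hζ
    have hrange : Set.range ζ = insert (y i0) (Set.range x) := by
      ext w
      constructor
      · rintro ⟨o, rfl⟩
        rcases o with _ | l
        · exact Or.inl rfl
        · exact Or.inr ⟨l, rfl⟩
      · rintro (rfl | ⟨l, rfl⟩)
        · exact ⟨none, rfl⟩
        · exact ⟨some l, rfl⟩
    have hall : ∀ i, IsAlgebraic (IntermediateField.adjoin ℂ (Set.range ζ)) (y i) := by
      intro i
      rw [hrange]
      exact htr (y i0) (y i) hal'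
    choose A hA1 hA2 using fun i => Pool.Agent.Q206.EG.alg_poly ζ (y i) (hall i)
    choose F hF1 hF2 using fun i => Pool.Agent.Q206.EG.exists_F P (A i)
    have hFne : ∀ i, (F i).Nonempty := by
      intro i
      obtain ⟨b, hb⟩ := hA1 i
      obtain ⟨j, hj⟩ := ndvd_of_aeval hx hb
      exact ⟨(b, j), (hF1 i (b, j)).2 hj⟩
    set g : Fin n → ℕ × ℕ → MvPolynomial (Fin n) ℂ := fun i e => cf ((A i).coeff e.1) e.2 with hg
    have hnd : ¬ P ∣ ∏ i, ∏ e ∈ F i, g i e := Pool.Agent.Q206.EG.prod_not_dvd hP Finset.univ _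
      fun i _ => Pool.Agent.Q206.EG.prod_not_dvd hP (F i) _ fun e he => (hF1 i e).1 he
    set S : Finset (Fin n → ℚ) := Fintype.piFinset fun i => (F i ×ˢ F i).image
      (fun p => -(((p.1.2 : ℚ) - p.2.2) / ((p.1.1 : ℚ) - p.2.1))) with hS
    refine ⟨S, ∏ i, ∏ e ∈ F i, g i e, hnd, ?_⟩
    intro R' hR' D
    have htwo' : ∀ i, ∃ D1 : ℝ, 0 ≤ D1 ∧ ∀ T : ℝ, 2 ≤ T →
      ∀ x : Fin n → ℂ, ‖x‖ ≤ T ^ (D : ℝ) → T ^ (-(D : ℝ)) ≤ ‖eval x R'‖ → ∀ e ∈ F i,
        T ^ (-D1) ≤ ‖eval x (g i e)‖ ∧ ‖eval x (g i e)‖ ≤ T ^ D1 := fun i =>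
      Pool.Agent.Q206.EG.two (F i) (g i) R'
        (fun e he => ((Finset.dvd_prod_of_mem _ he).trans
          (Finset.dvd_prod_of_mem (fun i => ∏ e ∈ F i, g i e) (Finset.mem_univ i))).trans hR') D
    choose D1 hD1 htwo using htwo'
    choose s hs hc using fun i => Pool.Agent.Q206.EG.const_le ((F i).card : ℝ)
    set C : ℝ := ∑ i, (2 * D1 i + s i) with hC
    have hCi : ∀ i, 2 * D1 i + s i ≤ C := fun i =>
      Finset.single_le_sum (f := fun i => 2 * D1 i + s i)
        (fun i _ => by have := hD1 i; have := hs i; positivity) (Finset.mem_univ i)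
    have hC0 : 0 ≤ C := Finset.sum_nonneg fun i _ => by have := hD1 i; have := hs i; positivity
    refine ⟨C, hC0, fun T hT z hz hzy hzx hzR => ?_⟩
    have hT0 : (0 : ℝ) < T := by linarith
    have hT1 : (1 : ℝ) < T := by linarith
    have hlT : 0 < Real.log T := Real.log_pos hT1
    by_cases hbig : |Real.log ‖z (Sum.inr i0)‖| ≤ C * Real.log T
    · exact Or.inl hbig
    push Not at hbig
    right
    have hxn : ‖(fun i => z (Sum.inl i) : Fin n → ℂ)‖ ≤ T ^ (D : ℝ) := by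
      rw [Real.rpow_natCast, pi_norm_le_iff_of_nonneg (by positivity)]
      exact hzx
    have hRn : T ^ (-(D : ℝ)) ≤ ‖eval (fun i => z (Sum.inl i)) R'‖ := by
      rw [Real.rpow_neg hT0.le, Real.rpow_natCast, inv_le_iff_one_le_mul₀ (by positivity)]
      linarith [mul_comm (T ^ D) ‖eval (fun i => z (Sum.inl i)) R'‖]
    have hrel : ∀ i, ∑ e ∈ F i, eval (fun i => z (Sum.inl i)) (g i e) *
        z (Sum.inr i0) ^ e.2 * z (Sum.inr i) ^ e.1 = 0 := by
      intro i
      have h1 := hz (∑ e ∈ F i, rename Sum.inl (g i e) * X (Sum.inr i0) ^ e.2 *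
          X (Sum.inr i) ^ e.1) (by
        rw [map_sum]
        simp only [map_mul, aeval_rename, map_pow, aeval_X, Sum.elim_inr]
        have h2 := hF2 i E x (y i0) (y i) (fun g hg => (hx g).2 hg)
        rw [← hζ, hA2 i] at h2
        rw [← h2.symm.symm.symm]
        rfl)
      rw [map_sum] at h1
      simp only [map_mul, eval_rename, map_pow, eval_X] at h1
      exact h1
    have hσ : ∀ i, ∃ e ∈ F i, ∃ e' ∈ F i, |Real.log ‖z (Sum.inr i)‖ -
        -(((e.2 : ℝ) - e'.2) / ((e.1 : ℝ) - e'.1)) * Real.log ‖z (Sum.inr i0)‖| ≤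
        C * Real.log T := by
      intro i
      have hcardpos : (0 : ℝ) < (F i).card := by exact_mod_cast (hFne i).card_pos
      have l3 : Real.log (F i).card ≤ s i * Real.log T := by
        have := Real.log_le_log hcardpos (hc i T hT)
        rwa [Real.log_rpow hT0] at this
      have hle : 2 * (D1 i * Real.log T) + s i * Real.log T ≤ C * Real.log T := by
        have := mul_le_mul_of_nonneg_right (hCi i) hlT.le
        linarith
      obtain ⟨e, he, e', he', h⟩ := Pool.Agent.Q206.EG.slope_core (F i) (hFne i)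
        (fun e => eval (fun i => z (Sum.inl i)) (g i e)) (z (Sum.inr i0)) (z (Sum.inr i))
        (hzy i0) (hzy i) (hrel i) (D1 i * Real.log T) (s i * Real.log T) (fun e he => by
          have := htwo i T hT _ hxn hRn e he
          exact ⟨norm_pos_iff.1 ((Real.rpow_pos_of_pos hT0 _).trans_le this.1),
            Pool.Agent.Q206.EG.abs_log_le hT0 this.1 this.2⟩) l3 (by linarith)
      exact ⟨e, he, e', he', h.trans hle⟩
    choose e he e' he' h using hσ
    refine ⟨fun i => -((((e i).2 : ℚ) - (e' i).2) / (((e i).1 : ℚ) - (e' i).1)), ?_, fun i => ?_⟩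
    · rw [hS, Fintype.mem_piFinset]
      intro i
      rw [Finset.mem_image]
      exact ⟨(e i, e' i), Finset.mem_product.2 ⟨he i, he' i⟩, rfl⟩
    · have := h i
      push_cast
      exact this

/-- **the directions of all points far away** -/
theorem far {P : MvPolynomial (Fin n) ℂ} (hP : Irreducible P) {x y : Fin n → E}
    (hx : ∀ g : MvPolynomial (Fin n) ℂ, aeval x g = 0 ↔ P ∣ g) (hy : ∀ l, y l ≠ 0) (htr : Tr1 x) :
    ∃ (S : Finset (Fin n → ℚ)) (R : MvPolynomial (Fin n) ℂ), ¬ P ∣ R ∧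
      ∀ R', R ∣ R' → ∀ D : ℕ, ∃ C : ℝ, 0 ≤ C ∧ ∀ T : ℝ, 2 ≤ T → ∀ z : Fin n ⊕ Fin n → ℂ,
        z ∈ Pt (Sum.elim x y) → (∀ i, z (Sum.inr i) ≠ 0) → (∀ i, ‖z (Sum.inl i)‖ ≤ T ^ D) →
        1 ≤ T ^ D * ‖eval (fun i => z (Sum.inl i)) R'‖ →
        (∀ i, |Real.log ‖z (Sum.inr i)‖| ≤ C * Real.log T) ∨ ∃ σ ∈ S, ∃ lam : ℝ, ∀ i,
          |Real.log ‖z (Sum.inr i)‖ - (σ i : ℝ) * lam| ≤ C * Real.log T := by
  classical
  choose S R hR h using far_one hP hx hy htr
  refine ⟨Finset.univ.biUnion S, ∏ i, R i,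
    Pool.Agent.Q206.EG.prod_not_dvd hP Finset.univ _ fun i _ => hR i, fun R' hR' D => ?_⟩
  choose C hC hCC using fun i => h i R'
    ((Finset.dvd_prod_of_mem R (Finset.mem_univ i)).trans hR') D
  have hCi : ∀ i, C i ≤ ∑ i, C i := fun i =>
    Finset.single_le_sum (fun i _ => hC i) (Finset.mem_univ i)
  refine ⟨∑ i, C i, Finset.sum_nonneg fun i _ => hC i, fun T hT z hz hzy hzx hzR => ?_⟩
  have hlT : 0 < Real.log T := Real.log_pos (by linarith)
  by_cases hall : ∀ i, |Real.log ‖z (Sum.inr i)‖| ≤ (∑ i, C i) * Real.log T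
  · exact Or.inl hall
  push Not at hall
  obtain ⟨i0, hi0⟩ := hall
  right
  rcases hCC i0 T hT z hz hzy hzx hzR with h1 | ⟨σ, hσ, h1⟩
  · exfalso
    have := mul_le_mul_of_nonneg_right (hCi i0) hlT.le
    linarith
  · refine ⟨σ, Finset.mem_biUnion.2 ⟨i0, Finset.mem_univ _, hσ⟩, _, fun i => (h1 i).trans ?_⟩
    exact mul_le_mul_of_nonneg_right (hCi i0) hlT.le

end Pool.Agent.Helper57.HT
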