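import Pool.Graph.R_pool_sql_team_seeded_3997aac3.Q206.EG.Slope

/-!
Project HT (helper57): limits along ultrafilters; limits of logarithms of algebraic functions are not
in the kernel of an irrational linear form.
-/

set_option autoImplicit false

namespace Pool.Agent.Helper57.HT

open Filter Topology Metric

/-- limits of bounded functions along ultrafilters -/
theorem ulim {ι E : Type} [NormedAddCommGroup E] [ProperSpace E] (U : Ultrafilter ι) {f : ι → E}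
    {C : ℝ} (h : ∀ᶠ i in (U : Filter ι), ‖f i‖ ≤ C) : ∃ a, Tendsto f U (𝓝 a) := by
  obtain ⟨a, -, ha⟩ := (isCompact_closedBall (0 : E) C).ultrafilter_le_nhds (U.map f) (by
    rw [le_principal_iff, Ultrafilter.coe_map, mem_map]
    filter_upwards [h] with i hi
    rw [Set.mem_preimage, mem_closedBall_zero_iff]
    exact hi)
  exact ⟨a, ha⟩

/-- pointwise limits of uniformly Lipschitz functions are locally uniform -/
theorem tluo {ι E : Type} [NormedAddCommGroup E] {φ : Filter ι} [φ.NeBot] {S : Set ℂ} {K : ℝ}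
    (hK : 0 < K) {F : ι → ℂ → E} {Λ : ℂ → E}
    (hF : ∀ᶠ i in φ, ∀ s ∈ S, ∀ t ∈ S, ‖F i s - F i t‖ ≤ K * ‖s - t‖)
    (hΛ : ∀ s ∈ S, Tendsto (fun i => F i s) φ (𝓝 (Λ s))) :
    TendstoLocallyUniformlyOn F Λ φ S := by
  have hΛL : ∀ s ∈ S, ∀ t ∈ S, ‖Λ s - Λ t‖ ≤ K * ‖s - t‖ := by
    intro s hs t ht
    refine le_of_tendsto ((hΛ s hs).sub (hΛ t ht)).norm ?_
    filter_upwards [hF] with i hi using hi s hs t ht
  rw [Metric.tendstoLocallyUniformlyOn_iff]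
  intro ε hε x hx
  refine ⟨ball x (ε / (4 * K)) ∩ S, ?_, ?_⟩
  · exact inter_mem (mem_nhdsWithin_of_mem_nhds (ball_mem_nhds x (by positivity))) self_mem_nhdsWithin
  · have h1 : ∀ᶠ i in φ, dist (F i x) (Λ x) < ε / 4 :=
      (Metric.tendsto_nhds.1 (hΛ x hx)) (ε / 4) (by positivity)
    filter_upwards [h1, hF] with i hi hiF y hy
    have h2 := hiF x hx y hy.2
    have h3 := hΛL x hx y hy.2
    have h4 : K * ‖x - y‖ ≤ ε / 4 := by
      have := hy.1
      rw [mem_ball, dist_eq_norm, norm_sub_rev, lt_div_iff₀ (by positivity)] at this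
      linarith
    rw [dist_eq_norm] at hi ⊢
    have h5 : Λ y - F i y = (F i x - F i y) - (F i x - Λ x) - (Λ x - Λ y) := by abel
    rw [h5]
    have h6 := norm_sub_le ((F i x - F i y) - (F i x - Λ x)) (Λ x - Λ y)
    have h7 := norm_sub_le (F i x - F i y) (F i x - Λ x)
    linarith

/-- the slopes of one function -/
theorem slopes {N : ℕ} {c2 : ℝ} (hc2 : 0 < c2) {f : ℂ → ℂ} {T : ℕ × ℕ → ℂ}
    (hT : ∃ p ∈ Finset.range (N + 1) ×ˢ Finset.range (N + 1), T p ≠ 0)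
    (hf : ∀ s : ℂ, |s.im| < c2 → ∑ p ∈ Finset.range (N + 1) ×ˢ Finset.range (N + 1),
      T p * Complex.exp s ^ p.2 * Complex.exp (f s) ^ p.1 = 0) :
    ∃ (Q : Finset ℚ) (C : ℝ), ∀ x : ℕ, C ≤ x → ∃ q ∈ Q, |(f (x : ℂ)).re - (q : ℝ) * x| ≤ C := by
  classical
  set box := Finset.range (N + 1) ×ˢ Finset.range (N + 1) with hbox
  set F := box.filter (fun p => T p ≠ 0) with hF
  have hFne : F.Nonempty := by
    obtain ⟨p, hp, hp0⟩ := hT
    exact ⟨p, Finset.mem_filter.2 ⟨hp, hp0⟩⟩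
  set B : ℝ := ∑ p ∈ F, |Real.log ‖T p‖| with hB
  have hB0 : 0 ≤ B := Finset.sum_nonneg fun _ _ => abs_nonneg _
  set s0 : ℝ := Real.log F.card with hs0
  have hs00 : 0 ≤ s0 := Real.log_nonneg (by exact_mod_cast hFne.card_pos)
  refine ⟨(F ×ˢ F).image (fun p => -(((p.1.2 : ℚ) - p.2.2) / ((p.1.1 : ℚ) - p.2.1))),
    2 * B + s0 + 1, ?_⟩
  intro x hx
  have hx0 : (0 : ℝ) < x := by linarith
  have hsum : ∑ e ∈ F, T e * Complex.exp (x : ℂ) ^ e.2 * Complex.exp (f (x : ℂ)) ^ e.1 = 0 := by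
    have h1 := hf (x : ℂ) (by simpa using hc2)
    rw [← h1, hF, Finset.sum_filter]
    refine Finset.sum_congr rfl fun p _ => ?_
    split_ifs with h
    · rfl
    · push Not at h
      rw [h]; simp
  obtain ⟨e, he, e', he', h1⟩ := Pool.Agent.Q206.EG.slope_core F hFne T (Complex.exp (x : ℂ))
    (Complex.exp (f (x : ℂ))) (Complex.exp_ne_zero _) (Complex.exp_ne_zero _) hsum B s0
    (fun e he => ⟨(Finset.mem_filter.1 he).2,
      Finset.single_le_sum (f := fun p => |Real.log ‖T p‖|) (fun _ _ => abs_nonneg _) he⟩) le_rfl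
    (by
      rw [Complex.norm_exp, Real.log_exp, Complex.natCast_re, abs_of_pos hx0]
      linarith)
  refine ⟨-(((e.2 : ℚ) - e'.2) / ((e.1 : ℚ) - e'.1)), ?_, ?_⟩
  · rw [Finset.mem_image]
    exact ⟨(e, e'), Finset.mem_product.2 ⟨he, he'⟩, rfl⟩
  · rw [Complex.norm_exp, Real.log_exp, Complex.norm_exp, Real.log_exp, Complex.natCast_re] at h1
    push_cast
    linarith

/-- a bounded multiple of large numbers -/
theorem zero_of_bdd {a C : ℝ} (h : ∀ K : ℝ, ∃ x : ℝ, K ≤ x ∧ |a * x| ≤ C) : a = 0 := by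
  by_contra ha
  obtain ⟨x, hx, hx2⟩ := h ((C + 1) / |a|)
  rw [div_le_iff₀ (abs_pos.2 ha)] at hx
  rw [abs_mul] at hx2
  have h1 : x * |a| ≤ |x| * |a| := mul_le_mul_of_nonneg_right (le_abs_self x) (abs_nonneg a)
  nlinarith [abs_nonneg a, abs_nonneg x]

/-- **the linear form does not vanish on the limit functions** -/
theorem not_flat {n N : ℕ} {c2 : ℝ} (hc2 : 0 < c2) {l : Fin n → ℝ} {m : Fin n → ℤ}
    (hm : ∀ a : Fin n → ℚ, ∑ i, l i * (a i : ℝ) = 0 → ∑ i, (m i : ℝ) * (a i : ℝ) = 0)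
    {Λ : ℂ → Fin n → ℂ} (h1 : ∀ s : ℂ, |s.im| < c2 → ∑ i, (m i : ℂ) * Λ s i = s)
    (h2 : ∀ i, ∃ T : ℕ × ℕ → ℂ, (∃ p ∈ Finset.range (N + 1) ×ˢ Finset.range (N + 1), T p ≠ 0) ∧
      ∀ s : ℂ, |s.im| < c2 → ∑ p ∈ Finset.range (N + 1) ×ˢ Finset.range (N + 1),
        T p * Complex.exp s ^ p.2 * Complex.exp (Λ s i) ^ p.1 = 0)
    (h3 : ∀ s : ℂ, |s.im| < c2 → ∑ i, (l i : ℂ) * Λ s i = 0) : False := by
  classical
  choose T hT hTe using h2
  choose Q C hQ using fun i => slopes hc2 (f := fun s => Λ s i) (hT i) (hTe i)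
  set C0 : ℝ := ∑ i, |C i| with hC0
  have hCC : ∀ i, C i ≤ C0 := fun i => (le_abs_self _).trans
    (Finset.single_le_sum (f := fun i => |C i|) (fun _ _ => abs_nonneg _) (Finset.mem_univ i))
  obtain ⟨K0, hK0⟩ := exists_nat_ge C0
  have hchoose : ∀ x : ℕ, ∃ q : Fin n → ℚ, q ∈ Fintype.piFinset Q ∧ (K0 ≤ x →
      ∀ i, |(Λ (x : ℂ) i).re - (q i : ℝ) * x| ≤ C0) := by
    intro x
    by_cases hx : K0 ≤ x
    · have hx' : C0 ≤ x := hK0.trans (by exact_mod_cast hx)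
      have : ∀ i, ∃ q ∈ Q i, |(Λ (x : ℂ) i).re - (q : ℝ) * x| ≤ C i := fun i =>
        hQ i x ((hCC i).trans hx')
      choose q hq hq2 using this
      exact ⟨q, Fintype.mem_piFinset.2 hq, fun _ i => (hq2 i).trans (hCC i)⟩
    · have hne : ∀ i, (Q i).Nonempty := by
        intro i
        obtain ⟨q, hq, -⟩ := hQ i K0 ((hCC i).trans hK0)
        exact ⟨q, hq⟩
      choose q hq using hne
      exact ⟨q, Fintype.mem_piFinset.2 hq, fun h => absurd h hx⟩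
  choose q hq hq2 using hchoose
  obtain ⟨σ, hσ⟩ := Finite.exists_infinite_fiber
    (fun x : ℕ => (⟨q x, hq x⟩ : {q // q ∈ Fintype.piFinset Q}))
  have hσinf : ((fun x : ℕ => (⟨q x, hq x⟩ : {q // q ∈ Fintype.piFinset Q})) ⁻¹' {σ}).Infinite :=
    Set.infinite_coe_iff.1 hσ
  have hlarge : ∀ K : ℝ, ∃ x : ℕ, K ≤ x ∧ ∀ i, |(Λ (x : ℂ) i).re - (σ.1 i : ℝ) * x| ≤ C0 := by
    intro K
    obtain ⟨K1, hK1⟩ := exists_nat_ge K
    obtain ⟨x, hx, hx2⟩ := hσinf.exists_gt (max K0 K1)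
    have h4 : q x = σ.1 := congrArg Subtype.val hx
    refine ⟨x, hK1.trans (by exact_mod_cast (le_max_right _ _).trans hx2.le), ?_⟩
    have := hq2 x ((le_max_left _ _).trans hx2.le)
    rwa [h4] at this
  -- linear forms
  have hform : ∀ (b : Fin n → ℝ) (x : ℕ), (∀ i, |(Λ (x : ℂ) i).re - (σ.1 i : ℝ) * x| ≤ C0) →
      |∑ i, b i * (Λ (x : ℂ) i).re - (∑ i, b i * (σ.1 i : ℝ)) * x| ≤ (∑ i, |b i|) * C0 := by
    intro b x hx
    have e1 : ∑ i, b i * (Λ (x : ℂ) i).re - (∑ i, b i * (σ.1 i : ℝ)) * x =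
        ∑ i, b i * ((Λ (x : ℂ) i).re - (σ.1 i : ℝ) * x) := by
      rw [Finset.sum_mul, ← Finset.sum_sub_distrib]
      exact Finset.sum_congr rfl fun i _ => by ring
    rw [e1, Finset.sum_mul]
    refine (Finset.abs_sum_le_sum_abs _ _).trans (Finset.sum_le_sum fun i _ => ?_)
    rw [abs_mul]
    exact mul_le_mul_of_nonneg_left (hx i) (abs_nonneg _)
  have hre : ∀ (b : Fin n → ℝ) (z : Fin n → ℂ), (∑ i, (b i : ℂ) * z i).re = ∑ i, b i * (z i).re := by
    intro b z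
    rw [Complex.re_sum]
    exact Finset.sum_congr rfl fun i _ => Complex.re_ofReal_mul _ _
  have hl0 : ∑ i, l i * (σ.1 i : ℝ) = 0 := by
    refine zero_of_bdd (C := (∑ i, |l i|) * C0) fun K => ?_
    obtain ⟨x, hx, hx2⟩ := hlarge K
    refine ⟨x, hx, ?_⟩
    have h4 := hform l x hx2
    have h5 : ∑ i, l i * (Λ (x : ℂ) i).re = 0 := by
      rw [← hre, h3 (x : ℂ) (by simpa using hc2)]; simp
    rw [h5, zero_sub, abs_neg] at h4
    exact h4
  have hm1 : ∑ i, (m i : ℝ) * (σ.1 i : ℝ) - 1 = 0 := by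
    refine zero_of_bdd (C := (∑ i, |(m i : ℝ)|) * C0) fun K => ?_
    obtain ⟨x, hx, hx2⟩ := hlarge K
    refine ⟨x, hx, ?_⟩
    have h4 := hform (fun i => (m i : ℝ)) x hx2
    have h5 : ∑ i, (m i : ℝ) * (Λ (x : ℂ) i).re = x := by
      have h6 := h1 (x : ℂ) (by simpa using hc2)
      have h7 := hre (fun i => (m i : ℝ)) (Λ (x : ℂ))
      rw [← h7]
      push_cast
      rw [h6]; simp
    rw [h5] at h4
    rw [abs_sub_comm] at h4
    convert h4 using 2
    ring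
  have := hm _ hl0
  rw [this] at hm1
  norm_num at hm1

end Pool.Agent.Helper57.HT
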