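import Pool.Agent.Helper57.HT.Pair
import Pool.Agent.Helper57.HT.Rat
import Pool.Agent.Helper57.HT.Lim

/-!
Project HT (helper57): exponential points near irrational flat pieces, from families of points of the
variety over products of balls and strips.
-/

set_option autoImplicit false

namespace Pool.Agent.Helper57.HT

open Filter Topology Metric

/-- the centre -/
noncomputable def cen {n : ℕ} (κ1 : Fin n → ℝ) (τ : ℝ) : Fin n → ℂ :=
  fun i => Complex.I * (τ : ℂ) * (κ1 i : ℂ)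

/-- the box of exponents -/
def box (N : ℕ) : Finset (ℕ × ℕ) := Finset.range (N + 1) ×ˢ Finset.range (N + 1)

/-- the family at the parameter `τ` -/
structure St (n N : ℕ) (l : Fin n → ℝ) (m : Fin n → ℤ) (v κ κ1 : Fin n → ℝ) (Me : ℕ)
    (c r1 B C0 : ℝ) (Good : (Fin n → ℂ) → (Fin n → ℂ) → Prop) (η τ : ℝ) where
  φ : ℝ
  L : (Fin n → ℂ) × ℂ → Fin n → ℂ
  w : (Fin n → ℂ) → ℂ
  hL : DifferentiableOn ℂ L (ball (cen κ1 τ) (√τ) ×ˢ {s : ℂ | |s.im - φ| < c})
  hw : DifferentiableOn ℂ w (ball (cen κ1 τ) (√τ))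
  good : ∀ u ∈ ball (cen κ1 τ) (√τ), ∀ s : ℂ, |s.im - φ| < c →
    Good (fun i => Complex.I * (τ : ℂ) ^ Me * (κ i : ℂ) + u i +
      (w u - ∑ k, (l k : ℂ) * u k) * (v i : ℂ)) (fun i => Complex.exp (L (u, s) i))
  near : ∀ u ∈ ball (cen κ1 τ) (√τ), ∀ s : ℂ, |s.im - φ| < c →
    ‖L (u, s) - L (cen κ1 τ, s)‖ ≤ η
  wB : ‖w (cen κ1 τ)‖ ≤ B
  wn : ∀ u ∈ ball (cen κ1 τ) (√τ), ‖w u - w (cen κ1 τ)‖ ≤ η
  lip : ∀ s s' : ℂ, |s.im - φ| < c → |s'.im - φ| < c → ‖s - s'‖ ≤ r1 →
    ‖L (cen κ1 τ, s) - L (cen κ1 τ, s')‖ ≤ 1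
  mL : ∀ s s' : ℂ, |s.im - φ| < c → |s'.im - φ| < c →
    ∑ i, (m i : ℂ) * (L (cen κ1 τ, s) i - L (cen κ1 τ, s') i) = s - s'
  cross : ∃ σ : ℝ, ∑ i, l i * (L (cen κ1 τ, (σ : ℂ) + (φ : ℂ) * Complex.I) i).re =
    (w (cen κ1 τ)).re ∧ ∀ i, |(L (cen κ1 τ, (σ : ℂ) + (φ : ℂ) * Complex.I) i).re| ≤ C0 * Real.log τ
  poly : ∀ i, ∃ T : ℕ × ℕ → ℂ, (∃ p ∈ box N, T p ≠ 0) ∧ ∀ s : ℂ, |s.im - φ| < c →
    ∑ p ∈ box N, T p * Complex.exp s ^ p.2 * Complex.exp (L (cen κ1 τ, s) i) ^ p.1 = 0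

theorem isOpen_strip (c : ℝ) : IsOpen {s : ℂ | |s.im| < c} :=
  isOpen_lt (continuous_abs.comp Complex.continuous_im) continuous_const

theorem convex_strip (c : ℝ) : Convex ℝ {s : ℂ | |s.im| < c} := by
  have h : {s : ℂ | |s.im| < c} = Complex.imLm ⁻¹' (ball (0 : ℝ) c) := by
    ext s; simp [mem_ball]
  rw [h]
  exact (convex_ball (0 : ℝ) c).linear_preimage _

/-- Lipschitz estimate from bounded oscillation -/
theorem lip_strip {E : Type} [NormedAddCommGroup E] [NormedSpace ℂ E] {c r1 : ℝ} (hc : 0 < c)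
    (hr1 : 0 < r1) {F : ℂ → E} (hF : DifferentiableOn ℂ F {s : ℂ | |s.im| < c})
    (h : ∀ s t : ℂ, |s.im| < c → |t.im| < c → ‖s - t‖ ≤ r1 → ‖F s - F t‖ ≤ 1) :
    ∀ s ∈ {s : ℂ | |s.im| < c / 2}, ∀ t ∈ {s : ℂ | |s.im| < c / 2},
      ‖F s - F t‖ ≤ (min r1 (c / 4))⁻¹ * ‖s - t‖ := by
  set ρ := min r1 (c / 4) with hρ
  have hρ0 : 0 < ρ := lt_min hr1 (by linarith)
  have hsub : ∀ s ∈ {s : ℂ | |s.im| < c / 2}, closedBall s ρ ⊆ {s : ℂ | |s.im| < c} := by
    intro s hs t ht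
    rw [mem_closedBall, dist_eq_norm] at ht
    have h1 : |t.im - s.im| ≤ ρ := by
      rw [← Complex.sub_im]; exact (Complex.abs_im_le_norm _).trans ht
    have h2 : ρ ≤ c / 4 := min_le_right _ _
    simp only [Set.mem_ofPred_eq] at hs ⊢
    have h3 : |t.im| ≤ |t.im - s.im| + |s.im| := by
      have := abs_add_le (t.im - s.im) s.im
      rwa [sub_add_cancel] at this
    linarith
  have hmem : ∀ s ∈ {s : ℂ | |s.im| < c / 2}, s ∈ {s : ℂ | |s.im| < c} := fun s hs =>
    hsub s hs (mem_closedBall_self hρ0.le)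
  have hder : ∀ s ∈ {s : ℂ | |s.im| < c / 2}, ‖deriv F s‖ ≤ ρ⁻¹ := by
    intro s hs
    have h1 : ‖deriv (fun t => F t - F s) s‖ ≤ 1 / ρ := by
      refine Complex.norm_deriv_le_of_forall_mem_sphere_norm_le hρ0 ?_ ?_
      · refine DifferentiableOn.diffContOnCl ?_
        rw [closure_ball _ hρ0.ne']
        exact (hF.mono (hsub s hs)).sub (differentiableOn_const _)
      · intro t ht
        refine h t s (hsub s hs (sphere_subset_closedBall ht)) (hmem s hs) ?_
        rw [mem_sphere, dist_eq_norm] at ht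
        rw [ht]; exact min_le_left _ _
    rw [deriv_sub_const] at h1
    rwa [one_div] at h1
  intro s hs t ht
  exact (convex_strip (c / 2)).norm_image_sub_le_of_norm_deriv_le
    (fun x hx => (hF x (hmem x hx)).differentiableAt ((isOpen_strip c).mem_nhds (hmem x hx)))
    hder ht hs

theorem final {n N : ℕ} {l : Fin n → ℝ} (hl0 : l ≠ 0)
    (hl : ∀ m : Fin n → ℤ, m ≠ 0 → ∃ i j, (m i : ℝ) * l j ≠ m j * l i)
    {m : Fin n → ℤ}
    (hm : ∀ a : Fin n → ℚ, ∑ i, l i * (a i : ℝ) = 0 → ∑ i, (m i : ℝ) * (a i : ℝ) = 0)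
    {v κ κ1 : Fin n → ℝ} (hκ1 : ∑ i, l i * κ1 i = 0) {Me : ℕ} {c r1 B C0 : ℝ} (hc : 0 < c)
    (hr1 : 0 < r1) {Good : (Fin n → ℂ) → (Fin n → ℂ) → Prop}
    {η : ℝ → ℝ} (hη : Tendsto η atTop (𝓝 0))
    (hst : ∀ᶠ τ in atTop, Nonempty (St n N l m v κ κ1 Me c r1 B C0 Good (η τ) τ)) :
    ∃ z : Fin n → ℂ, Good z (fun i => Complex.exp (z i)) := by
  classical
  set ι := {τ : ℝ // Nonempty (St n N l m v κ κ1 Me c r1 B C0 Good (η τ) τ)} with hι
  set φ0 : Filter ι := comap Subtype.val atTop with hφ0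
  have hne : φ0.NeBot := by
    rw [hφ0, comap_neBot_iff]
    intro t ht
    obtain ⟨x, hx, hx2⟩ := (inter_mem ht hst : _ ∈ (atTop : Filter ℝ)) |> Filter.nonempty_of_mem
    exact ⟨⟨x, hx2⟩, hx⟩
  set U : Ultrafilter ι := Ultrafilter.of φ0 with hU
  have hval : Tendsto (Subtype.val : ι → ℝ) (U : Filter ι) atTop :=
    tendsto_comap.mono_left (Ultrafilter.of_le φ0)
  have hD : ∀ i : ι, Nonempty (St n N l m v κ κ1 Me c r1 B C0 Good (η i.1) i.1) := fun i => i.2
  choose σ hσ1 hσ2 using fun i : ι => (hD i).some.cross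
  set D : ∀ i : ι, St n N l m v κ κ1 Me c r1 B C0 Good (η i.1) i.1 := fun i => (hD i).some with hDd
  set ss : ι → ℂ := fun i => (σ i : ℂ) + ((D i).φ : ℂ) * Complex.I with hss
  have hssim : ∀ i, (ss i).im = (D i).φ := by intro i; simp [hss]
  set F : ι → ℂ → Fin n → ℂ := fun i s =>
    (D i).L (cen κ1 i.1, ss i + s) - (D i).L (cen κ1 i.1, ss i) with hF
  have hstrip : ∀ (i : ι) (s : ℂ), |s.im| < c → |(ss i + s).im - (D i).φ| < c := by
    intro i s hs
    rw [Complex.add_im, hssim, add_sub_cancel_left]; exact hs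
  have hF0 : ∀ i, F i 0 = 0 := by intro i; simp [hF]
  have hS : ∀ᶠ τ : ℝ in atTop, 0 < √τ := by
    filter_upwards [eventually_gt_atTop 0] with τ hτ using Real.sqrt_pos.2 hτ
  have hSU : ∀ᶠ i : ι in U, 0 < √i.1 := hval.eventually hS
  have hFd : ∀ i : ι, 0 < √i.1 → DifferentiableOn ℂ (F i) {s : ℂ | |s.im| < c} := by
    intro i hi
    refine DifferentiableOn.sub ?_ (differentiableOn_const _)
    refine (D i).hL.comp (t := ball (cen κ1 i.1) (√i.1) ×ˢ {s : ℂ | |s.im - (D i).φ| < c})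
      (f := fun s : ℂ => ((cen κ1 i.1, ss i + s) : (Fin n → ℂ) × ℂ)) (by fun_prop) ?_
    intro s hs
    exact ⟨mem_ball_self hi, hstrip i s hs⟩
  set K : ℝ := (min r1 (c / 4))⁻¹ with hK
  have hK0 : 0 < K := inv_pos.2 (lt_min hr1 (by linarith))
  have hc2 : 0 < c / 2 := by linarith
  have hlip : ∀ i : ι, 0 < √i.1 → ∀ s ∈ {s : ℂ | |s.im| < c / 2}, ∀ t ∈ {s : ℂ | |s.im| < c / 2},
      ‖F i s - F i t‖ ≤ K * ‖s - t‖ := by
    intro i hi
    refine lip_strip hc hr1 (hFd i hi) ?_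
    intro s t hs ht hst
    have := (D i).lip (ss i + s) (ss i + t) (hstrip i s hs) (hstrip i t ht)
      (by rwa [add_sub_add_left_eq_sub])
    simp only [hF]
    rwa [sub_sub_sub_cancel_right]
  have h0mem : (0 : ℂ) ∈ {s : ℂ | |s.im| < c / 2} := by simp [hc2]
  -- the limit
  have hΛex : ∀ s : ℂ, ∃ a : Fin n → ℂ, |s.im| < c / 2 → Tendsto (fun i => F i s) U (𝓝 a) := by
    intro s
    by_cases hs : |s.im| < c / 2
    · obtain ⟨a, ha⟩ := ulim U (f := fun i => F i s) (C := K * ‖s‖) (by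
        filter_upwards [hSU] with i hi
        have := hlip i hi s hs 0 h0mem
        rwa [hF0, sub_zero, sub_zero] at this)
      exact ⟨a, fun _ => ha⟩
    · exact ⟨0, fun h => absurd h hs⟩
  choose Λ hΛ using hΛex
  have hloc : TendstoLocallyUniformlyOn F Λ (U : Filter ι) {s : ℂ | |s.im| < c / 2} := by
    refine tluo hK0 ?_ fun s hs => hΛ s hs
    filter_upwards [hSU] with i hi using hlip i hi
  have hΛd : DifferentiableOn ℂ Λ {s : ℂ | |s.im| < c / 2} := by
    refine hloc.differentiableOn ?_ (isOpen_strip _)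
    filter_upwards [hSU] with i hi
    refine (hFd i hi).mono fun s hs => ?_
    have h1 : |s.im| < c / 2 := hs
    exact (h1.trans (by linarith) : |s.im| < c)
  -- relations
  have hΛm : ∀ s : ℂ, |s.im| < c / 2 → ∑ i, (m i : ℂ) * Λ s i = s := by
    intro s hs
    have h1 : Tendsto (fun i => ∑ j, (m j : ℂ) * F i s j) U (𝓝 (∑ j, (m j : ℂ) * Λ s j)) :=
      tendsto_finsetSum _ fun j _ => ((tendsto_pi_nhds.1 (hΛ s hs)) j).const_mul _
    have h2 : (fun i => ∑ j, (m j : ℂ) * F i s j) = fun _ => s := by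
      funext i
      have := (D i).mL (ss i + s) (ss i) (hstrip i s (hs.trans (by linarith)))
        (by rw [hssim, sub_self, abs_zero]; exact hc)
      rw [add_sub_cancel_left] at this
      exact this
    rw [h2] at h1
    exact (tendsto_nhds_unique h1 tendsto_const_nhds)
  have hΛp : ∀ j, ∃ T : ℕ × ℕ → ℂ, (∃ p ∈ Finset.range (N + 1) ×ˢ Finset.range (N + 1), T p ≠ 0) ∧
      ∀ s : ℂ, |s.im| < c / 2 → ∑ p ∈ Finset.range (N + 1) ×ˢ Finset.range (N + 1),
        T p * Complex.exp s ^ p.2 * Complex.exp (Λ s j) ^ p.1 = 0 := by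
    intro j
    choose T hT hTe using fun i : ι => (D i).poly j
    set T1 : ι → ℕ × ℕ → ℂ := fun i p => T i p * Complex.exp (ss i) ^ p.2 *
      Complex.exp ((D i).L (cen κ1 i.1, ss i) j) ^ p.1 with hT1
    set S : ι → ℝ := fun i => ∑ p ∈ box N, ‖T1 i p‖ with hSd
    have hSpos : ∀ i, 0 < S i := by
      intro i
      obtain ⟨p, hp, hp0⟩ := hT i
      refine Finset.sum_pos' (fun _ _ => norm_nonneg _) ⟨p, hp, ?_⟩
      rw [norm_pos_iff]
      exact mul_ne_zero (mul_ne_zero hp0 (pow_ne_zero _ (Complex.exp_ne_zero _)))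
        (pow_ne_zero _ (Complex.exp_ne_zero _))
    set T2 : ι → ℕ × ℕ → ℂ := fun i p => ((S i : ℝ) : ℂ)⁻¹ * T1 i p with hT2
    have hT2n : ∀ i, ∑ p ∈ box N, ‖T2 i p‖ = 1 := by
      intro i
      simp only [hT2, norm_mul, norm_inv, Complex.norm_real, Real.norm_eq_abs,
        abs_of_pos (hSpos i)]
      rw [← Finset.mul_sum]
      exact inv_mul_cancel₀ (hSpos i).ne'
    have hTlim : ∀ p : ℕ × ℕ, ∃ a : ℂ, p ∈ box N → Tendsto (fun i => T2 i p) U (𝓝 a) := by
      intro p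
      by_cases hp : p ∈ box N
      · obtain ⟨a, ha⟩ := ulim U (f := fun i => T2 i p) (C := 1) (Eventually.of_forall fun i => by
          rw [← hT2n i]
          exact Finset.single_le_sum (f := fun p => ‖T2 i p‖) (fun _ _ => norm_nonneg _) hp)
        exact ⟨a, fun _ => ha⟩
      · exact ⟨0, fun h => absurd h hp⟩
    choose T3 hT3 using hTlim
    refine ⟨T3, ?_, ?_⟩
    · by_contra hcon
      push Not at hcon
      have h1 : Tendsto (fun i => ∑ p ∈ box N, ‖T2 i p‖) U (𝓝 (∑ p ∈ box N, ‖T3 p‖)) :=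
        tendsto_finsetSum _ fun p hp => (hT3 p hp).norm
      have h2 : (fun i => ∑ p ∈ box N, ‖T2 i p‖) = fun _ => (1 : ℝ) := funext hT2n
      rw [h2] at h1
      have h3 := tendsto_nhds_unique h1 tendsto_const_nhds
      rw [Finset.sum_eq_zero] at h3
      · exact zero_ne_one h3
      · intro p hp
        rw [hcon p hp, norm_zero]
    · intro s hs
      have h1 : Tendsto (fun i => ∑ p ∈ box N, T2 i p * Complex.exp s ^ p.2 *
          Complex.exp (F i s j) ^ p.1) U (𝓝 (∑ p ∈ box N, T3 p * Complex.exp s ^ p.2 *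
          Complex.exp (Λ s j) ^ p.1)) := by
        refine tendsto_finsetSum _ fun p hp => ((hT3 p hp).mul_const _).mul ?_
        exact ((Complex.continuous_exp.tendsto _).comp ((tendsto_pi_nhds.1 (hΛ s hs)) j)).pow _
      have h2 : (fun i => ∑ p ∈ box N, T2 i p * Complex.exp s ^ p.2 *
          Complex.exp (F i s j) ^ p.1) = fun _ => (0 : ℂ) := by
        funext i
        have h3 := hTe i (ss i + s) (hstrip i s (hs.trans (by linarith)))
        have h4 : ∑ p ∈ box N, T2 i p * Complex.exp s ^ p.2 * Complex.exp (F i s j) ^ p.1 =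
            ((S i : ℝ) : ℂ)⁻¹ * ∑ p ∈ box N, T i p * Complex.exp (ss i + s) ^ p.2 *
              Complex.exp ((D i).L (cen κ1 i.1, ss i + s) j) ^ p.1 := by
          rw [Finset.mul_sum]
          refine Finset.sum_congr rfl fun p _ => ?_
          have e1 : (D i).L (cen κ1 i.1, ss i + s) j =
              (D i).L (cen κ1 i.1, ss i) j + F i s j := by
            simp [hF]
          rw [e1, Complex.exp_add (ss i) s,
            Complex.exp_add ((D i).L (cen κ1 i.1, ss i) j) (F i s j), mul_pow, mul_pow]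
          simp only [hT2, hT1]
          ring
        rw [h4, h3, mul_zero]
      rw [h2] at h1
      exact (tendsto_nhds_unique h1 tendsto_const_nhds)
  -- the linear form on the limit
  set G : ℂ → ℂ := fun s => ∑ i, (l i : ℂ) * Λ s i with hG
  have hGd : DifferentiableOn ℂ G {s : ℂ | |s.im| < c / 2} := by
    refine DifferentiableOn.fun_sum fun i _ => DifferentiableOn.const_mul ?_ _
    exact differentiableOn_pi.1 hΛd i
  have hΛ0 : Λ 0 = 0 := by
    have h1 := hΛ 0 h0mem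
    simp only [hF0] at h1
    exact (tendsto_nhds_unique h1 tendsto_const_nhds)
  have hG0 : G 0 = 0 := by simp [hG, hΛ0]
  have hGan : AnalyticOnNhd ℂ G {s : ℂ | |s.im| < c / 2} := hGd.analyticOnNhd (isOpen_strip _)
  have hGne : ∀ᶠ s in 𝓝[≠] (0 : ℂ), G s ≠ 0 := by
    rcases (hGan 0 h0mem).eventually_eq_zero_or_eventually_ne_zero with h | h
    · exfalso
      have h1 := hGan.eqOn_zero_of_preconnected_of_eventuallyEq_zero
        (convex_strip (c / 2)).isPreconnected h0mem h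
      exact not_flat hc2 hm hΛm hΛp fun s hs => h1 hs
    · exact h
  obtain ⟨ε0, hε0, hε0G⟩ : ∃ ε0 > 0, ∀ s : ℂ, s ≠ 0 → ‖s‖ < ε0 → G s ≠ 0 := by
    rw [eventually_nhdsWithin_iff, Metric.eventually_nhds_iff] at hGne
    obtain ⟨ε0, h1, h2⟩ := hGne
    exact ⟨ε0, h1, fun s hs hs2 => h2 (by rwa [dist_zero_right]) hs⟩
  set ρ0 : ℝ := min ε0 (c / 2) / 2 with hρ0
  have hρ00 : 0 < ρ0 := by
    have : 0 < min ε0 (c / 2) := lt_min hε0 hc2
    rw [hρ0]; linarith
  have hρ0ε : ρ0 < ε0 := by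
    have := min_le_left ε0 (c / 2)
    have : 0 < min ε0 (c / 2) := lt_min hε0 hc2
    rw [hρ0]; linarith
  have hρ0c : ρ0 < c / 2 := by
    have := min_le_right ε0 (c / 2)
    have : 0 < min ε0 (c / 2) := lt_min hε0 hc2
    rw [hρ0]; linarith
  have hsph : sphere (0 : ℂ) ρ0 ⊆ {s : ℂ | |s.im| < c / 2} := by
    intro s hs
    rw [mem_sphere_zero_iff_norm] at hs
    exact (Complex.abs_im_le_norm s).trans_lt (by rw [hs]; exact hρ0c)
  obtain ⟨g0, hg0, hg0G⟩ : ∃ g0 > 0, ∀ s ∈ sphere (0 : ℂ) ρ0, g0 ≤ ‖G s‖ := by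
    obtain ⟨s1, hs1, hmin⟩ := (isCompact_sphere (0 : ℂ) ρ0).exists_isMinOn
      (NormedSpace.sphere_nonempty.2 hρ00.le) ((hGd.continuousOn.mono hsph).norm)
    refine ⟨‖G s1‖, norm_pos_iff.2 (hε0G s1 ?_ ?_), fun s hs => hmin hs⟩
    · rw [mem_sphere_zero_iff_norm] at hs1
      intro h; rw [h, norm_zero] at hs1; linarith
    · rw [mem_sphere_zero_iff_norm] at hs1
      rw [hs1]; exact hρ0ε
  set A : ℝ := ∑ i, |l i| with hA
  have hA0 : 0 ≤ A := Finset.sum_nonneg fun _ _ => abs_nonneg _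
  have hAl : ∀ z : Fin n → ℂ, ‖∑ i, (l i : ℂ) * z i‖ ≤ A * ‖z‖ := by
    intro z
    rw [hA, Finset.sum_mul]
    refine (norm_sum_le _ _).trans (Finset.sum_le_sum fun i _ => ?_)
    rw [norm_mul, Complex.norm_real, Real.norm_eq_abs]
    exact mul_le_mul_of_nonneg_left (norm_le_pi_norm z i) (abs_nonneg _)
  obtain ⟨R, hR⟩ := exists_int_near l hl0 hl (g0 / 8) (by positivity) (B + A * 4)
  -- choice of the stage
  have hev1 : ∀ᶠ i : ι in U, ∀ s ∈ sphere (0 : ℂ) ρ0, ‖F i s - Λ s‖ < g0 / (8 * (A + 1)) := by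
    have h1 := (tendstoLocallyUniformlyOn_iff_forall_isCompact (isOpen_strip _)).1 hloc
      (sphere (0 : ℂ) ρ0) hsph (isCompact_sphere _ _)
    have h2 := (Metric.tendstoUniformlyOn_iff.1 h1) (g0 / (8 * (A + 1))) (by positivity)
    filter_upwards [h2] with i hi s hs
    have := hi s hs
    rwa [dist_eq_norm, norm_sub_rev] at this
  have hev2 : ∀ᶠ i : ι in U, η i.1 < min 1 (g0 / (16 * (A + 1))) :=
    hval.eventually (hη.eventually (gt_mem_nhds (by positivity)))
  have hev3 : ∀ᶠ i : ι in U, 8 * (1 + K * c + (|C0| * Real.log i.1 + 4) + |R|) < √i.1 := by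
    refine hval.eventually
      (p := fun τ => 8 * (1 + K * c + (|C0| * Real.log τ + 4) + |R|) < √τ) ?_
    have h1 : (fun τ : ℝ => 8 * (1 + K * c + (|C0| * Real.log τ + 4) + |R|)) =o[atTop]
        (fun τ : ℝ => √τ) := by
      have e1 : (fun τ : ℝ => 8 * (1 + K * c + (|C0| * Real.log τ + 4) + |R|)) =
          fun τ : ℝ => (8 * |C0|) * Real.log τ + (8 * (1 + K * c + 4 + |R|)) := by
        funext τ; ring
      rw [e1]
      have h2 : Real.log =o[atTop] (fun τ : ℝ => √τ) := by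
        have := isLittleO_log_rpow_atTop (show (0 : ℝ) < 1 / 2 by norm_num)
        simpa only [← Real.sqrt_eq_rpow] using this
      refine (h2.const_mul_left _).add ?_
      have h3 : Tendsto (fun τ : ℝ => √τ) atTop atTop := Real.tendsto_sqrt_atTop
      exact Asymptotics.isLittleO_const_left.2 (Or.inr (tendsto_norm_atTop_atTop.comp h3))
    have h2 := h1.bound (show (0 : ℝ) < 1 / 2 by norm_num)
    filter_upwards [h2, hS] with τ h3 h4
    rw [Real.norm_eq_abs, Real.norm_eq_abs, abs_of_pos h4] at h3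
    have := le_abs_self (8 * (1 + K * c + (|C0| * Real.log τ + 4) + |R|))
    linarith
  have hev4 : ∀ᶠ i : ι in U, 1 ≤ i.1 := hval.eventually (eventually_ge_atTop 1)
  obtain ⟨i, hi1, hi2, hi3, hi4⟩ := (hev1.and (hev2.and (hev3.and hev4))).exists
  have hτ1 : 0 < √i.1 := Real.sqrt_pos.2 (by linarith)
  set τ := i.1 with hτ
  set d := D i with hd
  set cc := cen κ1 τ with hcc
  set s0 := ss i with hs0
  have hη1 : η τ < 1 := hi2.trans_le (min_le_left _ _)
  have hη2 : η τ < g0 / (16 * (A + 1)) := hi2.trans_le (min_le_right _ _)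
  have hηA : (A + 1) * η τ ≤ g0 / 16 := by
    rw [lt_div_iff₀ (by positivity)] at hη2
    linarith
  -- the integral shift
  set kk : Fin n → ℤ := fun a => round ((d.L (cc, s0) a).im / (2 * Real.pi)) with hkk
  set L' : Fin n → ℂ := fun a => d.L (cc, s0) a - 2 * Real.pi * Complex.I * (kk a : ℂ) with hL'
  have hL're : ∀ a, (L' a).re = (d.L (cc, s0) a).re := by
    intro a; simp [hL']
  have hL'im : ∀ a, |(L' a).im| ≤ 4 := by
    intro a
    have h1 : (L' a).im = 2 * Real.pi * ((d.L (cc, s0) a).im / (2 * Real.pi) - (kk a : ℝ)) := by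
      simp only [hL', Complex.sub_im]
      have : (2 * Real.pi * Complex.I * (kk a : ℂ)).im = 2 * Real.pi * (kk a : ℝ) := by simp
      rw [this]
      field_simp
    rw [h1, abs_mul, abs_of_pos Real.two_pi_pos]
    have h2 := abs_sub_round ((d.L (cc, s0) a).im / (2 * Real.pi))
    have := Real.pi_lt_four
    nlinarith [Real.pi_pos]
  have hL'n : ‖L'‖ ≤ |C0| * Real.log τ + 4 := by
    have hlog : 0 ≤ Real.log τ := Real.log_nonneg hi4
    rw [pi_norm_le_iff_of_nonneg (by positivity)]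
    intro a
    refine (Complex.norm_le_abs_re_add_abs_im _).trans (add_le_add ?_ (hL'im a))
    rw [hL're]
    refine (hσ2 i a).trans ?_
    exact mul_le_mul_of_nonneg_right (le_abs_self _) hlog
  -- the integral vector
  obtain ⟨M, hM1, hM2⟩ := hR (fun a => τ ^ Me * κ a + τ * κ1 a)
    ((d.w cc).im - ∑ a, l a * (L' a).im) (by
      have h1 : |(d.w cc).im| ≤ B := (Complex.abs_im_le_norm _).trans d.wB
      have h2 : |∑ a, l a * (L' a).im| ≤ A * 4 := by
        rw [hA, Finset.sum_mul]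
        refine (Finset.abs_sum_le_sum_abs _ _).trans (Finset.sum_le_sum fun a _ => ?_)
        rw [abs_mul]
        exact mul_le_mul_of_nonneg_left (hL'im a) (abs_nonneg _)
      refine (abs_sub _ _).trans ?_
      linarith)
  set Ψ : (Fin n → ℂ) × ℂ → Fin n → ℂ := fun p a => d.L p a - 2 * Real.pi * Complex.I * (kk a : ℂ) +
    (2 * Real.pi * Complex.I * (M a : ℂ) - Complex.I * (τ : ℂ) ^ Me * (κ a : ℂ)) with hΨ
  set Φ : (Fin n → ℂ) × ℂ → ℂ := fun p => ∑ a, (l a : ℂ) * Ψ p a - d.w p.1 with hΦ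
  have hsub : ∀ s ∈ ball s0 (c / 2), |s.im - d.φ| < c := by
    intro s hs
    rw [mem_ball, dist_eq_norm] at hs
    have h1 := (Complex.abs_im_le_norm (s - s0)).trans_lt hs
    rw [Complex.sub_im, hssim] at h1
    linarith
  have hdom : ball cc (√τ) ×ˢ ball s0 (c / 2) ⊆ ball cc (√τ) ×ˢ {s : ℂ | |s.im - d.φ| < c} :=
    Set.prod_mono_right fun s hs => hsub s hs
  have hΨd : DifferentiableOn ℂ Ψ (ball cc (√τ) ×ˢ ball s0 (c / 2)) := by
    rw [differentiableOn_pi]
    intro a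
    have h1 := differentiableOn_pi.1 (d.hL.mono hdom) a
    exact (h1.sub (differentiableOn_const _)).add (differentiableOn_const _)
  have hΦd : DifferentiableOn ℂ Φ (ball cc (√τ) ×ˢ ball s0 (c / 2)) := by
    refine DifferentiableOn.sub ?_ ?_
    · refine DifferentiableOn.fun_sum fun a _ => DifferentiableOn.const_mul ?_ _
      exact differentiableOn_pi.1 hΨd a
    · exact d.hw.comp differentiable_fst.differentiableOn fun p hp => hp.1
  have hFs : ∀ s ∈ ball s0 (c / 2), s - s0 ∈ {s : ℂ | |s.im| < c / 2} := by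
    intro s hs
    rw [mem_ball, dist_eq_norm] at hs
    exact (Complex.abs_im_le_norm (s - s0)).trans_lt hs
  have hFe : ∀ s, F i (s - s0) = d.L (cc, s) - d.L (cc, s0) := by
    intro s; simp only [hF]; rw [add_sub_cancel]
  have hFn : ∀ s ∈ ball s0 (c / 2), ‖F i (s - s0)‖ ≤ K * c := by
    intro s hs
    have h1 := hlip i hτ1 (s - s0) (hFs s hs) 0 h0mem
    rw [hF0, sub_zero, sub_zero] at h1
    rw [mem_ball, dist_eq_norm] at hs
    refine h1.trans (mul_le_mul_of_nonneg_left (by linarith) hK0.le)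
  -- decomposition of Ψ
  have hΨe : ∀ u s, Ψ (u, s) - cc = (d.L (u, s) - d.L (cc, s)) + F i (s - s0) + L' +
      (fun a => Complex.I * ((2 * Real.pi * M a - (τ ^ Me * κ a + τ * κ1 a) : ℝ) : ℂ)) := by
    intro u s
    rw [hFe]
    funext a
    simp only [hΨ, hL', Pi.sub_apply, Pi.add_apply, hcc, cen]
    push_cast
    ring
  have hB' : ∀ p ∈ ball cc (√τ) ×ˢ ball s0 (c / 2),
      ‖Ψ p - cc‖ ≤ 1 + K * c + (|C0| * Real.log τ + 4) + |R| := by
    rintro ⟨u, s⟩ ⟨hu, hs⟩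
    rw [hΨe]
    have h1 : ‖d.L (u, s) - d.L (cc, s)‖ ≤ 1 := (d.near u hu s (hsub s hs)).trans hη1.le
    have h2 := hFn s hs
    have h4 : ‖(fun a => Complex.I * ((2 * Real.pi * M a - (τ ^ Me * κ a + τ * κ1 a) : ℝ) : ℂ) :
        Fin n → ℂ)‖ ≤ |R| := by
      rw [pi_norm_le_iff_of_nonneg (abs_nonneg _)]
      intro a
      rw [norm_mul, Complex.norm_I, one_mul, Complex.norm_real, Real.norm_eq_abs]
      exact (hM1 a).trans (le_abs_self R)
    refine (norm_add_le _ _).trans (add_le_add ((norm_add_le _ _).trans (add_le_add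
      ((norm_add_le _ _).trans (add_le_add h1 h2)) hL'n)) h4)
  -- decomposition of Φ
  obtain ⟨S0, hS0⟩ : ∃ S0 : ℝ, S0 = ∑ a, l a * (2 * Real.pi * M a - (τ ^ Me * κ a + τ * κ1 a)) :=
    ⟨_, rfl⟩
  set θ : ℂ := ∑ a, (l a : ℂ) * L' a + Complex.I * (S0 : ℂ) - d.w cc with hθ
  have hθn : ‖θ‖ ≤ g0 / 8 := by
    have hre : θ.re = 0 := by
      have h1 : ∑ a, l a * (d.L (cc, s0) a).re = (d.w cc).re := hσ1 i
      have e1 : (∑ a, (l a : ℂ) * L' a).re = ∑ a, l a * (d.L (cc, s0) a).re := by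
        rw [Complex.re_sum]
        exact Finset.sum_congr rfl fun a _ => by rw [Complex.re_ofReal_mul, hL're]
      have e2 : (Complex.I * (S0 : ℂ)).re = 0 := by simp
      rw [hθ, Complex.sub_re, Complex.add_re, e1, e2, h1]; ring
    have him : θ.im = S0 - ((d.w cc).im - ∑ a, l a * (L' a).im) := by
      have e1 : (∑ a, (l a : ℂ) * L' a).im = ∑ a, l a * (L' a).im := by
        rw [Complex.im_sum]
        exact Finset.sum_congr rfl fun a _ => by rw [Complex.im_ofReal_mul]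
      have e2 : (Complex.I * (S0 : ℂ)).im = S0 := by simp
      rw [hθ, Complex.sub_im, Complex.add_im, e1, e2]; ring
    have h1 := Complex.norm_le_abs_re_add_abs_im θ
    rw [hre, him, abs_zero, zero_add, hS0] at h1
    exact h1.trans hM2
  have hΦe : ∀ u s, Φ (u, s) = ∑ a, (l a : ℂ) * (d.L (u, s) - d.L (cc, s)) a +
      ∑ a, (l a : ℂ) * F i (s - s0) a + θ - (d.w u - d.w cc) := by
    intro u s
    have h1 : ∀ a, Ψ (u, s) a = (Ψ (u, s) - cc) a + cc a := fun a => by simp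
    have h2 : ∑ a, (l a : ℂ) * cc a = 0 := by
      have : ∑ a, (l a : ℂ) * cc a = Complex.I * (τ : ℂ) * ((∑ a, l a * κ1 a : ℝ) : ℂ) := by
        simp only [hcc, cen]
        push_cast
        rw [Finset.mul_sum]
        exact Finset.sum_congr rfl fun a _ => by ring
      rw [this, hκ1]; simp
    have h3 : ∑ a, (l a : ℂ) * Ψ (u, s) a = ∑ a, (l a : ℂ) * (Ψ (u, s) - cc) a := by
      simp only [h1, mul_add, Finset.sum_add_distrib, h2, add_zero]
    simp only [hΦ]
    rw [h3, hΨe]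
    simp only [Pi.add_apply, mul_add, Finset.sum_add_distrib, hθ]
    have h4 : ∑ a, (l a : ℂ) * (Complex.I * ((2 * Real.pi * M a - (τ ^ Me * κ a + τ * κ1 a) : ℝ) : ℂ)) =
        Complex.I * (S0 : ℂ) := by
      rw [hS0]
      push_cast
      rw [Finset.mul_sum]
      exact Finset.sum_congr rfl fun a _ => by ring
    rw [h4]
    ring
  have hE1 : ∀ u ∈ ball cc (√τ), ∀ s ∈ ball s0 (c / 2),
      ‖∑ a, (l a : ℂ) * (d.L (u, s) - d.L (cc, s)) a‖ ≤ A * η τ := by
    intro u hu s hs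
    refine (hAl _).trans (mul_le_mul_of_nonneg_left ?_ hA0)
    exact d.near u hu s (hsub s hs)
  have hFl : ∀ s ∈ sphere s0 ρ0, 7 * g0 / 8 ≤ ‖∑ a, (l a : ℂ) * F i (s - s0) a‖ := by
    intro s hs
    have hs' : s - s0 ∈ sphere (0 : ℂ) ρ0 := by
      rw [mem_sphere_zero_iff_norm, ← dist_eq_norm]; exact hs
    have h1 := hg0G _ hs'
    have h2 : ‖∑ a, (l a : ℂ) * (F i (s - s0) - Λ (s - s0)) a‖ ≤ g0 / 8 := by
      refine (hAl _).trans ?_
      have h3 := (hi1 _ hs').le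
      rw [le_div_iff₀ (by positivity)] at h3
      have h4 := norm_nonneg (F i (s - s0) - Λ (s - s0))
      nlinarith
    have h3 : G (s - s0) = ∑ a, (l a : ℂ) * F i (s - s0) a -
        ∑ a, (l a : ℂ) * (F i (s - s0) - Λ (s - s0)) a := by
      rw [← Finset.sum_sub_distrib]
      simp only [hG]
      exact Finset.sum_congr rfl fun a _ => by rw [Pi.sub_apply]; ring
    rw [h3] at h1
    have h4 := norm_sub_le (∑ a, (l a : ℂ) * F i (s - s0) a)
      (∑ a, (l a : ℂ) * (F i (s - s0) - Λ (s - s0)) a)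
    linarith
  obtain ⟨u, hu, s, hs, hfix, hzero⟩ := solve_pair (Ψ := Ψ) (Φ := Φ) (δ := g0 / 2) hτ1 hρ00 hρ0c
    hΨd hΦd hB' hi3 (by
      intro u hu
      rw [hΦe, sub_self, hF0]
      have h1 := hE1 u hu s0 (mem_ball_self hc2)
      have h2 := d.wn u hu
      have h3 : ‖∑ a, (l a : ℂ) * (d.L (u, s0) - d.L (cc, s0)) a +
          ∑ a, (l a : ℂ) * (0 : Fin n → ℂ) a + θ - (d.w u - d.w cc)‖ ≤
          A * η τ + g0 / 8 + η τ := by
        simp only [Pi.zero_apply, mul_zero, Finset.sum_const_zero, add_zero]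
        refine (norm_sub_le _ _).trans (add_le_add ((norm_add_le _ _).trans (add_le_add h1 hθn)) h2)
      refine h3.trans_lt ?_
      linarith) (by
      intro u hu s hs
      have hsb : s ∈ ball s0 (c / 2) := by
        rw [mem_ball, mem_sphere.1 hs]; exact hρ0c
      rw [hΦe]
      have h1 := hE1 u hu s hsb
      have h2 := d.wn u hu
      have h3 := hFl s hs
      have h4 : ∑ a, (l a : ℂ) * F i (s - s0) a =
          (∑ a, (l a : ℂ) * (d.L (u, s) - d.L (cc, s)) a + ∑ a, (l a : ℂ) * F i (s - s0) a + θ -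
            (d.w u - d.w cc)) - (∑ a, (l a : ℂ) * (d.L (u, s) - d.L (cc, s)) a + θ -
            (d.w u - d.w cc)) := by ring
      rw [h4] at h3
      have h5 := norm_sub_le (∑ a, (l a : ℂ) * (d.L (u, s) - d.L (cc, s)) a +
        ∑ a, (l a : ℂ) * F i (s - s0) a + θ - (d.w u - d.w cc))
        (∑ a, (l a : ℂ) * (d.L (u, s) - d.L (cc, s)) a + θ - (d.w u - d.w cc))
      have h6 : ‖∑ a, (l a : ℂ) * (d.L (u, s) - d.L (cc, s)) a + θ - (d.w u - d.w cc)‖ ≤
          A * η τ + g0 / 8 + η τ :=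
        (norm_sub_le _ _).trans (add_le_add ((norm_add_le _ _).trans (add_le_add h1 hθn)) h2)
      linarith)
  -- the exponential point
  have hg := d.good u hu s (hsub s (closedBall_subset_ball hρ0c hs))
  refine ⟨fun a => Complex.I * (τ : ℂ) ^ Me * (κ a : ℂ) + u a, ?_⟩
  have hlu : ∑ k, (l k : ℂ) * u k = d.w u := by
    simp only [hΦ, hfix] at hzero
    exact sub_eq_zero.1 hzero
  have e1 : (fun i => Complex.I * (τ : ℂ) ^ Me * (κ i : ℂ) + u i +
      (d.w u - ∑ k, (l k : ℂ) * u k) * (v i : ℂ)) =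
      fun a => Complex.I * (τ : ℂ) ^ Me * (κ a : ℂ) + u a := by
    funext a
    rw [hlu]; ring
  have e2 : (fun a => Complex.exp (Complex.I * (τ : ℂ) ^ Me * (κ a : ℂ) + u a)) =
      fun a => Complex.exp (d.L (u, s) a) := by
    funext a
    rw [Complex.exp_eq_exp_iff_exists_int]
    refine ⟨M a - kk a, ?_⟩
    have h1 : u a = Ψ (u, s) a := by rw [hfix]
    rw [h1]
    simp only [hΨ]
    push_cast
    ring
  rw [e1] at hg
  rw [e2]
  exact hg

end Pool.Agent.Helper57.HT
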