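import Pool.Agent.Helper57.RA.Flat

/-!
Project HT (helper57): lifting of holomorphic families through finite extensions.
-/

set_option autoImplicit false

namespace Pool.Agent.Helper57.HT

open MvPolynomial Filter Topology Metric Pool.Agent.W996.EC Pool.Agent.Q72.EG

theorem exists_pt {E : Type} [Field E] [Algebra ℂ E] {σ : Type} [Finite σ] {ξ : σ → E}
    {g : MvPolynomial σ ℂ} (hg : aeval ξ g ≠ 0) : ∃ p ∈ Pt ξ, eval p g ≠ 0 := by
  set I : Ideal (MvPolynomial σ ℂ) :=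
    RingHom.ker (aeval ξ : MvPolynomial _ ℂ →ₐ[ℂ] E).toRingHom with hI
  have hIp : I.IsPrime := RingHom.ker_isPrime _
  have hmemI : ∀ q, q ∈ I ↔ aeval ξ q = 0 := fun q => RingHom.mem_ker
  by_contra hcon
  push Not at hcon
  have h1 : (1 : MvPolynomial σ ℂ) ∈ I := by
    refine Pool.Agent.W333.ECV.nullst I hIp g ?_ 1 ?_
    · rw [hmemI]
      exact hg
    · intro p hp hp2
      exact absurd (hcon p fun q hq => hp q ((hmemI q).2 hq)) hp2
  rw [hmemI, map_one] at h1
  exact one_ne_zero h1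

/-- **lifting** -/
theorem lift_alg {E : Type} [Field E] [Algebra ℂ E] {σ ι : Type} [Finite σ] [Finite ι]
    (ζ : σ → E) (f : ι → E)
    (hall : ∀ k, IsAlgebraic (IntermediateField.adjoin ℂ (Set.range ζ)) (f k)) :
    ∃ H1 : MvPolynomial σ ℂ, aeval ζ H1 ≠ 0 ∧ ∀ {V : Type} [NormedAddCommGroup V]
      [NormedSpace ℂ V] [FiniteDimensional ℂ V] (U : Set V), IsOpen U → Convex ℝ U → U.Nonempty →
      ∀ t : V → σ → ℂ, (∀ i, DifferentiableOn ℂ (fun u => t u i) U) → (∀ u ∈ U, t u ∈ Pt ζ) →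
      (∀ u ∈ U, eval (t u) H1 ≠ 0) → ∃ q : V → ι → ℂ,
        (∀ k, DifferentiableOn ℂ (fun u => q u k) U) ∧
        ∀ u ∈ U, Sum.elim (t u) (q u) ∈ Pt (Sum.elim ζ f) := by
  classical
  obtain ⟨Θ, H1, g, hH1, ha, hb, hc⟩ := Pool.Agent.Q166.EG.alg E σ ι ζ f hall
  refine ⟨H1, hH1, ?_⟩
  intro V _ _ _ U hUo hUc hUne t htd htP htH
  -- the degree
  obtain ⟨p0, hp0, hp0H⟩ : ∃ p ∈ Pt (Sum.elim ζ f), eval p (rename Sum.inl H1) ≠ 0 := by
    apply exists_pt
    rw [aeval_rename]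
    exact hH1
  have hdeg : Θ.natDegree ≠ 0 := by
    intro h0
    have e1 : Sum.elim (p0 ∘ Sum.inl) (p0 ∘ Sum.inr) = p0 := Sum.elim_comp_inl_inr p0
    rw [eval_rename] at hp0H
    obtain ⟨z, hz, -⟩ := hb (p0 ∘ Sum.inl) (p0 ∘ Sum.inr) (by rw [e1]; exact hp0) hp0H
    have hpζ : p0 ∘ Sum.inl ∈ Pt ζ := by
      intro q hq
      have := hp0 (rename Sum.inl q) (by rw [aeval_rename]; exact hq)
      rwa [eval_rename] at this
    have h3 := (ha _ hpζ hp0H).1
    have h4 := Polynomial.eq_C_of_natDegree_eq_zero h0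
    rw [h4, Polynomial.map_C, Polynomial.eval_C] at hz
    apply h3
    rw [Polynomial.leadingCoeff, h0]
    exact hz
  obtain ⟨d, hd⟩ : ∃ d, Θ.natDegree = d + 1 := ⟨Θ.natDegree - 1, by omega⟩
  have hlc0 : ∀ u ∈ U, eval (t u) Θ.leadingCoeff ≠ 0 := fun u hu => (ha _ (htP u hu) (htH u hu)).1
  -- the polynomial
  set F : V → ℂ → ℂ := fun u z => (Θ.map (eval (t u))).eval z with hF
  have hcoeff : ∀ u j, (Θ.map (eval (t u))).coeff j = eval (t u) (Θ.coeff j) := fun u j =>
    Polynomial.coeff_map _ _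
  have hcd : ∀ j, DifferentiableOn ℂ (fun u => eval (t u) (Θ.coeff j)) U := fun j =>
    Pool.Agent.Helper57.RA.diff_eval' htd (Θ.coeff j)
  have hdegu : ∀ u ∈ U, (Θ.map (eval (t u))).natDegree = Θ.natDegree := fun u hu =>
    Polynomial.natDegree_map_of_leadingCoeff_ne_zero _ (hlc0 u hu)
  have hFsum : ∀ u ∈ U, ∀ z, F u z = ∑ j ∈ Finset.range (d + 2), eval (t u) (Θ.coeff j) * z ^ j := by
    intro u hu z
    simp only [hF]
    rw [Polynomial.eval_eq_sum_range, hdegu u hu, hd]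
    simp only [hcoeff]
  have hFc : ContDiffOn ℂ 1 (fun p : V × ℂ => F p.1 p.2) (U ×ˢ Set.univ) := by
    have hopen : IsOpen (U ×ˢ (Set.univ : Set ℂ)) := hUo.prod isOpen_univ
    have h3 : DifferentiableOn ℂ (fun p : V × ℂ => F p.1 p.2) (U ×ˢ Set.univ) := by
      have h4 : DifferentiableOn ℂ (fun p : V × ℂ =>
          ∑ j ∈ Finset.range (d + 2), eval (t p.1) (Θ.coeff j) * p.2 ^ j) (U ×ˢ Set.univ) := by
        refine DifferentiableOn.fun_sum fun j _ => ?_
        have h5 : DifferentiableOn ℂ (fun p : V × ℂ => eval (t p.1) (Θ.coeff j))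
            (U ×ˢ Set.univ) :=
          (hcd j).comp differentiableOn_fst fun p hp => hp.1
        exact h5.mul (differentiableOn_snd.pow j)
      exact h4.congr fun p hp => hFsum p.1 hp.1 p.2
    exact_mod_cast Sq58.Holo.contDiffOn_of_differentiableOn hopen h3 1
  have hprop : ∀ C : Set V, C ⊆ U → IsCompact C → ∀ B : ℝ, ∃ B' : ℝ, ∀ s ∈ C, ∀ z,
      ‖F s z‖ ≤ B → ‖z‖ ≤ B' := by
    intro C hCU hC B
    rcases C.eq_empty_or_nonempty with rfl | hCn
    · exact ⟨0, fun s hs => absurd hs (Set.notMem_empty s)⟩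
    obtain ⟨s0, hs0, hmin⟩ := hC.exists_isMinOn hCn
      (f := fun s => ‖eval (t s) Θ.leadingCoeff‖)
      (((Pool.Agent.Helper57.RA.diff_eval' htd Θ.leadingCoeff).continuousOn.mono hCU).norm)
    obtain ⟨s1, hs1, hmax⟩ := hC.exists_isMaxOn hCn
      (f := fun s => ∑ i ∈ Finset.range (d + 2), ‖eval (t s) (Θ.coeff i)‖)
      (continuousOn_finsetSum _ fun i _ => ((hcd i).continuousOn.mono hCU).norm)
    set m := ‖eval (t s0) Θ.leadingCoeff‖ with hm
    set A := ∑ i ∈ Finset.range (d + 2), ‖eval (t s1) (Θ.coeff i)‖ with hA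
    have hm0 : 0 < m := norm_pos_iff.2 (hlc0 s0 (hCU hs0))
    have hA0 : 0 ≤ A := Finset.sum_nonneg fun _ _ => norm_nonneg _
    refine ⟨(|B| + (d + 1) * A) / m + 1, fun s hs z hz => ?_⟩
    refine Pool.Agent.Q239.EG.root_bound (p := Θ.map (eval (t s))) (d := d)
      (by rw [hdegu s (hCU hs), hd]) hm0 (abs_nonneg B) hA0 ?_ ?_ (hz.trans (le_abs_self _))
    · rw [hcoeff, ← hd]
      exact hmin hs
    · intro j
      rw [hcoeff]
      by_cases hj : j < d + 2
      · refine le_trans ?_ (hmax hs)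
        exact Finset.single_le_sum (f := fun i => ‖eval (t s) (Θ.coeff i)‖)
          (fun _ _ => norm_nonneg _) (Finset.mem_range.2 hj)
      · rw [Polynomial.coeff_eq_zero_of_natDegree_lt (by omega), map_zero, norm_zero]
        exact hA0
  have hsimple : ∀ s ∈ U, ∀ z, F s z = 0 → deriv (F s) z ≠ 0 := by
    intro s hs z hz
    have h3 := (ha (t s) (htP s hs) (htH s hs)).2 z hz
    simp only [hF]
    rwa [Polynomial.deriv]
  obtain ⟨c, hcU⟩ := hUne
  obtain ⟨z0, hz0⟩ : ∃ z0, F c z0 = 0 := by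
    have h1 : (Θ.map (eval (t c))).degree ≠ 0 := by
      intro h
      have := Polynomial.natDegree_eq_zero_iff_degree_le_zero.2 h.le
      rw [hdegu c hcU, hd] at this
      omega
    exact IsAlgClosed.exists_root _ h1
  obtain ⟨Z, hZd, hZc, hZ, -⟩ := Pool.Agent.H713R3.ZA.ROOT.main U F hUo hUc hFc hprop
    hsimple c hcU z0 hz0
  refine ⟨fun u k => ((g k).map (eval (t u))).eval (Z u) / eval (t u) H1, fun k => ?_,
    fun u hu => hc (t u) (htP u hu) (htH u hu) (Z u) (hZ u hu)⟩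
  simp only [div_eq_mul_inv]
  refine DifferentiableOn.mul ?_ ((Pool.Agent.Helper57.RA.diff_eval' htd H1).inv htH)
  have h3 : ∀ p : Polynomial (MvPolynomial σ ℂ),
      DifferentiableOn ℂ (fun u => (p.map (eval (t u))).eval (Z u)) U := by
    intro p
    induction p using Polynomial.induction_on' with
    | add p q hp hq =>
      simp only [Polynomial.map_add, Polynomial.eval_add]
      exact hp.add hq
    | monomial m a =>
      simp only [Polynomial.map_monomial, Polynomial.eval_monomial]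
      exact (Pool.Agent.Helper57.RA.diff_eval' htd a).mul (hZd.pow m)
  exact h3 _

end Pool.Agent.Helper57.HT
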