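import Pool.Graph.R_pool_sql_team_seeded_3997aac3.Q252.EG.Fix

/-!
Project HT (helper57): a fixed point together with a zero of a function.
-/

set_option autoImplicit false

namespace Pool.Agent.Helper57.HT

open Filter Topology Metric

/-- a zero by the minimum principle -/
theorem exists_zero {F : ℂ → ℂ} {s0 : ℂ} {r ρ0 δ : ℝ} (hρ0 : 0 < ρ0) (hr : ρ0 < r)
    (hF : DifferentiableOn ℂ F (ball s0 r)) (h0 : ‖F s0‖ < δ)
    (hs : ∀ s ∈ sphere s0 ρ0, δ ≤ ‖F s‖) : ∃ s ∈ closedBall s0 ρ0, F s = 0 := by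
  by_contra hcon
  push Not at hcon
  have hsub : closedBall s0 ρ0 ⊆ ball s0 r := closedBall_subset_ball hr
  have hδ : 0 < δ := (norm_nonneg _).trans_lt h0
  have hd : DiffContOnCl ℂ (fun s => (F s)⁻¹) (ball s0 ρ0) := by
    refine ⟨?_, ?_⟩
    · exact (hF.mono (ball_subset_closedBall.trans hsub)).inv fun s hs => hcon s (ball_subset_closedBall hs)
    · rw [closure_ball _ hρ0.ne']
      exact (hF.mono hsub).continuousOn.inv₀ hcon
  have h1 := Complex.norm_le_of_forall_mem_frontier_norm_le isBounded_ball hd (C := δ⁻¹) (by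
    intro s hs'
    rw [frontier_ball _ hρ0.ne'] at hs'
    rw [norm_inv]
    exact inv_anti₀ hδ (hs s hs')) (z := s0) (subset_closure (mem_ball_self hρ0))
  rw [norm_inv] at h1
  have h2 : 0 < ‖F s0‖ := norm_pos_iff.2 (hcon s0 (mem_closedBall_self hρ0.le))
  have h3 := (inv_le_inv₀ h2 hδ).1 h1
  linarith

/-- **a fixed point with a zero** -/
theorem solve_pair {n : ℕ} {c0 : Fin n → ℂ} {s0 : ℂ} {ρ r ρ0 B δ : ℝ}
    {Ψ : (Fin n → ℂ) × ℂ → Fin n → ℂ} {Φ : (Fin n → ℂ) × ℂ → ℂ} (hρ : 0 < ρ) (hρ0 : 0 < ρ0)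
    (hr : ρ0 < r)
    (hΨ : DifferentiableOn ℂ Ψ (ball c0 ρ ×ˢ ball s0 r))
    (hΦ : DifferentiableOn ℂ Φ (ball c0 ρ ×ˢ ball s0 r))
    (hB : ∀ p ∈ ball c0 ρ ×ˢ ball s0 r, ‖Ψ p - c0‖ ≤ B) (h8 : 8 * B < ρ)
    (hc : ∀ u ∈ ball c0 ρ, ‖Φ (u, s0)‖ < δ)
    (hs : ∀ u ∈ ball c0 ρ, ∀ s ∈ sphere s0 ρ0, δ ≤ ‖Φ (u, s)‖) :
    ∃ u ∈ ball c0 ρ, ∃ s ∈ closedBall s0 ρ0, Ψ (u, s) = u ∧ Φ (u, s) = 0 := by
  have hr0 : 0 < r := hρ0.trans hr
  have hB0 : 0 ≤ B := (norm_nonneg _).trans (hB (c0, s0) ⟨mem_ball_self hρ, mem_ball_self hr0⟩)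
  set U : ℕ → ℂ → Fin n → ℂ := fun k => Nat.rec (fun _ => c0) (fun _ f s => Ψ (f s, s)) k with hU
  have hU0 : ∀ s, U 0 s = c0 := fun s => rfl
  have hU1 : ∀ k s, U (k + 1) s = Ψ (U k s, s) := fun k s => rfl
  have hmem : ∀ k, ∀ s ∈ ball s0 r, U k s ∈ closedBall c0 (ρ / 8) := by
    intro k
    induction k with
    | zero => intro s _; rw [hU0]; exact mem_closedBall_self (by positivity)
    | succ k ih =>
      intro s hs'
      rw [hU1, mem_closedBall, dist_eq_norm]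
      have h1 := hB (U k s, s) ⟨closedBall_subset_ball (by linarith) (ih s hs'), hs'⟩
      linarith
  have hmem' : ∀ k, ∀ s ∈ ball s0 r, U k s ∈ ball c0 ρ := fun k s hs' =>
    closedBall_subset_ball (by linarith) (hmem k s hs')
  have hdiff : ∀ k, DifferentiableOn ℂ (U k) (ball s0 r) := by
    intro k
    induction k with
    | zero => exact differentiableOn_const c0
    | succ k ih =>
      exact hΨ.comp (ih.prodMk differentiableOn_id) fun s hs' => ⟨hmem' k s hs', hs'⟩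
  have hcontr : ∀ k, ∀ s ∈ ball s0 r, dist (U (k + 1) s) (U k s) ≤ (1 / 3) ^ k * B := by
    intro k
    induction k with
    | zero =>
      intro s hs'
      rw [hU1, hU0, dist_eq_norm, pow_zero, one_mul]
      exact hB _ ⟨mem_ball_self hρ, hs'⟩
    | succ k ih =>
      intro s hs'
      have h1 := Pool.Agent.Q252.EG.lip (h := fun u => Ψ (u, s) - c0) hρ
        ((hΨ.comp (differentiableOn_id.prodMk (differentiableOn_const s))
          (fun u hu => ⟨hu, hs'⟩)).sub (differentiableOn_const c0))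
        (fun u hu => hB _ ⟨hu, hs'⟩) h8
        (closedBall_subset_closedBall (by linarith) (hmem (k + 1) s hs'))
        (closedBall_subset_closedBall (by linarith) (hmem k s hs'))
      rw [dist_sub_right] at h1
      have h2 := ih s hs'
      rw [hU1 (k + 1), hU1 k] at *
      calc dist (Ψ (Ψ (U k s, s), s)) (Ψ (U k s, s)) ≤ 1 / 3 * dist (Ψ (U k s, s)) (U k s) := h1
        _ ≤ 1 / 3 * ((1 / 3) ^ k * B) := by gcongr
        _ = (1 / 3) ^ (k + 1) * B := by ring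
  have hzero : ∀ k, ∃ s ∈ closedBall s0 ρ0, Φ (U k s, s) = 0 := by
    intro k
    refine exists_zero (F := fun s => Φ (U k s, s)) (δ := δ) hρ0 hr ?_ ?_ ?_
    · exact hΦ.comp ((hdiff k).prodMk differentiableOn_id) fun s hs' => ⟨hmem' k s hs', hs'⟩
    · exact hc _ (hmem' k s0 (mem_ball_self hr0))
    · intro s hs'
      refine hs _ (hmem' k s ?_) s hs'
      exact closedBall_subset_ball hr (sphere_subset_closedBall hs')
  choose σ hσ hσ0 using hzero
  have hσr : ∀ k, σ k ∈ ball s0 r := fun k => closedBall_subset_ball hr (hσ k)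
  obtain ⟨p, hp, ψ, hψ, hlim⟩ := ((isCompact_closedBall c0 (ρ / 8)).prod
    (isCompact_closedBall s0 ρ0)).tendsto_subseq (x := fun k => (U k (σ k), σ k))
    (fun k => ⟨hmem k _ (hσr k), hσ k⟩)
  have hpin : p ∈ ball c0 ρ ×ˢ ball s0 r :=
    ⟨closedBall_subset_ball (by linarith) hp.1, closedBall_subset_ball hr hp.2⟩
  have hopen : ball c0 ρ ×ˢ ball s0 r ∈ 𝓝 p := (isOpen_ball.prod isOpen_ball).mem_nhds hpin
  refine ⟨p.1, hpin.1, p.2, hp.2, ?_, ?_⟩
  · have h1 : Tendsto (fun k => Ψ (U (ψ k) (σ (ψ k)), σ (ψ k))) atTop (𝓝 (Ψ p)) :=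
      (hΨ.continuousOn.continuousAt hopen).tendsto.comp hlim
    have h2 : Tendsto (fun k => U (ψ k) (σ (ψ k))) atTop (𝓝 p.1) :=
      (continuous_fst.tendsto p).comp hlim
    have h3 : Tendsto (fun k => dist (Ψ (U (ψ k) (σ (ψ k)), σ (ψ k))) (U (ψ k) (σ (ψ k)))) atTop
        (𝓝 0) := by
      have h4 : Tendsto (fun k => ((1 : ℝ) / 3) ^ (ψ k) * B) atTop (𝓝 (0 * B)) :=
        ((tendsto_pow_atTop_nhds_zero_of_lt_one (by norm_num) (by norm_num)).comp
          hψ.tendsto_atTop).mul_const B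
      rw [zero_mul] at h4
      exact squeeze_zero (fun k => dist_nonneg) (fun k => hcontr (ψ k) _ (hσr _)) h4
    have h5 := tendsto_nhds_unique h3 (h1.dist h2)
    exact dist_eq_zero.1 h5.symm
  · have h1 : Tendsto (fun k => Φ (U (ψ k) (σ (ψ k)), σ (ψ k))) atTop (𝓝 (Φ p)) :=
      (hΦ.continuousOn.continuousAt hopen).tendsto.comp hlim
    have h2 : (fun k => Φ (U (ψ k) (σ (ψ k)), σ (ψ k))) = fun _ => (0 : ℂ) := funext fun k => hσ0 _
    rw [h2] at h1
    exact tendsto_nhds_unique h1 tendsto_const_nhds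

end Pool.Agent.Helper57.HT
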