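import Pool.Agent.Helper57.RA.Solve
import Pool.Agent.Helper57.RA.Geo
import Pool.Agent.Helper57.HT.Fin

/-!
Project HT (helper57): bounded pieces of the hypersurface near flat rays.
-/

set_option autoImplicit false

namespace Pool.Agent.Helper57.HT

open MvPolynomial Filter Topology Metric Pool.Agent.W996.EC Pool.Agent.Q72.EG

variable {n : ℕ}

/-- the points `i τ^Me κ + u + (w - l u) v` -/
noncomputable def xp (l v κ : Fin n → ℝ) (Me : ℕ) (τ : ℝ) (u : Fin n → ℂ) (w : ℂ) : Fin n → ℂ :=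
  fun i => Complex.I * (τ : ℂ) ^ Me * (κ i : ℂ) + u i + (w - ∑ k, (l k : ℂ) * u k) * (v i : ℂ)

/-- substitution -/
noncomputable def sb (κ : Fin n → ℝ) (Me : ℕ) (ρ : MvPolynomial (Fin n) ℂ) :
    Polynomial (MvPolynomial (Fin n) ℂ) :=
  aeval (fun i => Polynomial.X ^ Me * Polynomial.C (C (Complex.I * (κ i : ℂ))) +
    Polynomial.X * Polynomial.C (X i)) ρ

theorem eval_sb (κ : Fin n → ℝ) (Me : ℕ) (ρ : MvPolynomial (Fin n) ℂ) (z : Fin n → ℂ) (t : ℂ) :
    ((sb κ Me ρ).map (eval z)).eval t =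
      eval (fun i => Complex.I * t ^ Me * (κ i : ℂ) + t * z i) ρ := by
  unfold sb
  induction ρ using MvPolynomial.induction_on with
  | C c =>
    rw [aeval_C, eval_C]
    rw [show (algebraMap ℂ (Polynomial (MvPolynomial (Fin n) ℂ))) c = Polynomial.C (C c) from rfl]
    simp
  | add p q hp hq => rw [map_add, Polynomial.map_add, Polynomial.eval_add, hp, hq, map_add]
  | mul_X p i hp =>
    rw [map_mul, Polynomial.map_mul, Polynomial.eval_mul, hp, map_mul, aeval_X, eval_X]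
    congr 1
    simp
    ring

/-- nonvanishing far away -/
theorem nv {ρ : MvPolynomial (Fin n) ℂ} (hρ : ρ ≠ 0) (κ : Fin n → ℝ) (Me : ℕ) :
    ∃ ρh : MvPolynomial (Fin n) ℂ, ρh ≠ 0 ∧ ∀ z0, eval z0 ρh ≠ 0 →
      ∃ r c T0 : ℝ, 0 < r ∧ 0 < c ∧ 1 ≤ T0 ∧ ∀ z ∈ ball z0 r, ∀ τ : ℝ, T0 ≤ τ →
        c ≤ ‖eval (fun i => Complex.I * (τ : ℂ) ^ Me * (κ i : ℂ) + (τ : ℂ) * z i) ρ‖ := by
  set q := sb κ Me ρ with hq
  have hq0 : q ≠ 0 := by
    intro h
    apply hρ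
    apply MvPolynomial.funext
    intro u
    have h1 := eval_sb κ Me ρ (fun i => u i - Complex.I * (κ i : ℂ)) 1
    rw [← hq, h] at h1
    simp only [Polynomial.map_zero, Polynomial.eval_zero, one_pow, mul_one, one_mul,
      add_sub_cancel] at h1
    rw [map_zero, ← h1]
  refine ⟨q.leadingCoeff, Polynomial.leadingCoeff_ne_zero.2 hq0, fun z0 hz0 => ?_⟩
  set N := q.natDegree with hN
  set G : (Fin n → ℂ) × ℂ → ℂ := fun p => ∑ j ∈ Finset.range (N + 1),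
    eval p.1 (q.coeff j) * p.2 ^ (N - j) with hG
  have hGc : Continuous G := by
    simp only [hG]
    refine continuous_finsetSum _ fun j _ => ?_
    exact ((MvPolynomial.continuous_eval _).comp continuous_fst).mul (continuous_snd.pow _)
  have hG0 : G (z0, 0) = eval z0 q.leadingCoeff := by
    simp only [hG]
    rw [Finset.sum_range_succ, Finset.sum_eq_zero]
    · rw [Nat.sub_self, pow_zero, mul_one, zero_add, Polynomial.leadingCoeff, ← hN]
    · intro j hj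
      rw [Finset.mem_range] at hj
      rw [zero_pow (by omega), mul_zero]
  have hc0 : 0 < ‖eval z0 q.leadingCoeff‖ := norm_pos_iff.2 hz0
  have hev : ∀ᶠ p : (Fin n → ℂ) × ℂ in 𝓝 (z0, 0), ‖eval z0 q.leadingCoeff‖ / 2 < ‖G p‖ := by
    refine (hGc.norm.tendsto (z0, 0)).eventually (lt_mem_nhds ?_)
    rw [hG0]; linarith
  obtain ⟨ε, hε, hball⟩ := Metric.eventually_nhds_iff_ball.1 hev
  rw [← ball_prod_same] at hball
  refine ⟨ε, ‖eval z0 q.leadingCoeff‖ / 2, max 1 (2 / ε), hε, by linarith, le_max_left _ _, ?_⟩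
  intro z hz τ hτ
  have hτ1 : 1 ≤ τ := (le_max_left _ _).trans hτ
  have hτ2 : 2 / ε ≤ τ := (le_max_right _ _).trans hτ
  have hτ0 : 0 < τ := by linarith
  have hτc : (τ : ℂ) ≠ 0 := by exact_mod_cast hτ0.ne'
  have hs : ((τ : ℂ)⁻¹) ∈ ball (0 : ℂ) ε := by
    rw [mem_ball_zero_iff, norm_inv, Complex.norm_real, Real.norm_eq_abs, abs_of_pos hτ0]
    rw [inv_lt_iff_one_lt_mul₀ hτ0]
    rw [div_le_iff₀ hε] at hτ2
    linarith
  have h1 := hball (z, (τ : ℂ)⁻¹) ⟨hz, hs⟩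
  have h2 : eval (fun i => Complex.I * (τ : ℂ) ^ Me * (κ i : ℂ) + (τ : ℂ) * z i) ρ =
      (τ : ℂ) ^ N * G (z, (τ : ℂ)⁻¹) := by
    rw [← eval_sb, ← hq, Polynomial.eval_map, Polynomial.eval₂_eq_sum_range, ← hN]
    simp only [hG]
    rw [Finset.mul_sum]
    refine Finset.sum_congr rfl fun j hj => ?_
    rw [Finset.mem_range] at hj
    have h3 : (τ : ℂ) ^ N = (τ : ℂ) ^ (N - j) * (τ : ℂ) ^ j := by
      rw [← pow_add]; congr 1; omega
    rw [h3, inv_pow]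
    field_simp
  rw [h2, norm_mul, norm_pow, Complex.norm_real, Real.norm_eq_abs, abs_of_pos hτ0]
  have h3 : 1 ≤ τ ^ N := one_le_pow₀ hτ1
  nlinarith [norm_nonneg (G (z, (τ : ℂ)⁻¹))]

/-- rays along which the hypersurface becomes flat -/
def FlatRay (P : MvPolynomial (Fin n) ℂ) (l v κ : Fin n → ℝ) (Me : ℕ) : Prop :=
  ∃ (F : (Fin n → ℂ) × ℂ × ℂ → ℂ) (f : Polynomial ℂ) (c : ℝ → ℂ), Continuous F ∧
    1 ≤ f.natDegree ∧ (∀ z w, F (z, w, 0) = f.eval w) ∧
    ∀ τ : ℝ, 0 < τ → c τ ≠ 0 ∧ ∀ (z : Fin n → ℂ) (w : ℂ),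
      eval (xp l v κ Me τ (fun i => (τ : ℂ) * z i) w) P = c τ * F (z, w, (τ : ℂ)⁻¹)

/-- bounded pieces of the hypersurface along a ray -/
def HasReg (P : MvPolynomial (Fin n) ℂ) (l v κ : Fin n → ℝ) (Me : ℕ) : Prop :=
  ∀ a : MvPolynomial (Fin n) ℂ, ¬ P ∣ a → ∃ (κ1 : Fin n → ℝ) (D : ℕ) (B r : ℝ),
    ∑ i, l i * κ1 i = 0 ∧ 0 < r ∧ ∀ᶠ τ : ℝ in atTop, ∃ w : (Fin n → ℂ) → ℂ,
      DifferentiableOn ℂ w (ball (cen κ1 τ) (r * τ)) ∧
      ∀ u ∈ ball (cen κ1 τ) (r * τ), eval (xp l v κ Me τ u (w u)) P = 0 ∧ ‖w u‖ ≤ B ∧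
        (∀ i, ‖xp l v κ Me τ u (w u) i‖ ≤ τ ^ D) ∧
        1 ≤ τ ^ D * ‖eval (xp l v κ Me τ u (w u)) a‖

theorem xp_shift {l v : Fin n → ℝ} (hlv : ∑ i, l i * v i = 1) (κ : Fin n → ℝ) (Me : ℕ) (τ : ℝ)
    (u : Fin n → ℂ) (β w : ℂ) :
    xp l v κ Me τ (fun i => u i + β * (v i : ℂ)) w = xp l v κ Me τ u w := by
  have h1 : ∑ k, (l k : ℂ) * (u k + β * (v k : ℂ)) = ∑ k, (l k : ℂ) * u k + β := by
    have h2 : ∑ k, (l k : ℂ) * (v k : ℂ) = 1 := by exact_mod_cast hlv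
    simp only [mul_add, Finset.sum_add_distrib]
    congr 1
    calc ∑ k, (l k : ℂ) * (β * (v k : ℂ)) = β * ∑ k, (l k : ℂ) * (v k : ℂ) := by
          rw [Finset.mul_sum]; exact Finset.sum_congr rfl fun k _ => by ring
      _ = β := by rw [h2, mul_one]
  funext i
  simp only [xp, h1]
  ring

theorem not_inv {P : MvPolynomial (Fin n) ℂ} {l v κ : Fin n → ℝ} {Me : ℕ}
    (h : FlatRay P l v κ Me) :
    ∃ (x : Fin n → ℂ) (t : ℂ), eval (fun i => x i + t * (v i : ℂ)) P ≠ eval x P := by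
  obtain ⟨F, f, c, hF, hf, hF0, hFc⟩ := h
  by_contra hcon
  push Not at hcon
  have h1 : ∀ (k : ℕ) (w : ℂ), F (0, w, (((k : ℝ) + 1 : ℝ) : ℂ)⁻¹) =
      F (0, 0, (((k : ℝ) + 1 : ℝ) : ℂ)⁻¹) := by
    intro k w
    have hk : (0 : ℝ) < (k : ℝ) + 1 := by positivity
    obtain ⟨hc, hE⟩ := hFc _ hk
    have e1 := hE 0 w
    have e2 := hE 0 0
    have e3 : eval (xp l v κ Me ((k : ℝ) + 1) (fun i => (((k : ℝ) + 1 : ℝ) : ℂ) *
        (0 : Fin n → ℂ) i) w) P =
        eval (xp l v κ Me ((k : ℝ) + 1) (fun i => (((k : ℝ) + 1 : ℝ) : ℂ) *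
        (0 : Fin n → ℂ) i) 0) P := by
      rw [← hcon (xp l v κ Me ((k : ℝ) + 1) (fun i => (((k : ℝ) + 1 : ℝ) : ℂ) *
        (0 : Fin n → ℂ) i) 0) w]
      congr 1
      apply congrArg
      funext i
      simp only [xp]
      ring
    rw [e1, e2] at e3
    exact mul_left_cancel₀ hc e3
  have h2 : ∀ w : ℂ, f.eval w = f.eval 0 := by
    intro w
    rw [← hF0 0 w, ← hF0 0 0]
    have hlim : Tendsto (fun k : ℕ => ((((k : ℝ) + 1 : ℝ) : ℂ)⁻¹)) atTop (𝓝 0) := by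
      have h1 : Tendsto (fun k : ℕ => (((k : ℝ) + 1))⁻¹) atTop (𝓝 0) :=
        tendsto_inv_atTop_zero.comp (tendsto_atTop_add_const_right _ _ tendsto_natCast_atTop_atTop)
      have h2 := (Complex.continuous_ofReal.tendsto 0).comp h1
      rw [Complex.ofReal_zero] at h2
      refine h2.congr fun k => ?_
      simp
    have e1 : Tendsto (fun k : ℕ => F (0, w, ((((k : ℝ) + 1 : ℝ) : ℂ)⁻¹))) atTop (𝓝 (F (0, w, 0))) :=
      (hF.tendsto (0, w, 0)).comp (tendsto_const_nhds.prodMk_nhds (tendsto_const_nhds.prodMk_nhds hlim))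
    have e2 : Tendsto (fun k : ℕ => F (0, 0, ((((k : ℝ) + 1 : ℝ) : ℂ)⁻¹))) atTop (𝓝 (F (0, 0, 0))) :=
      (hF.tendsto (0, 0, 0)).comp (tendsto_const_nhds.prodMk_nhds (tendsto_const_nhds.prodMk_nhds hlim))
    refine tendsto_nhds_unique e1 (e2.congr fun k => (h1 k w).symm)
  have h3 : f = Polynomial.C (f.eval 0) := by
    apply Polynomial.funext
    intro w
    rw [h2 w, Polynomial.eval_C]
  rw [h3, Polynomial.natDegree_C] at hf
  omega

/-- a finite product is not zero at a suitable purely imaginary point -/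
theorem region {P : MvPolynomial (Fin n) ℂ} (hP : Irreducible P) {l v κ : Fin n → ℝ}
    (hlv : ∑ i, l i * v i = 1) {Me : ℕ} (hfr : FlatRay P l v κ Me) :
    HasReg P l v κ Me := by
  classical
  intro a ha
  have hinv := not_inv hfr
  obtain ⟨F, f, c, hFc, hf1, hF0, hFe⟩ := hfr
  -- elimination
  set p := Pool.Agent.Q252.EG.hat v P with hp
  have hdeg : p.natDegree ≠ 0 := Pool.Agent.Q252.EG.hat_deg v hinv
  have hprime : Prime p := Pool.Agent.Q252.EG.hat_prime v hP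
  have hnd : ¬ p ∣ Polynomial.derivative p := by
    intro h
    have h0 : Polynomial.derivative p ≠ 0 := by
      intro h0
      exact hdeg (Polynomial.derivative_eq_zero.1 h0)
    have h1 := Polynomial.natDegree_le_of_dvd h h0
    have h2 := Polynomial.natDegree_derivative_lt hdeg
    omega
  obtain ⟨ρ1, α1, β1, hρ1, hrel1⟩ := Pool.Agent.Q252.EG.bezout hprime.irreducible hdeg hnd
  obtain ⟨ρ3, α3, β3, hρ3, hrel3⟩ := Pool.Agent.Q252.EG.bezout (r := Pool.Agent.Q252.EG.hat v a)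
    hprime.irreducible hdeg (fun h => ha (Pool.Agent.Q252.EG.hat_dvd v h))
  have hρ2 : p.leadingCoeff ≠ 0 := Polynomial.leadingCoeff_ne_zero.2 hprime.ne_zero
  obtain ⟨ρh1, hρh1, hnv1⟩ := nv hρ1 κ Me
  obtain ⟨ρh2, hρh2, hnv2⟩ := nv hρ2 κ Me
  obtain ⟨ρh3, hρh3, hnv3⟩ := nv hρ3 κ Me
  obtain ⟨κ', -, hκ'⟩ := Pool.Agent.Q251.EG.Reg.perturb
    (mul_ne_zero (mul_ne_zero hρh1 hρh2) hρh3) (fun _ : Fin n => (0 : ℝ)) zero_lt_one
  rw [map_mul, map_mul] at hκ'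
  set z0 : Fin n → ℂ := fun i => Complex.I * (κ' i : ℂ) with hz0
  obtain ⟨r1, c1, T1, hr1, hc1, hT1, hb1⟩ := hnv1 z0 (left_ne_zero_of_mul (left_ne_zero_of_mul hκ'))
  obtain ⟨r2, c2, T2, hr2, hc2, hT2, hb2⟩ := hnv2 z0 (right_ne_zero_of_mul (left_ne_zero_of_mul hκ'))
  obtain ⟨r3, c3, T3, hr3, hc3, hT3, hb3⟩ := hnv3 z0 (right_ne_zero_of_mul hκ')
  -- the circle
  have hf0 : f ≠ 0 := by rintro rfl; simp at hf1
  obtain ⟨w0, hw0⟩ : ∃ w0, f.eval w0 = 0 := by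
    refine IsAlgClosed.exists_root f fun h => ?_
    have h1 := Polynomial.natDegree_eq_zero_iff_degree_le_zero.2 h.le
    omega
  have hroots : ∀ w, f.eval w = 0 → w ∈ f.roots.toFinset := fun w hw => by
    rw [Multiset.mem_toFinset, Polynomial.mem_roots hf0]
    exact hw
  obtain ⟨rw, hrw, -, hrwf⟩ : ∃ rw, 0 < rw ∧ rw < 1 ∧ ∀ w : ℂ, ‖w - w0‖ = rw → f.eval w ≠ 0 := by
    obtain ⟨x, h1, h2⟩ := (Set.Ioo_infinite (show (0 : ℝ) < 1 by norm_num)).exists_notMem_finset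
      (f.roots.toFinset.image fun w => ‖w - w0‖)
    refine ⟨x, h1.1, h1.2, fun w hw h0 => h2 ?_⟩
    rw [Finset.mem_image]
    exact ⟨w, hroots w h0, hw⟩
  obtain ⟨m0, hm0, hm0f⟩ : ∃ m0 : ℝ, 0 < m0 ∧ ∀ w : ℂ, ‖w - w0‖ = rw → m0 ≤ ‖f.eval w‖ := by
    have hK : IsCompact (sphere w0 rw) := isCompact_sphere _ _
    have hKn : (sphere w0 rw).Nonempty := NormedSpace.sphere_nonempty.2 hrw.le
    obtain ⟨x, hx, hmin⟩ := hK.exists_isMinOn hKn
      (f := fun w => ‖f.eval w‖) f.continuous.norm.continuousOn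
    refine ⟨‖f.eval x‖, norm_pos_iff.2 (hrwf x ?_), fun w hw => hmin ?_⟩
    · rw [← dist_eq_norm]; exact hx
    · rw [mem_sphere, dist_eq_norm]; exact hw
  have hev2 : ∀ᶠ q : (Fin n → ℂ) × ℂ in 𝓝 (z0, 0), ∀ w ∈ sphere w0 rw, m0 / 2 < ‖F (q.1, w, q.2)‖ := by
    refine (isCompact_sphere w0 rw).eventually_forall_of_forall_eventually fun w hw => ?_
    have h1 : Continuous (fun q : ((Fin n → ℂ) × ℂ) × ℂ => ‖F (q.1.1, q.2, q.1.2)‖) :=
      (hFc.comp (by fun_prop)).norm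
    refine (h1.tendsto ((z0, 0), w)).eventually (lt_mem_nhds ?_)
    show m0 / 2 < ‖F (z0, w, 0)‖
    rw [hF0]
    have := hm0f w (by rwa [mem_sphere, dist_eq_norm] at hw)
    linarith
  have hev3 : ∀ᶠ q : (Fin n → ℂ) × ℂ in 𝓝 (z0, 0), ‖F (q.1, w0, q.2)‖ < m0 / 2 := by
    have h1 : Continuous (fun q : (Fin n → ℂ) × ℂ => ‖F (q.1, w0, q.2)‖) :=
      (hFc.comp (by fun_prop)).norm
    refine (h1.tendsto (z0, 0)).eventually (gt_mem_nhds ?_)
    show ‖F (z0, w0, 0)‖ < m0 / 2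
    rw [hF0, hw0, norm_zero]
    linarith
  obtain ⟨ε, hε, hball⟩ := Metric.eventually_nhds_iff_ball.1 (hev2.and hev3)
  rw [← ball_prod_same] at hball
  -- the radius
  obtain ⟨r, hr, hre, hrr1, hrr2, hrr3⟩ : ∃ r : ℝ, 0 < r ∧ r ≤ ε ∧ r ≤ r1 ∧ r ≤ r2 ∧ r ≤ r3 :=
    ⟨min ε (min r1 (min r2 r3)), by positivity, min_le_left _ _,
      (min_le_right _ _).trans (min_le_left _ _),
      (min_le_right _ _).trans ((min_le_right _ _).trans (min_le_left _ _)),
      (min_le_right _ _).trans ((min_le_right _ _).trans (min_le_right _ _))⟩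
  set B : ℝ := ‖w0‖ + rw with hB
  set sκ : ℝ := ∑ i, l i * κ' i with hsκ
  set κ1 : Fin n → ℝ := fun i => κ' i - sκ * v i with hκ1
  have hlκ1 : ∑ i, l i * κ1 i = 0 := by
    have : ∑ i, l i * κ1 i = sκ - sκ * ∑ i, l i * v i := by
      rw [hsκ, Finset.mul_sum, ← Finset.sum_sub_distrib]
      exact Finset.sum_congr rfl fun i _ => by rw [hκ1]; ring
    rw [this, hlv]; ring
  -- bounds for all points
  set Sl : ℝ := ∑ k, |l k| with hSl
  set Sv : ℝ := ∑ k, |v k| with hSv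
  set Sk : ℝ := ∑ k, |κ k| with hSk
  set C0 : ℝ := ‖z0‖ + r with hC0
  have hSl0 : 0 ≤ Sl := Finset.sum_nonneg fun _ _ => abs_nonneg _
  have hSv0 : 0 ≤ Sv := Finset.sum_nonneg fun _ _ => abs_nonneg _
  have hSk0 : 0 ≤ Sk := Finset.sum_nonneg fun _ _ => abs_nonneg _
  have hC00 : 0 ≤ C0 := by rw [hC0]; positivity
  have hB0 : 0 ≤ B := by rw [hB]; positivity
  set C1 : ℝ := Sk + C0 + (B + Sl * C0) * (1 + Sv) with hC1
  have hC10 : 0 ≤ C1 := by rw [hC1]; positivity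
  set Dx : ℕ := Me + 2 with hDx
  -- a polynomial in three groups of variables
  obtain ⟨N1, hN1⟩ := Pool.Agent.Helper57.RA.poly_size (σ := Option (Fin n)) Dx
    ((optionEquivLeft ℂ (Fin n)).symm β3)
  obtain ⟨N3, hN3⟩ := Pool.Agent.Helper57.RA.le_two_pow c3⁻¹
  set D : ℕ := Dx + N1 + N3 with hD
  refine ⟨κ1, D, B, r, hlκ1, hr, ?_⟩
  filter_upwards [eventually_ge_atTop T1, eventually_ge_atTop T2, eventually_ge_atTop T3,
    eventually_ge_atTop (2 / ε), eventually_ge_atTop (2 + C1)] with τ hτ1 hτ2 hτ3 hτ4 hτ5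
  have hτ22 : 2 ≤ τ := by linarith
  have hτ11 : 1 ≤ τ := by linarith
  have hτ0 : 0 < τ := by linarith
  have hτc : (τ : ℂ) ≠ 0 := by exact_mod_cast hτ0.ne'
  have hσ : ((τ : ℂ)⁻¹) ∈ ball (0 : ℂ) ε := by
    rw [mem_ball_zero_iff, norm_inv, Complex.norm_real, Real.norm_eq_abs, abs_of_pos hτ0]
    rw [inv_lt_iff_one_lt_mul₀ hτ0]
    rw [div_le_iff₀ hε] at hτ4
    linarith
  obtain ⟨hcτ, hEτ⟩ := hFe τ hτ0
  -- the base point
  set b : (Fin n → ℂ) → Fin n → ℂ := fun z i =>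
    Complex.I * (τ : ℂ) ^ Me * (κ i : ℂ) + (τ : ℂ) * z i with hb
  set lz : (Fin n → ℂ) → ℂ := fun z => ∑ k, (l k : ℂ) * ((τ : ℂ) * z k) with hlz
  have hxp : ∀ (z : Fin n → ℂ) (w : ℂ), xp l v κ Me τ (fun i => (τ : ℂ) * z i) w =
      fun i => b z i + (w - lz z) * (v i : ℂ) := fun z w => rfl
  set U : Set (Fin n → ℂ) := ball z0 r with hU
  set Fτ : (Fin n → ℂ) → ℂ → ℂ := fun z w => eval (xp l v κ Me τ (fun i => (τ : ℂ) * z i) w) P with hFτ
  have hFτe : ∀ z w, Fτ z w = (p.map (eval (b z))).eval (w - lz z) := by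
    intro z w
    simp only [hFτ]
    rw [hp, Pool.Agent.Q252.EG.eval_hat, hxp]
  have hlzc : Continuous lz := by
    simp only [hlz]; fun_prop
  have hbc : Continuous b := by
    simp only [hb]; fun_prop
  have hFcd : ContDiffOn ℂ 1 (fun q : (Fin n → ℂ) × ℂ => Fτ q.1 q.2) (U ×ˢ Set.univ) := by
    refine ContDiff.contDiffOn ?_
    refine Pool.Agent.Q251.EG.Reg.contDiff_ev P
      (fun q : (Fin n → ℂ) × ℂ => xp l v κ Me τ (fun i => (τ : ℂ) * q.1 i) q.2) ?_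
    intro i
    simp only [xp]
    fun_prop
  have hprop : ∀ K : Set (Fin n → ℂ), K ⊆ U → IsCompact K → ∀ M : ℝ, ∃ B' : ℝ, ∀ s ∈ K, ∀ z,
      ‖Fτ s z‖ ≤ M → ‖z‖ ≤ B' := by
    intro K hK hKc M
    obtain ⟨B1, hB1⟩ := Pool.Agent.Q251.EG.Reg.proper p hdeg (b '' K) (hKc.image hbc) (by
        rintro _ ⟨q, hq, rfl⟩ h0
        have h1 := hb2 q (ball_subset_ball hrr2 (hK hq)) τ hτ2
        rw [show (eval (fun i => Complex.I * (τ : ℂ) ^ Me * (κ i : ℂ) + (τ : ℂ) * q i)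
          p.leadingCoeff) = 0 from h0, norm_zero] at h1
        linarith) M
    obtain ⟨B2, hB2⟩ := (hKc.bddAbove_image (f := fun z => ‖lz z‖) hlzc.norm.continuousOn)
    refine ⟨B1 + B2, fun s hs z hz => ?_⟩
    have h1 := hB1 _ ⟨s, hs, rfl⟩ (z - lz s) (by rw [← hFτe]; exact hz)
    have h2 : ‖lz s‖ ≤ B2 := hB2 ⟨s, hs, rfl⟩
    have h3 : ‖z‖ ≤ ‖z - lz s‖ + ‖lz s‖ := by
      have := norm_add_le (z - lz s) (lz s)
      rwa [sub_add_cancel] at this
    linarith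
  have hsimple : ∀ s ∈ U, ∀ z, Fτ s z = 0 → deriv (Fτ s) z ≠ 0 := by
    intro s hs z hz hd
    have h1 := hb1 s (ball_subset_ball hrr1 hs) τ hτ1
    have e2 : deriv (Fτ s) z = (Polynomial.derivative (p.map (eval (b s)))).eval (z - lz s) := by
      have h1 : Fτ s = fun w => (p.map (eval (b s))).eval (w - lz s) := funext (hFτe s)
      rw [h1]
      have h2 : HasDerivAt (fun w : ℂ => (p.map (eval (b s))).eval (w - lz s))
          ((Polynomial.derivative (p.map (eval (b s)))).eval (z - lz s) * 1) z :=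
        HasDerivAt.comp (h₂ := fun y => (p.map (eval (b s))).eval y) (h := fun w => w - lz s) z
          ((p.map (eval (b s))).hasDerivAt (z - lz s)) ((hasDerivAt_id z).sub_const _)
      rw [h2.deriv, mul_one]
    have e3 := congrArg (fun q => (Polynomial.map (eval (b s)) q).eval (z - lz s)) hrel1
    simp only [Polynomial.map_C, Polynomial.eval_C, Polynomial.map_add, Polynomial.map_mul,
      Polynomial.eval_add, Polynomial.eval_mul] at e3
    rw [← Polynomial.derivative_map, ← e2, ← hFτe, hz, hd] at e3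
    rw [show (eval (fun i => Complex.I * (τ : ℂ) ^ Me * (κ i : ℂ) + (τ : ℂ) * s i) ρ1) =
      eval (b s) ρ1 from rfl, e3] at h1
    simp at h1
    linarith
  have hz0U : z0 ∈ U := mem_ball_self hr
  have hUε : ∀ z ∈ U, (z, (τ : ℂ)⁻¹) ∈ ball z0 ε ×ˢ ball (0 : ℂ) ε := fun z hz =>
    ⟨ball_subset_ball hre hz, hσ⟩
  have hFτF : ∀ z w, Fτ z w = c τ * F (z, w, (τ : ℂ)⁻¹) := hEτ
  obtain ⟨ws, hws, hws0⟩ : ∃ ws, ‖ws - w0‖ < rw ∧ Fτ z0 ws = 0 := by
    obtain ⟨b1, b2⟩ := hball _ (hUε z0 hz0U)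
    have hcn : 0 < ‖c τ‖ := norm_pos_iff.2 hcτ
    refine Pool.Agent.Q251.EG.Reg.zero_in_disc (Fτ z0) ?_ w0 rw (‖c τ‖ * (m0 / 2)) hrw ?_ ?_
    · have h1 : Fτ z0 = fun w => (p.map (eval (b z0))).eval (w - lz z0) := funext (hFτe z0)
      rw [h1]
      have h2 : Differentiable ℂ (fun y : ℂ => (p.map (eval (b z0))).eval y) :=
        (p.map (eval (b z0))).differentiable
      exact h2.comp (g := fun y : ℂ => (p.map (eval (b z0))).eval y)
        (differentiable_id.sub_const (lz z0))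
    · rw [hFτF, norm_mul]
      exact mul_lt_mul_of_pos_left b2 hcn
    · intro ω hω
      rw [hFτF, norm_mul]
      exact mul_le_mul_of_nonneg_left (b1 ω (by rw [mem_sphere, dist_eq_norm]; exact hω)).le hcn.le
  obtain ⟨Z, hZd, hZ0, hZ, -⟩ := Pool.Agent.H713R3.ZA.ROOT.main U Fτ isOpen_ball (convex_ball _ _)
    hFcd hprop hsimple z0 hz0U ws hws0
  have hZb : ∀ q ∈ U, ‖Z q - w0‖ < rw := by
    intro q hq
    by_contra hcon
    push Not at hcon
    have h1 := (convex_ball z0 r).isPreconnected.intermediate_value hz0U hq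
      (f := fun q => ‖Z q - w0‖) ((hZd.continuousOn.sub continuousOn_const).norm)
    obtain ⟨q', hq', hq'R⟩ := h1 ⟨by
      show ‖Z z0 - w0‖ ≤ rw
      rw [hZ0]; exact hws.le, hcon⟩
    have hq'R' : ‖Z q' - w0‖ = rw := hq'R
    have h2 := (hball _ (hUε q' hq')).1 (Z q') (by rw [mem_sphere, dist_eq_norm]; exact hq'R')
    have h3 := hZ q' hq'
    rw [hFτF, mul_eq_zero, or_iff_right hcτ] at h3
    rw [h3, norm_zero] at h2
    linarith
  -- the piece
  set βs : ℂ := Complex.I * (τ : ℂ) * (sκ : ℂ) with hβs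
  set Zf : (Fin n → ℂ) → Fin n → ℂ := fun u i => (τ : ℂ)⁻¹ * (u i + βs * (v i : ℂ)) with hZf
  have hin : ∀ u ∈ ball (cen κ1 τ) (r * τ), Zf u ∈ U := by
    intro u hu
    rw [hU, mem_ball, dist_pi_lt_iff hr]
    intro i
    have b1 := (dist_pi_lt_iff (mul_pos hr hτ0)).1 (mem_ball.1 hu) i
    rw [dist_eq_norm] at b1 ⊢
    have h2 : Zf u i - z0 i = (τ : ℂ)⁻¹ * (u i - cen κ1 τ i) := by
      simp only [hZf, hz0, cen, hβs, hκ1]
      push_cast
      field_simp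
      ring
    rw [h2, norm_mul, norm_inv, Complex.norm_real, Real.norm_eq_abs, abs_of_pos hτ0,
      inv_mul_lt_iff₀ hτ0, mul_comm τ]
    exact b1
  have hxpu : ∀ (u : Fin n → ℂ) (w : ℂ),
      xp l v κ Me τ (fun i => (τ : ℂ) * Zf u i) w = xp l v κ Me τ u w := by
    intro u w
    rw [← xp_shift hlv κ Me τ u βs w]
    congr 1
    funext i
    simp only [hZf]
    rw [← mul_assoc, mul_inv_cancel₀ hτc, one_mul]
  refine ⟨fun u => Z (Zf u), ?_, fun u hu => ?_⟩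
  · refine hZd.comp ?_ hin
    rw [differentiableOn_pi]
    intro i
    simp only [hZf]
    fun_prop
  · have hz := hin u hu
    have a1 := hZ _ hz
    simp only [hFτ] at a1
    rw [hxpu] at a1
    have a2 : ‖Z (Zf u)‖ ≤ B := by
      have h1 := hZb _ hz
      have h2 : ‖Z (Zf u)‖ ≤ ‖Z (Zf u) - w0‖ + ‖w0‖ := by
        have := norm_add_le (Z (Zf u) - w0) w0
        rwa [sub_add_cancel] at this
      rw [hB]; linarith
    have hzb : ∀ k, ‖Zf u k‖ ≤ C0 := by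
      intro k
      refine (norm_le_pi_norm _ k).trans ?_
      have h1 : ‖Zf u‖ ≤ ‖Zf u - z0‖ + ‖z0‖ := by
        have := norm_add_le (Zf u - z0) z0
        rwa [sub_add_cancel] at this
      have h2 : ‖Zf u - z0‖ < r := by rw [← dist_eq_norm]; exact hz
      rw [hC0]; linarith
    have hτMe : (1 : ℝ) ≤ τ ^ Me := one_le_pow₀ hτ11
    have hlzb : ‖lz (Zf u)‖ ≤ τ * (Sl * C0) := by
      simp only [hlz]
      refine (norm_sum_le _ _).trans ?_
      rw [hSl, Finset.sum_mul, Finset.mul_sum]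
      refine Finset.sum_le_sum fun k _ => ?_
      rw [norm_mul, norm_mul, Complex.norm_real, Complex.norm_real, Real.norm_eq_abs,
        Real.norm_eq_abs, abs_of_pos hτ0]
      calc |l k| * (τ * ‖Zf u k‖) ≤ |l k| * (τ * C0) := by
            have := hzb k
            gcongr
        _ = τ * (|l k| * C0) := by ring
    have hwl : ‖Z (Zf u) - lz (Zf u)‖ ≤ τ * (B + Sl * C0) := by
      refine (norm_sub_le _ _).trans ?_
      nlinarith
    have hbb : ∀ i, ‖b (Zf u) i‖ ≤ τ ^ (Me + 1) * (Sk + C0) := by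
      intro i
      simp only [hb]
      refine (norm_add_le _ _).trans ?_
      rw [norm_mul, norm_mul, norm_mul, norm_pow, Complex.norm_I, Complex.norm_real,
        Complex.norm_real, Real.norm_eq_abs, Real.norm_eq_abs, abs_of_pos hτ0, one_mul]
      have h1 : |κ i| ≤ Sk :=
        Finset.single_le_sum (f := fun k => |κ k|) (fun _ _ => abs_nonneg _) (Finset.mem_univ i)
      have h2 := hzb i
      have h3 : τ ^ (Me + 1) = τ ^ Me * τ := pow_succ _ _
      rw [h3]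
      have h4 : τ ^ Me * |κ i| ≤ τ ^ Me * τ * Sk := by
        calc τ ^ Me * |κ i| ≤ τ ^ Me * Sk := by gcongr
          _ = τ ^ Me * 1 * Sk := by ring
          _ ≤ τ ^ Me * τ * Sk := by gcongr
      have h5 : τ * ‖Zf u i‖ ≤ τ ^ Me * τ * C0 := by
        calc τ * ‖Zf u i‖ ≤ τ * C0 := by gcongr
          _ = 1 * τ * C0 := by ring
          _ ≤ τ ^ Me * τ * C0 := by gcongr
      linarith
    have hpow1 : (1 : ℝ) ≤ τ ^ (Me + 1) := one_le_pow₀ hτ11
    have hτle : τ ≤ τ ^ (Me + 1) := by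
      rw [pow_succ]; nlinarith
    have hXb0 : ∀ i, ‖xp l v κ Me τ (fun i => (τ : ℂ) * Zf u i) (Z (Zf u)) i‖ ≤ τ ^ Dx := by
      intro i
      rw [hxp]
      refine (norm_add_le _ _).trans ?_
      rw [norm_mul, Complex.norm_real, Real.norm_eq_abs]
      have h1 := hbb i
      have h2 : |v i| ≤ Sv :=
        Finset.single_le_sum (f := fun k => |v k|) (fun _ _ => abs_nonneg _) (Finset.mem_univ i)
      have h3 : ‖Z (Zf u) - lz (Zf u)‖ * |v i| ≤ τ ^ (Me + 1) * ((B + Sl * C0) * (1 + Sv)) := by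
        calc ‖Z (Zf u) - lz (Zf u)‖ * |v i| ≤ (τ * (B + Sl * C0)) * (1 + Sv) := by
              gcongr
              linarith
          _ = τ * ((B + Sl * C0) * (1 + Sv)) := by ring
          _ ≤ τ ^ (Me + 1) * ((B + Sl * C0) * (1 + Sv)) := by gcongr
      calc ‖b (Zf u) i‖ + ‖Z (Zf u) - lz (Zf u)‖ * |v i| ≤ τ ^ (Me + 1) * C1 := by
            rw [hC1]; linarith
        _ ≤ τ ^ (Me + 1) * τ := by gcongr; linarith
        _ = τ ^ Dx := by rw [hDx]; ring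
    have hwlD : ‖Z (Zf u) - lz (Zf u)‖ ≤ τ ^ Dx := by
      calc ‖Z (Zf u) - lz (Zf u)‖ ≤ τ * (B + Sl * C0) := hwl
        _ ≤ τ ^ (Me + 1) * C1 := by
          have : B + Sl * C0 ≤ C1 := by
            rw [hC1]
            have : 0 ≤ (B + Sl * C0) * Sv := by positivity
            nlinarith
          gcongr
        _ ≤ τ ^ (Me + 1) * τ := by gcongr; linarith
        _ = τ ^ Dx := by rw [hDx]; ring
    have hbbD : ∀ i, ‖b (Zf u) i‖ ≤ τ ^ Dx := by
      intro i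
      calc ‖b (Zf u) i‖ ≤ τ ^ (Me + 1) * (Sk + C0) := hbb i
        _ ≤ τ ^ (Me + 1) * C1 := by
          have : Sk + C0 ≤ C1 := by
            rw [hC1]
            have : 0 ≤ (B + Sl * C0) * (1 + Sv) := by positivity
            linarith
          gcongr
        _ ≤ τ ^ (Me + 1) * τ := by gcongr; linarith
        _ = τ ^ Dx := by rw [hDx]; ring
    have hDle : τ ^ Dx ≤ τ ^ D := pow_le_pow_right₀ hτ11 (by omega)
    refine ⟨a1, a2, fun i => ?_, ?_⟩
    · rw [← hxpu]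
      exact (hXb0 i).trans hDle
    · have e3 := congrArg (fun q => (Polynomial.map (eval (b (Zf u))) q).eval
        (Z (Zf u) - lz (Zf u))) hrel3
      simp only [Polynomial.map_C, Polynomial.eval_C, Polynomial.map_add, Polynomial.map_mul,
        Polynomial.eval_add, Polynomial.eval_mul] at e3
      rw [← hFτe, hZ _ hz, mul_zero, zero_add, Pool.Agent.Q252.EG.eval_hat] at e3
      have h1 := hb3 (Zf u) (ball_subset_ball hrr3 hz) τ hτ3
      rw [show (eval (fun i => Complex.I * (τ : ℂ) ^ Me * (κ i : ℂ) + (τ : ℂ) * Zf u i) ρ3) =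
        eval (b (Zf u)) ρ3 from rfl, e3, norm_mul] at h1
      have h2 : ‖(β3.map (eval (b (Zf u)))).eval (Z (Zf u) - lz (Zf u))‖ ≤ τ ^ N1 := by
        have h3 := hN1 τ hτ22 (oe (Z (Zf u) - lz (Zf u)) (b (Zf u))) (by
          rintro (_ | i)
          · exact hwlD
          · exact hbbD i)
        have h4 := Pool.Agent.Q252.EG.eval_e (Z (Zf u) - lz (Zf u)) (b (Zf u))
          ((optionEquivLeft ℂ (Fin n)).symm β3)
        rw [AlgEquiv.apply_symm_apply] at h4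
        rwa [h4] at h3
      have h5 : (fun i => b (Zf u) i + (Z (Zf u) - lz (Zf u)) * (v i : ℂ)) =
          xp l v κ Me τ u (Z (Zf u)) := by
        rw [← hxp, hxpu]
      rw [h5] at h1
      have h6 : 1 ≤ c3 * τ ^ N3 := by
        have h1 : c3⁻¹ ≤ τ ^ N3 := hN3.trans (pow_le_pow_left₀ (by norm_num) hτ22 _)
        rw [inv_le_iff_one_le_mul₀ hc3] at h1
        linarith
      set A := ‖eval (xp l v κ Me τ u (Z (Zf u))) a‖ with hA
      have hA0 : 0 ≤ A := norm_nonneg _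
      calc (1 : ℝ) ≤ c3 * τ ^ N3 := h6
        _ ≤ (‖(β3.map (eval (b (Zf u)))).eval (Z (Zf u) - lz (Zf u))‖ * A) * τ ^ N3 := by gcongr
        _ ≤ (τ ^ N1 * A) * τ ^ N3 := by gcongr
        _ = 1 * (τ ^ (N1 + N3) * A) := by rw [pow_add]; ring
        _ ≤ τ ^ Dx * (τ ^ (N1 + N3) * A) := by
          gcongr
          exact one_le_pow₀ hτ11
        _ = τ ^ D * A := by rw [hD]; ring

end Pool.Agent.Helper57.HT
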