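import Pool.Agent.Helper57.HT.Reg
import Pool.Agent.Helper57.HT.Stl
import Pool.Agent.Helper57.RA.Flat
import Pool.Graph.R_pool_sql_team_seeded_3997aac3.Q206.EG.Slope

/-!
Project HT (helper57): bounded pieces on which finitely many polynomials are almost constant.
-/

set_option autoImplicit false

namespace Pool.Agent.Helper57.HT

open MvPolynomial Filter Topology Metric Pool.Agent.W996.EC Pool.Agent.Q72.EG

variable {n : ℕ}

theorem tendsto_logsqrt (A B r : ℝ) (hr : 0 < r) :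
    Tendsto (fun τ : ℝ => (A * Real.log τ + B) / (r * τ) * √τ) atTop (𝓝 0) := by
  have h1 : (fun τ : ℝ => A * Real.log τ + B) =o[atTop] (fun τ : ℝ => √τ) := by
    have h2 : Real.log =o[atTop] (fun τ : ℝ => √τ) := by
      have := isLittleO_log_rpow_atTop (show (0 : ℝ) < 1 / 2 by norm_num)
      simpa only [← Real.sqrt_eq_rpow] using this
    refine (h2.const_mul_left _).add ?_
    have h3 : Tendsto (fun τ : ℝ => √τ) atTop atTop := Real.tendsto_sqrt_atTop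
    exact Asymptotics.isLittleO_const_left.2 (Or.inr (tendsto_norm_atTop_atTop.comp h3))
  have h2 := h1.tendsto_div_nhds_zero
  have h3 := h2.const_mul r⁻¹
  rw [mul_zero] at h3
  refine h3.congr' ?_
  filter_upwards [eventually_gt_atTop 0] with τ hτ
  have h4 : 0 < √τ := Real.sqrt_pos.2 hτ
  have h5 : √τ * √τ = τ := Real.mul_self_sqrt hτ.le
  field_simp
  rw [sq, h5]

/-- **pieces over which everything is almost constant** -/
theorem stepA {P : MvPolynomial (Fin n) ℂ} (hP : Irreducible P) {l v κ : Fin n → ℝ} {Me : ℕ}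
    (hreg : HasReg P l v κ Me)
    (Hs : Finset (MvPolynomial (Option (Fin n)) ℂ)) (Gs : Finset (MvPolynomial (Fin n) ℂ)) :
    ∃ c c0 : ℝ, 0 < c ∧ 0 < c0 ∧ c0 ≤ 1 ∧ ∃ (κ1 : Fin n → ℝ) (D : ℕ) (B : ℝ),
      ∑ i, l i * κ1 i = 0 ∧
      ∀ ε : ℝ, 0 < ε → ∀ᶠ τ : ℝ in atTop, ∃ (φ : ℝ) (w : (Fin n → ℂ) → ℂ) (X0 : Fin n → ℂ),
        X0 = xp l v κ Me τ (cen κ1 τ) (w (cen κ1 τ)) ∧
        DifferentiableOn ℂ w (ball (cen κ1 τ) (√τ)) ∧ ‖w (cen κ1 τ)‖ ≤ B ∧
        (∀ u ∈ ball (cen κ1 τ) (√τ), eval (xp l v κ Me τ u (w u)) P = 0 ∧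
          ‖w u - w (cen κ1 τ)‖ ≤ ε ∧
          (∀ H ∈ Hs, ∀ j, ‖eval (xp l v κ Me τ u (w u)) (cf H j) - eval X0 (cf H j)‖ ≤
            ε * ‖eval X0 (cf H j)‖)) ∧
        (∀ i, ‖X0 i‖ ≤ τ ^ D) ∧
        (∀ g ∈ Gs, ¬ P ∣ g → 1 ≤ τ ^ D * ‖eval X0 g‖) ∧
        (∀ H ∈ Hs, ∀ j, ¬ P ∣ cf H j → 1 ≤ τ ^ D * ‖eval X0 (cf H j)‖ ∧
          ‖eval X0 (cf H j)‖ ≤ τ ^ D) ∧
        ∀ s : ℂ, |s.im - φ| ≤ c → ∀ H ∈ Hs, ∀ D', c0 * ∑ j ∈ Finset.range D',
          ‖eval X0 (cf H j)‖ * ‖Complex.exp s‖ ^ j ≤ ‖eval (oe (Complex.exp s) X0) H‖ := by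
  classical
  set J : ℕ := Hs.sup (fun H => (optionEquivLeft ℂ (Fin n) H).natDegree) with hJ
  have hJle : ∀ H ∈ Hs, (optionEquivLeft ℂ (Fin n) H).natDegree ≤ J := fun H hH =>
    Finset.le_sup (f := fun H => (optionEquivLeft ℂ (Fin n) H).natDegree) hH
  set G' : Finset (MvPolynomial (Fin n) ℂ) :=
    (Gs ∪ Hs.biUnion (fun H => (Finset.range (J + 1)).image (cf H))).filter (fun g => ¬ P ∣ g) with hG'
  have hG'cf : ∀ H ∈ Hs, ∀ j, ¬ P ∣ cf H j → cf H j ∈ G' := by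
    intro H hH j hj
    have hjJ : j < J + 1 := by
      by_contra hcon
      apply hj
      have : cf H j = 0 := by
        unfold cf
        apply Polynomial.coeff_eq_zero_of_natDegree_lt
        have := hJle H hH
        omega
      rw [this]; exact dvd_zero _
    rw [hG', Finset.mem_filter, Finset.mem_union, Finset.mem_biUnion]
    exact ⟨Or.inr ⟨H, hH, Finset.mem_image.2 ⟨j, Finset.mem_range.2 hjJ, rfl⟩⟩, hj⟩
  have hG'nd : ∀ g ∈ G', ¬ P ∣ g := fun g hg => (Finset.mem_filter.1 hg).2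
  set a : MvPolynomial (Fin n) ℂ := ∏ g ∈ G', g with ha
  have hand : ¬ P ∣ a := Pool.Agent.Q206.EG.prod_not_dvd hP G' (fun g => g) hG'nd
  obtain ⟨κ1, D0, B, r, hκ1, hr, hev⟩ := hreg a hand
  obtain ⟨D1, hD1, htwo⟩ := Pool.Agent.Q206.EG.two G' (fun g => g) a
    (fun g hg => Finset.dvd_prod_of_mem _ hg) D0
  obtain ⟨c, c0, hc, hc0, hc01, hsec⟩ := sector_fam Hs.card J
  set D : ℕ := D0 + ⌈D1⌉₊ with hD
  refine ⟨c, c0, hc, hc0, hc01, κ1, D, B, hκ1, fun ε hε => ?_⟩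
  have l1 := (tendsto_logsqrt (24 * D1) 42 r hr).eventually
    (gt_mem_nhds (show (0 : ℝ) < min 1 (ε / 2) by positivity))
  have l2 := (tendsto_logsqrt 0 (2 * B + 1) r hr).eventually (gt_mem_nhds hε)
  have l3 := (tendsto_logsqrt 0 1 r hr).eventually (gt_mem_nhds (show (0 : ℝ) < 1 / 2 by norm_num))
  filter_upwards [hev, l1, l2, l3, eventually_ge_atTop 2] with τ hτ hl1 hl2 hl3 hτ2
  obtain ⟨w, hwd, hw⟩ := hτ
  have hτ0 : 0 < τ := by linarith
  have hτ1 : 1 ≤ τ := by linarith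
  have hlog : 0 ≤ Real.log τ := Real.log_nonneg hτ1
  have hsq : 0 < √τ := Real.sqrt_pos.2 hτ0
  have hρ : 0 < r * τ := mul_pos hr hτ0
  set cc := cen κ1 τ with hcc
  have hsq2 : √τ ≤ r * τ / 2 := by
    rw [zero_mul, zero_add, div_mul_eq_mul_div, one_mul, div_lt_iff₀ hρ] at hl3
    linarith
  have hsub : ball cc (√τ) ⊆ ball cc (r * τ) := ball_subset_ball (by linarith)
  have hccm : cc ∈ ball cc (r * τ) := mem_ball_self hρ
  set Xf : (Fin n → ℂ) → Fin n → ℂ := fun u => xp l v κ Me τ u (w u) with hXf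
  have hXd : ∀ i, DifferentiableOn ℂ (fun u => Xf u i) (ball cc (r * τ)) := by
    intro i
    simp only [hXf, xp]
    refine DifferentiableOn.add ?_ (DifferentiableOn.mul_const (hwd.sub ?_) _)
    · fun_prop
    · fun_prop
  have hgd : ∀ g : MvPolynomial (Fin n) ℂ, DifferentiableOn ℂ (fun u => eval (Xf u) g)
      (ball cc (r * τ)) := fun g => Pool.Agent.Helper57.RA.diff_eval' hXd g
  have htw : ∀ u ∈ ball cc (r * τ), ∀ g ∈ G',
      τ ^ (-D1) ≤ ‖eval (Xf u) g‖ ∧ ‖eval (Xf u) g‖ ≤ τ ^ D1 := by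
    intro u hu
    obtain ⟨-, -, h3, h4⟩ := hw u hu
    refine htwo τ hτ2 (Xf u) ?_ ?_
    · rw [Real.rpow_natCast, pi_norm_le_iff_of_nonneg (by positivity)]
      exact h3
    · rw [Real.rpow_neg hτ0.le, Real.rpow_natCast, inv_le_iff_one_le_mul₀ (by positivity)]
      linarith [mul_comm (τ ^ D0) ‖eval (Xf u) a‖]
  have hne : ∀ u ∈ ball cc (r * τ), ∀ g ∈ G', eval (Xf u) g ≠ 0 := fun u hu g hg =>
    norm_pos_iff.1 ((Real.rpow_pos_of_pos hτ0 _).trans_le (htw u hu g hg).1)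
  have hnear : ∀ g ∈ G', ∀ u ∈ ball cc (√τ),
      ‖eval (Xf u) g - eval (Xf cc) g‖ ≤ ε * ‖eval (Xf cc) g‖ := by
    intro g hg u hu
    have e1 : (24 * (D1 * Real.log τ) + 42) / (r * τ) * √τ =
      (24 * D1 * Real.log τ + 42) / (r * τ) * √τ := by ring
    have h1 := near_const (B := D1 * Real.log τ) hρ (by positivity) (hgd g) (fun u hu => hne u hu g hg)
      (fun u hu => Pool.Agent.Q206.EG.abs_log_le hτ0 (htw u hu g hg).1 (htw u hu g hg).2)
      (r := √τ) (by rw [e1]; exact (hl1.trans_le (min_le_left _ _)).le) hsq2 hu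
    refine h1.trans (mul_le_mul_of_nonneg_right ?_ (norm_nonneg _))
    rw [e1]
    have := hl1.trans_le (min_le_right _ _)
    linarith
  have hXP : ∀ u ∈ ball cc (r * τ), eval (Xf u) P = 0 := fun u hu => (hw u hu).1
  -- the sector
  set e := Hs.equivFin with he
  obtain ⟨φ, hφ⟩ := hsec (fun k => (optionEquivLeft ℂ (Fin n) (e.symm k).1).map (eval (Xf cc)))
    (fun k => (Polynomial.natDegree_map_le).trans (hJle _ (e.symm k).2))
  have hcoef : ∀ H : MvPolynomial (Option (Fin n)) ℂ, ∀ j,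
      ((optionEquivLeft ℂ (Fin n) H).map (eval (Xf cc))).coeff j = eval (Xf cc) (cf H j) :=
    fun H j => Polynomial.coeff_map _ _
  have hpow : τ ^ D1 ≤ τ ^ D := by
    rw [← Real.rpow_natCast]
    apply Real.rpow_le_rpow_of_exponent_le hτ1
    rw [hD]; push_cast
    have := Nat.le_ceil D1
    have : (0 : ℝ) ≤ D0 := Nat.cast_nonneg _
    linarith
  have hlow : ∀ g ∈ G', 1 ≤ τ ^ D * ‖eval (Xf cc) g‖ := by
    intro g hg
    have h1 := (htw cc hccm g hg).1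
    have h2 : τ ^ (-D1) * τ ^ D1 = 1 := by
      rw [← Real.rpow_add hτ0, neg_add_cancel, Real.rpow_zero]
    calc (1 : ℝ) = τ ^ (-D1) * τ ^ D1 := h2.symm
      _ ≤ ‖eval (Xf cc) g‖ * τ ^ D := by
        have := Real.rpow_pos_of_pos hτ0 D1
        gcongr
      _ = _ := mul_comm _ _
  refine ⟨φ, w, Xf cc, rfl, hwd.mono hsub, (hw cc hccm).2.1, fun u hu => ⟨hXP u (hsub hu), ?_, ?_⟩,
    fun i => ?_, fun g hg hnd => hlow g ?_, fun H hH j hj => ⟨hlow _ (hG'cf H hH j hj), ?_⟩, ?_⟩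
  · have h1 := lip_ball hρ hwd (fun u hu => (hw u hu).2.1) (hsub hu)
    refine h1.trans ?_
    have h2 : ‖u - cc‖ ≤ √τ := by rw [← dist_eq_norm]; exact (mem_ball.1 hu).le
    have hB0 : 0 ≤ B := (norm_nonneg _).trans (hw cc hccm).2.1
    have h3 : (2 * B + 1) / (r * τ) * √τ < ε := by
      rw [zero_mul, zero_add] at hl2
      exact hl2
    refine le_trans ?_ h3.le
    gcongr
  · intro H hH j
    by_cases hj : P ∣ cf H j
    · have e1 := Pool.Agent.Q206.EG.eval_zero_of_dvd hj (hXP u (hsub hu))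
      have e2 := Pool.Agent.Q206.EG.eval_zero_of_dvd hj (hXP cc hccm)
      simp only [hXf] at e1 e2 ⊢
      rw [e1, e2]
      simp
    · exact hnear _ (hG'cf H hH j hj) u hu
  · have h1 := (hw cc hccm).2.2.1 i
    refine h1.trans (pow_le_pow_right₀ hτ1 (by omega))
  · rw [hG', Finset.mem_filter, Finset.mem_union]
    exact ⟨Or.inl hg, hnd⟩
  · exact (htw cc hccm _ (hG'cf H hH j hj)).2.trans hpow
  · intro s hs H hH D'
    have h1 := hφ s hs (e ⟨H, hH⟩) D'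
    simp only [Equiv.symm_apply_apply, hcoef] at h1
    rw [Pool.Agent.Q252.EG.eval_e]
    exact h1

end Pool.Agent.Helper57.HT
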