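import Pool.Agent.Helper57.HT.StA
import Pool.Agent.Helper57.HT.Far
import Pool.Agent.Helper57.HT.Lift

/-!
Project HT (helper57): lemmas for the families over balls times strips.
-/

set_option autoImplicit false

namespace Pool.Agent.Helper57.HT

open MvPolynomial Filter Topology Metric Pool.Agent.W996.EC Pool.Agent.Q72.EG

variable {n : ℕ}

theorem ev_close {H : MvPolynomial (Option (Fin n)) ℂ} {X X' : Fin n → ℂ} {Y : ℂ} {ε c0 : ℝ}
    (hc0 : 0 < c0) (hε : 0 ≤ ε)
    (h1 : ∀ j, ‖eval X' (cf H j) - eval X (cf H j)‖ ≤ ε * ‖eval X (cf H j)‖)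
    (h2 : ∀ D', c0 * ∑ j ∈ Finset.range D', ‖eval X (cf H j)‖ * ‖Y‖ ^ j ≤ ‖eval (oe Y X) H‖) :
    ‖eval (oe Y X') H - eval (oe Y X) H‖ ≤ ε / c0 * ‖eval (oe Y X) H‖ := by
  set D' := (optionEquivLeft ℂ (Fin n) H).natDegree + 1 with hD'
  have h3 := h2 D'
  set Sg := ∑ j ∈ Finset.range D', ‖eval X (cf H j)‖ * ‖Y‖ ^ j with hSg
  calc ‖eval (oe Y X') H - eval (oe Y X) H‖ =
        ‖∑ j ∈ Finset.range D', (eval X' (cf H j) - eval X (cf H j)) * Y ^ j‖ := by
        rw [eval_oe_sum, eval_oe_sum, ← Finset.sum_sub_distrib]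
        congr 1
        exact Finset.sum_congr rfl fun j _ => by ring
    _ ≤ ∑ j ∈ Finset.range D', (ε * ‖eval X (cf H j)‖) * ‖Y‖ ^ j := by
        refine (norm_sum_le _ _).trans (Finset.sum_le_sum fun j _ => ?_)
        rw [norm_mul, norm_pow]
        exact mul_le_mul_of_nonneg_right (h1 j) (by positivity)
    _ = ε * Sg := by
        rw [hSg, Finset.mul_sum]
        exact Finset.sum_congr rfl fun j _ => by ring
    _ = ε / c0 * (c0 * Sg) := by field_simp
    _ ≤ ε / c0 * ‖eval (oe Y X) H‖ := by gcongr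

theorem ev_closeY {H : MvPolynomial (Option (Fin n)) ℂ} {X : Fin n → ℂ} {s s' : ℂ} {r c0 : ℝ}
    {N : ℕ} (hN : (optionEquivLeft ℂ (Fin n) H).natDegree ≤ N) (hc0 : 0 < c0)
    (hr : ‖s' - s‖ ≤ r) (hrN : N * r ≤ 1)
    (h2 : ∀ D', c0 * ∑ j ∈ Finset.range D', ‖eval X (cf H j)‖ * ‖Complex.exp s‖ ^ j ≤
      ‖eval (oe (Complex.exp s) X) H‖) :
    ‖eval (oe (Complex.exp s') X) H - eval (oe (Complex.exp s) X) H‖ ≤
      2 * (N * r) / c0 * ‖eval (oe (Complex.exp s) X) H‖ := by
  have hr0 : 0 ≤ r := (norm_nonneg _).trans hr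
  have hNr0 : 0 ≤ N * r := by positivity
  set D' := (optionEquivLeft ℂ (Fin n) H).natDegree + 1 with hD'
  have h3 := h2 D'
  set Sg := ∑ j ∈ Finset.range D', ‖eval X (cf H j)‖ * ‖Complex.exp s‖ ^ j with hSg
  have hj : ∀ j ∈ Finset.range D', ‖Complex.exp s' ^ j - Complex.exp s ^ j‖ ≤
      2 * (N * r) * ‖Complex.exp s‖ ^ j := by
    intro j hj
    rw [Finset.mem_range] at hj
    have hjN : (j : ℝ) ≤ N := by
      have : j ≤ N := by omega
      exact_mod_cast this
    have e1 : Complex.exp s' ^ j - Complex.exp s ^ j =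
        (Complex.exp (j * (s' - s)) - 1) * Complex.exp s ^ j := by
      rw [← Complex.exp_nat_mul, ← Complex.exp_nat_mul, sub_mul, one_mul, ← Complex.exp_add]
      congr 2; ring
    have e2 : ‖(j : ℂ) * (s' - s)‖ ≤ N * r := by
      rw [norm_mul, Complex.norm_natCast]
      gcongr
    rw [e1, norm_mul, norm_pow]
    refine mul_le_mul_of_nonneg_right ?_ (by positivity)
    exact (Complex.norm_exp_sub_one_le (e2.trans hrN)).trans (by linarith)
  calc ‖eval (oe (Complex.exp s') X) H - eval (oe (Complex.exp s) X) H‖ =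
        ‖∑ j ∈ Finset.range D', eval X (cf H j) * (Complex.exp s' ^ j - Complex.exp s ^ j)‖ := by
        rw [eval_oe_sum, eval_oe_sum, ← Finset.sum_sub_distrib]
        congr 1
        exact Finset.sum_congr rfl fun j _ => by ring
    _ ≤ ∑ j ∈ Finset.range D', ‖eval X (cf H j)‖ * (2 * (N * r) * ‖Complex.exp s‖ ^ j) := by
        refine (norm_sum_le _ _).trans (Finset.sum_le_sum fun j hj' => ?_)
        rw [norm_mul]
        exact mul_le_mul_of_nonneg_left (hj j hj') (norm_nonneg _)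
    _ = 2 * (N * r) * Sg := by
        rw [hSg, Finset.mul_sum]
        exact Finset.sum_congr rfl fun j _ => by ring
    _ = 2 * (N * r) / c0 * (c0 * Sg) := by field_simp
    _ ≤ 2 * (N * r) / c0 * ‖eval (oe (Complex.exp s) X) H‖ := by gcongr

/-- sizes of the values -/
theorem ev_size {P : MvPolynomial (Fin n) ℂ} {H : MvPolynomial (Option (Fin n)) ℂ}
    {X : Fin n → ℂ} {s : ℂ} {c0 τ K : ℝ} {N D : ℕ}
    (hN : (optionEquivLeft ℂ (Fin n) H).natDegree ≤ N) (hc0 : 0 < c0) (hτ : Real.exp 1 ≤ τ)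
    (hXP : eval X P = 0) (hs : |s.re| ≤ K * Real.log τ)
    (h2 : ∀ D', c0 * ∑ j ∈ Finset.range D', ‖eval X (cf H j)‖ * ‖Complex.exp s‖ ^ j ≤
      ‖eval (oe (Complex.exp s) X) H‖)
    (h3 : ∀ j, ¬ P ∣ cf H j → 1 ≤ τ ^ D * ‖eval X (cf H j)‖ ∧ ‖eval X (cf H j)‖ ≤ τ ^ D)
    (h0 : eval (oe (Complex.exp s) X) H ≠ 0) :
    |Real.log ‖eval (oe (Complex.exp s) X) H‖| ≤
      (D + N * K + |Real.log c0| + Real.log (N + 1)) * Real.log τ := by
  have hτ0 : 0 < τ := (Real.exp_pos 1).trans_le hτ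
  have hlog : 1 ≤ Real.log τ := by
    rw [Real.le_log_iff_exp_le hτ0]; exact hτ
  have hK : 0 ≤ K := by
    by_contra h
    push Not at h
    have := abs_nonneg s.re
    nlinarith
  have hNlog : 0 ≤ Real.log (N + 1) := Real.log_nonneg (by
    have : (0 : ℝ) ≤ N := Nat.cast_nonneg N
    linarith)
  set V := ‖eval (oe (Complex.exp s) X) H‖ with hV
  have hV0 : 0 < V := norm_pos_iff.2 h0
  have hY : ‖Complex.exp s‖ = Real.exp s.re := Complex.norm_exp s
  obtain ⟨j0, hj0N, hj0⟩ : ∃ j0, j0 ≤ N ∧ eval X (cf H j0) ≠ 0 := by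
    by_contra hcon
    push Not at hcon
    apply h0
    rw [eval_oe_sum]
    refine Finset.sum_eq_zero fun j hj => ?_
    rw [Finset.mem_range] at hj
    rw [hcon j (by omega), zero_mul]
  have hnd : ¬ P ∣ cf H j0 := fun h => hj0 (Pool.Agent.Q206.EG.eval_zero_of_dvd h hXP)
  have hsj : ∀ j : ℕ, j ≤ N → |(j : ℝ) * s.re| ≤ N * K * Real.log τ := by
    intro j hj
    rw [abs_mul, abs_of_nonneg (Nat.cast_nonneg j)]
    have : (j : ℝ) ≤ N := by exact_mod_cast hj
    calc (j : ℝ) * |s.re| ≤ N * (K * Real.log τ) := by gcongr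
      _ = _ := by ring
  have hc0l : 0 ≤ |Real.log c0| := abs_nonneg _
  rw [abs_le]
  constructor
  · -- lower bound
    have l1 : c0 * (‖eval X (cf H j0)‖ * ‖Complex.exp s‖ ^ j0) ≤ V := by
      refine le_trans (mul_le_mul_of_nonneg_left ?_ hc0.le) (h2 (j0 + 1))
      exact Finset.single_le_sum (f := fun j => ‖eval X (cf H j)‖ * ‖Complex.exp s‖ ^ j)
        (fun _ _ => by positivity) (Finset.mem_range.2 (Nat.lt_succ_self _))
    have hpos : 0 < ‖eval X (cf H j0)‖ := norm_pos_iff.2 hj0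
    have hYp : 0 < ‖Complex.exp s‖ ^ j0 := by rw [hY]; positivity
    have l2 := Real.log_le_log (by positivity) l1
    rw [Real.log_mul hc0.ne' (by positivity), Real.log_mul hpos.ne' hYp.ne', Real.log_pow, hY,
      Real.log_exp] at l2
    have l3 : -(D * Real.log τ) ≤ Real.log ‖eval X (cf H j0)‖ := by
      have l4 := (h3 j0 hnd).1
      have l5 := Real.log_le_log one_pos l4
      rw [Real.log_one, Real.log_mul (by positivity) hpos.ne', Real.log_pow] at l5
      linarith
    have l6 := neg_le_of_abs_le (hsj j0 hj0N)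
    have l7 := neg_abs_le (Real.log c0)
    have l8 : |Real.log c0| ≤ |Real.log c0| * Real.log τ := le_mul_of_one_le_right hc0l hlog
    have l9 : 0 ≤ Real.log (N + 1) * Real.log τ := by positivity
    nlinarith
  · -- upper bound
    have hle : ∀ j, ‖eval X (cf H j)‖ ≤ τ ^ D := by
      intro j
      by_cases hj : P ∣ cf H j
      · rw [Pool.Agent.Q206.EG.eval_zero_of_dvd hj hXP, norm_zero]; positivity
      · exact (h3 j hj).2
    have u1 : V ≤ (N + 1) * (τ ^ D * Real.exp (N * K * Real.log τ)) := by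
      rw [hV, eval_oe_sum]
      refine (norm_sum_le _ _).trans ?_
      calc ∑ j ∈ Finset.range ((optionEquivLeft ℂ (Fin n) H).natDegree + 1),
            ‖eval X (cf H j) * Complex.exp s ^ j‖ ≤
            ∑ j ∈ Finset.range ((optionEquivLeft ℂ (Fin n) H).natDegree + 1),
              τ ^ D * Real.exp (N * K * Real.log τ) := by
              refine Finset.sum_le_sum fun j hj => ?_
              rw [Finset.mem_range] at hj
              rw [norm_mul, norm_pow, hY, ← Real.exp_nat_mul]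
              have e1 := hle j
              have e2 := (le_abs_self _).trans (hsj j (by omega))
              have e3 := Real.exp_le_exp.2 e2
              gcongr
        _ = (((optionEquivLeft ℂ (Fin n) H).natDegree + 1 : ℕ) : ℝ) *
              (τ ^ D * Real.exp (N * K * Real.log τ)) := by
              rw [Finset.sum_const, Finset.card_range, nsmul_eq_mul]
        _ ≤ (N + 1) * (τ ^ D * Real.exp (N * K * Real.log τ)) := by
              gcongr
              push_cast
              have : ((optionEquivLeft ℂ (Fin n) H).natDegree : ℝ) ≤ N := by exact_mod_cast hN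
              linarith
    have u2 := Real.log_le_log hV0 u1
    have hN1 : (0 : ℝ) < N + 1 := by positivity
    rw [Real.log_mul hN1.ne' (by positivity), Real.log_mul (by positivity) (by positivity),
      Real.log_pow, Real.log_exp] at u2
    have u3 : Real.log (N + 1) ≤ Real.log (N + 1) * Real.log τ := le_mul_of_one_le_right hNlog hlog
    have u4 : 0 ≤ |Real.log c0| * Real.log τ := by positivity
    nlinarith

/-- sizes of the roots -/
theorem root_size {N : ℕ} {t : ℕ → ℂ} {Z : ℂ} (hZ : Z ≠ 0) {B : ℝ}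
    (hsum : ∑ b ∈ Finset.range (N + 1), t b * Z ^ b = 0) (hne : ∃ b ∈ Finset.range (N + 1), t b ≠ 0)
    (hB : ∀ b ∈ Finset.range (N + 1), t b ≠ 0 → |Real.log ‖t b‖| ≤ B) :
    |Real.log ‖Z‖| ≤ 2 * B + Real.log (N + 1) := by
  classical
  set F := (Finset.range (N + 1)).filter (fun b => t b ≠ 0) with hF
  have hFne : F.Nonempty := by
    obtain ⟨b, hb, hb0⟩ := hne
    exact ⟨b, by rw [hF, Finset.mem_filter]; exact ⟨hb, hb0⟩⟩
  have hsum2 : ∑ b ∈ F, t b * Z ^ b = 0 := by
    rw [hF, Finset.sum_filter_of_ne]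
    · exact hsum
    · intro b _ h h0
      apply h
      rw [h0, zero_mul]
  have hFt : ∀ b ∈ F, t b ≠ 0 := fun b hb => (Finset.mem_filter.1 hb).2
  have hFr : ∀ b ∈ F, b ∈ Finset.range (N + 1) := fun b hb => (Finset.mem_filter.1 hb).1
  have hZn : ‖Z‖ ≠ 0 := norm_ne_zero_iff.2 hZ
  obtain ⟨e, he, e', he', hne, hle1, hle2⟩ := Pool.Agent.Q206.EG.two_terms F hFne
    (fun b => t b * Z ^ b) hsum2 (fun b hb => mul_ne_zero (hFt b hb) (pow_ne_zero _ hZ))
  have hlog : ∀ b ∈ F, Real.log ‖t b * Z ^ b‖ = Real.log ‖t b‖ + b * Real.log ‖Z‖ := by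
    intro b hb
    rw [norm_mul, norm_pow, Real.log_mul (norm_ne_zero_iff.2 (hFt b hb)) (pow_ne_zero _ hZn),
      Real.log_pow]
  have hpos' := norm_pos_iff.2 (mul_ne_zero (hFt e' he') (pow_ne_zero e' hZ))
  have hpos := norm_pos_iff.2 (mul_ne_zero (hFt e he) (pow_ne_zero e hZ))
  have l1 := Real.log_le_log hpos' hle1
  have l2 := Real.log_le_log hpos hle2
  have hcardpos : (0 : ℝ) < F.card := by exact_mod_cast hFne.card_pos
  rw [Real.log_mul hcardpos.ne' hpos'.ne'] at l2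
  have l3 : Real.log F.card ≤ Real.log (N + 1) := by
    apply Real.log_le_log hcardpos
    have : F.card ≤ N + 1 := by
      rw [hF]; exact (Finset.card_filter_le _ _).trans (by rw [Finset.card_range])
    exact_mod_cast this
  rw [hlog e he, hlog e' he'] at l1 l2
  have c1 := abs_le.1 (hB e (hFr e he) (hFt e he))
  have c2 := abs_le.1 (hB e' (hFr e' he') (hFt e' he'))
  generalize Real.log ‖Z‖ = lz at *
  have hNl : 0 ≤ Real.log ((N : ℝ) + 1) := Real.log_nonneg (by
    have : (0 : ℝ) ≤ N := Nat.cast_nonneg N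
    linarith)
  have key : |((e : ℝ) - e') * lz| ≤ 2 * B + Real.log (N + 1) := by
    rw [abs_le]
    constructor
    · nlinarith
    · nlinarith
  have hb1 : 1 ≤ |(e : ℝ) - e'| := by
    have : (1 : ℤ) ≤ |(e : ℤ) - e'| := by
      apply Int.one_le_abs
      omega
    exact_mod_cast this
  rw [abs_mul] at key
  have := abs_nonneg lz
  nlinarith

theorem exists_theta {α : Type} (S : Finset α) (f : α → ℝ) :
    ∃ θ : ℝ, 0 < θ ∧ ∀ q ∈ S, 0 < f q → θ ≤ f q := by
  classical
  induction S using Finset.induction_on with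
  | empty => exact ⟨1, one_pos, fun q hq => absurd hq (Finset.notMem_empty q)⟩
  | insert a S ha ih =>
    obtain ⟨θ, hθ, h⟩ := ih
    by_cases hfa : 0 < f a
    · refine ⟨min θ (f a), lt_min hθ hfa, fun q hq hq0 => ?_⟩
      rcases Finset.mem_insert.1 hq with rfl | hq
      · exact min_le_right _ _
      · exact (min_le_left _ _).trans (h q hq hq0)
    · refine ⟨θ, hθ, fun q hq hq0 => ?_⟩
      rcases Finset.mem_insert.1 hq with rfl | hq
      · exact absurd hq0 hfa
      · exact h q hq hq0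

/-- a diagonal choice -/
theorem exists_eta {Q : ℝ → ℝ → Prop} (hmono : ∀ ρ ρ' τ, ρ ≤ ρ' → Q ρ τ → Q ρ' τ)
    (h : ∀ ρ : ℝ, 0 < ρ → ∀ᶠ τ in atTop, Q ρ τ) :
    ∃ η : ℝ → ℝ, Tendsto η atTop (𝓝 0) ∧ ∀ᶠ τ in atTop, Q (η τ) τ := by
  set I : ℝ → Set ℝ := fun τ => {ρ | 0 < ρ ∧ Q ρ τ} with hI
  set η : ℝ → ℝ := fun τ => sInf (I τ) + τ⁻¹ with hη
  have hbdd : ∀ τ, BddBelow (I τ) := fun τ => ⟨0, fun ρ hρ => hρ.1.le⟩
  have h0 : ∀ τ, 0 ≤ sInf (I τ) := fun τ => Real.sInf_nonneg fun ρ hρ => hρ.1.le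
  refine ⟨η, ?_, ?_⟩
  · have h1 : Tendsto (fun τ => sInf (I τ)) atTop (𝓝 0) := by
      rw [Metric.tendsto_nhds]
      intro ε hε
      filter_upwards [h (ε / 2) (by linarith)] with τ hτ
      rw [Real.dist_eq, sub_zero, abs_of_nonneg (h0 τ)]
      have := csInf_le (hbdd τ) (show ε / 2 ∈ I τ from ⟨by linarith, hτ⟩)
      linarith
    have h2 := h1.add tendsto_inv_atTop_zero
    rwa [add_zero] at h2
  · filter_upwards [h 1 one_pos, eventually_gt_atTop 0] with τ hτ hτ0
    have hne : (I τ).Nonempty := ⟨1, one_pos, hτ⟩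
    have hlt : sInf (I τ) < η τ := by
      have := inv_pos.2 hτ0
      rw [hη]; linarith
    obtain ⟨ρ, hρ, hρ2⟩ := exists_lt_of_csInf_lt hne hlt
    exact hmono ρ (η τ) τ hρ2.le hρ.2

end Pool.Agent.Helper57.HT
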