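import Pool.Agent.Helper57.HT.StB

/-!
Project HT (helper57): exponential points near irrational flat pieces.
-/

set_option autoImplicit false

namespace Pool.Agent.Helper57.HT

open MvPolynomial Filter Topology Metric Pool.Agent.W996.EC Pool.Agent.Q72.EG

variable {n : ℕ} {E : Type} [Field E] [Algebra ℂ E]

theorem pt_oe {P : MvPolynomial (Fin n) ℂ} {x : Fin n → E}
    (hx : ∀ g : MvPolynomial (Fin n) ℂ, aeval x g = 0 ↔ P ∣ g) {η : E}
    (hη : Transcendental (IntermediateField.adjoin ℂ (Set.range x)) η)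
    {X : Fin n → ℂ} (hX : eval X P = 0) (Y : ℂ) : oe Y X ∈ Pt (oe η x) := by
  intro g hg
  rw [eval_oe_sum]
  refine Finset.sum_eq_zero fun j _ => ?_
  obtain ⟨c, hc⟩ := Pool.Agent.Helper57.RA.dvd_of_tr hx hη g hg j
  rw [hc, map_mul, hX, zero_mul, zero_mul]

/-- branches over almost constant coefficients -/
theorem branch {N : ℕ} {δ ρ : ℝ}
    (hδ : ∀ (t : ℕ → ℝ → ℂ) (γ : ℝ → ℂ), ContinuousOn γ (Set.Icc 0 1) → γ 0 = 0 →
      (∃ b ∈ Finset.range (N + 1), t b 0 ≠ 0) →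
      (∀ ξ ∈ Set.Icc (0 : ℝ) 1, ∀ b ∈ Finset.range (N + 1), ‖t b ξ - t b 0‖ ≤ δ * ‖t b 0‖) →
      (∀ ξ ∈ Set.Icc (0 : ℝ) 1, ∑ b ∈ Finset.range (N + 1), t b ξ * Complex.exp (γ ξ) ^ b = 0) →
      ‖γ 1‖ ≤ 2 * ρ)
    {V : Type} [TopologicalSpace V] {U : Set V}
    {L : V → ℂ} (hL : ContinuousOn L U) {co : ℕ → V → ℂ}
    (hrel : ∀ p ∈ U, ∑ b ∈ Finset.range (N + 1), co b p * Complex.exp (L p) ^ b = 0)
    {p : ℝ → V} (hp : ContinuousOn p (Set.Icc 0 1)) (hpU : ∀ ξ ∈ Set.Icc (0 : ℝ) 1, p ξ ∈ U)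
    (hne : ∃ b ∈ Finset.range (N + 1), co b (p 0) ≠ 0)
    (hcl : ∀ ξ ∈ Set.Icc (0 : ℝ) 1, ∀ b ∈ Finset.range (N + 1),
      ‖co b (p ξ) - co b (p 0)‖ ≤ δ * ‖co b (p 0)‖) :
    ‖L (p 1) - L (p 0)‖ ≤ 2 * ρ := by
  refine hδ (fun b ξ => co b (p ξ) * Complex.exp (L (p 0)) ^ b)
    (fun ξ => L (p ξ) - L (p 0)) ?_ (by simp) ?_ ?_ ?_
  · exact ContinuousOn.sub (hL.comp hp hpU) continuousOn_const
  · obtain ⟨b, hb, hb0⟩ := hne
    exact ⟨b, hb, mul_ne_zero hb0 (pow_ne_zero _ (Complex.exp_ne_zero _))⟩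
  · intro ξ hξ b hb
    rw [← sub_mul, norm_mul, norm_mul, ← mul_assoc]
    exact mul_le_mul_of_nonneg_right (hcl ξ hξ b hb) (norm_nonneg _)
  · intro ξ hξ
    rw [← hrel _ (hpU ξ hξ)]
    refine Finset.sum_congr rfl fun b _ => ?_
    rw [mul_assoc, ← mul_pow, ← Complex.exp_add]
    congr 3; ring

theorem isOpen_strip' (φ c : ℝ) : IsOpen {s : ℂ | |s.im - φ| < c} :=
  isOpen_lt ((continuous_abs.comp (Complex.continuous_im.sub continuous_const))) continuous_const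

theorem convex_strip' (φ c : ℝ) : Convex ℝ {s : ℂ | |s.im - φ| < c} := by
  have h : {s : ℂ | |s.im - φ| < c} = Complex.imLm ⁻¹' (ball φ c) := by
    ext s; simp [mem_ball, Real.dist_eq]
  rw [h]
  exact (convex_ball φ c).linear_preimage _

/-- functions with exponential one are constant -/
theorem const_of_exp {U : Set ℂ} (hU : IsOpen U) (hc : Convex ℝ U) {g : ℂ → ℂ}
    (hg : DifferentiableOn ℂ g U) (h : ∀ s ∈ U, Complex.exp (g s) = 1) {s s' : ℂ} (hs : s ∈ U)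
    (hs' : s' ∈ U) : g s = g s' := by
  refine hU.is_const_of_deriv_eq_zero hc.isPreconnected hg ?_ hs hs'
  intro z hz
  have h1 : HasDerivAt (fun z => Complex.exp (g z)) (Complex.exp (g z) * deriv g z) z :=
    ((hg.differentiableAt (hU.mem_nhds hz)).hasDerivAt).cexp
  have h2 : (fun z => Complex.exp (g z)) =ᶠ[𝓝 z] fun _ => (1 : ℂ) := by
    filter_upwards [hU.mem_nhds hz] with w hw using h w hw
  have h3 := h1.congr_of_eventuallyEq h2.symm
  have h4 := h3.unique (hasDerivAt_const z (1 : ℂ))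
  rw [h z hz, one_mul] at h4
  simpa using h4

/-- weaker tolerance -/
noncomputable def St.weaken {n N : ℕ} {l : Fin n → ℝ} {m : Fin n → ℤ} {v κ κ1 : Fin n → ℝ} {Me : ℕ}
    {c r1 B C0 : ℝ} {Good : (Fin n → ℂ) → (Fin n → ℂ) → Prop} {ρ ρ' τ : ℝ} (h : ρ ≤ ρ')
    (d : St n N l m v κ κ1 Me c r1 B C0 Good ρ τ) :
    St n N l m v κ κ1 Me c r1 B C0 Good ρ' τ where
  φ := d.φ
  L := d.L
  w := d.w
  hL := d.hL
  hw := d.hw
  good := d.good
  near := fun u hu s hs => (d.near u hu s hs).trans h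
  wB := d.wB
  wn := fun u hu => (d.wn u hu).trans h
  lip := d.lip
  mL := d.mL
  cross := d.cross
  poly := d.poly

/-- the strip -/
def Strip (φ c : ℝ) : Set ℂ := {s : ℂ | |s.im - φ| < c}

/-- points of the variety outside of `H = 0` -/
def Gd (x y : Fin n → E) (H : MvPolynomial (Fin n ⊕ Fin n) ℂ) (z y' : Fin n → ℂ) : Prop :=
  Sum.elim z y' ∈ Pt (Sum.elim x y) ∧ eval (Sum.elim z y') H ≠ 0

/-- holomorphic families with logarithms -/
theorem lift_L {P : MvPolynomial (Fin n) ℂ} {x y : Fin n → E}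
    (hx : ∀ g : MvPolynomial (Fin n) ℂ, aeval x g = 0 ↔ P ∣ g) (hy : ∀ l, y l ≠ 0) (htr : Tr1 x)
    {m : Fin n → ℤ}
    (hη : Transcendental (IntermediateField.adjoin ℂ (Set.range x)) (∏ i, y i ^ m i))
    {H : MvPolynomial (Fin n ⊕ Fin n) ℂ} (hH : aeval (Sum.elim x y) H ≠ 0) :
    ∃ (H1 : MvPolynomial (Option (Fin n)) ℂ) (A : Fin n → Polynomial (MvPolynomial (Option (Fin n)) ℂ))
      (N : ℕ), aeval (oe (∏ i, y i ^ m i) x) H1 ≠ 0 ∧
      (∀ i, ∃ b ∈ Finset.range (N + 1), aeval (oe (∏ i, y i ^ m i) x) ((A i).coeff b) ≠ 0) ∧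
      (∀ i b, (optionEquivLeft ℂ (Fin n) ((A i).coeff b)).natDegree ≤ N) ∧
      ∀ (U : Set ((Fin n → ℂ) × ℂ)), IsOpen U → Convex ℝ U → U.Nonempty →
      ∀ X : (Fin n → ℂ) → Fin n → ℂ, (∀ i, DifferentiableOn ℂ (fun p : (Fin n → ℂ) × ℂ => X p.1 i) U) →
      (∀ p ∈ U, eval (X p.1) P = 0) → (∀ p ∈ U, eval (oe (Complex.exp p.2) (X p.1)) H1 ≠ 0) →
      ∃ L : Fin n → (Fin n → ℂ) × ℂ → ℂ, (∀ i, DifferentiableOn ℂ (L i) U) ∧ ∀ p ∈ U,
        (∀ i, ∑ b ∈ Finset.range (N + 1), eval (oe (Complex.exp p.2) (X p.1)) ((A i).coeff b) *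
          Complex.exp (L i p) ^ b = 0) ∧
        Complex.exp (∑ i, (m i : ℂ) * L i p - p.2) = 1 ∧
        Gd x y H (X p.1) (fun i => Complex.exp (L i p)) := by
  classical
  set η : E := ∏ i, y i ^ m i with hηd
  set ζ : Option (Fin n) → E := oe η x with hζ
  have hrange : Set.range ζ = insert η (Set.range x) := by
    ext z
    constructor
    · rintro ⟨o, rfl⟩
      rcases o with _ | l
      · exact Or.inl rfl
      · exact Or.inr ⟨l, rfl⟩
    · rintro (rfl | ⟨l, rfl⟩)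
      · exact ⟨none, rfl⟩
      · exact ⟨some l, rfl⟩
  have hall : ∀ g : E, IsAlgebraic (IntermediateField.adjoin ℂ (Set.range ζ)) g := by
    intro g
    rw [hrange]
    exact htr η g hη
  set f : Fin n ⊕ (Fin n ⊕ Unit) → E := Sum.elim y (Sum.elim (fun l => (y l)⁻¹)
    (fun _ => (aeval (Sum.elim x y) H)⁻¹)) with hf
  obtain ⟨H1, hH1, hlift⟩ := lift_alg ζ f (fun k => hall (f k))
  choose A hA1 hA2 using fun i => Pool.Agent.Q206.EG.alg_poly ζ (y i) (hall (y i))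
  obtain ⟨N1, hN1⟩ : ∃ N1, ∀ i, (A i).natDegree ≤ N1 :=
    ⟨Finset.univ.sup fun i => (A i).natDegree, fun i =>
      Finset.le_sup (f := fun i => (A i).natDegree) (Finset.mem_univ i)⟩
  obtain ⟨N2, hN2'⟩ : ∃ N2, ∀ i, ∀ b ∈ Finset.range (N1 + 1),
      (optionEquivLeft ℂ (Fin n) ((A i).coeff b)).natDegree ≤ N2 := by
    refine ⟨Finset.univ.sup fun i => (Finset.range (N1 + 1)).sup fun b =>
      (optionEquivLeft ℂ (Fin n) ((A i).coeff b)).natDegree, fun i b hb => ?_⟩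
    have h1 : (optionEquivLeft ℂ (Fin n) ((A i).coeff b)).natDegree ≤
          (Finset.range (N1 + 1)).sup fun b =>
            (optionEquivLeft ℂ (Fin n) ((A i).coeff b)).natDegree :=
        Finset.le_sup (f := fun b => (optionEquivLeft ℂ (Fin n) ((A i).coeff b)).natDegree) hb
    exact h1.trans (Finset.le_sup (f := fun i => (Finset.range (N1 + 1)).sup fun b =>
          (optionEquivLeft ℂ (Fin n) ((A i).coeff b)).natDegree) (Finset.mem_univ i))
  have hN2 : ∀ i b, (optionEquivLeft ℂ (Fin n) ((A i).coeff b)).natDegree ≤ N1 + N2 := by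
    intro i b
    by_cases hb : b < N1 + 1
    · have := hN2' i b (Finset.mem_range.2 hb)
      omega
    · rw [Polynomial.coeff_eq_zero_of_natDegree_lt (by have := hN1 i; omega), map_zero,
        Polynomial.natDegree_zero]
      exact Nat.zero_le _
  refine ⟨H1, A, N1 + N2, hH1, fun i => ?_, hN2, ?_⟩
  · obtain ⟨b, hb⟩ := hA1 i
    refine ⟨b, ?_, hb⟩
    rw [Finset.mem_range]
    by_contra hcon
    apply hb
    rw [Polynomial.coeff_eq_zero_of_natDegree_lt (by have := hN1 i; omega), map_zero]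
  intro U hUo hUc hUne X hXd hXP htH
  obtain ⟨t, ht⟩ : ∃ t : (Fin n → ℂ) × ℂ → Option (Fin n) → ℂ,
    t = fun p => oe (Complex.exp p.2) (X p.1) := ⟨_, rfl⟩
  have hte : ∀ p, t p = oe (Complex.exp p.2) (X p.1) := fun p => by rw [ht]
  have htd : ∀ i, DifferentiableOn ℂ (fun p => t p i) U := by
    rintro (_ | i)
    · simp only [hte, oe_none]
      fun_prop
    · simp only [hte, oe_some]
      exact hXd i
  have htP : ∀ p ∈ U, t p ∈ Pt ζ := fun p hp => by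
    rw [hte]; exact pt_oe hx hη (hXP p hp) _
  obtain ⟨q, hqd, hqP⟩ := hlift U hUo hUc hUne t htd htP (fun p hp => by rw [hte]; exact htH p hp)
  have hyinv : ∀ p ∈ U, ∀ i, q p (Sum.inl i) * q p (Sum.inr (Sum.inl i)) = 1 := by
    intro u hu l
    have := hqP u hu (MvPolynomial.X (Sum.inr (Sum.inl l)) *
      MvPolynomial.X (Sum.inr (Sum.inr (Sum.inl l))) - 1) (by
      simp only [map_sub, map_mul, aeval_X, map_one, Sum.elim_inr, hf, Sum.elim_inl]
      rw [mul_inv_cancel₀ (hy l), sub_self])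
    simp only [map_sub, map_mul, eval_X, map_one, Sum.elim_inr] at this
    linear_combination this
  have hyn : ∀ p ∈ U, ∀ i, q p (Sum.inl i) ≠ 0 := by
    intro u hu l h
    have := hyinv u hu l
    rw [h, zero_mul] at this
    exact zero_ne_one this
  have hyinv' : ∀ p ∈ U, ∀ i, q p (Sum.inr (Sum.inl i)) = (q p (Sum.inl i))⁻¹ := fun u hu l =>
    eq_inv_of_mul_eq_one_right (hyinv u hu l)
  have hmon : ∀ p ∈ U, ∏ i, q p (Sum.inl i) ^ m i = Complex.exp p.2 := by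
    intro u hu
    have h1 := hqP u hu ((∏ l, (MvPolynomial.X (Sum.inr (Sum.inl l)) ^ (m l).toNat *
      MvPolynomial.X (Sum.inr (Sum.inr (Sum.inl l))) ^ (-(m l)).toNat)) -
      MvPolynomial.X (Sum.inl none)) (by
      simp only [map_sub, map_prod, map_mul, map_pow, aeval_X, Sum.elim_inr, Sum.elim_inl, hf, hζ,
        oe_none]
      rw [hηd, Pool.Agent.Helper57.RA.prod_zpow_rel y hy m, sub_self])
    simp only [map_sub, map_prod, map_mul, map_pow, eval_X, Sum.elim_inr, Sum.elim_inl, hte,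
      oe_none] at h1
    rw [Pool.Agent.Helper57.RA.prod_zpow_rel (fun l => q u (Sum.inl l)) (hyn u hu) m]
    rw [← sub_eq_zero, ← h1]
    congr 1
    refine Finset.prod_congr rfl fun l _ => ?_
    rw [hyinv' u hu l]
  have hrel : ∀ p ∈ U, ∀ i, ∑ b ∈ Finset.range (N1 + N2 + 1),
      eval (t p) ((A i).coeff b) * q p (Sum.inl i) ^ b = 0 := by
    intro p hp i
    have h1 := hqP p hp (∑ b ∈ Finset.range (N1 + N2 + 1),
        rename Sum.inl ((A i).coeff b) * MvPolynomial.X (Sum.inr (Sum.inl i)) ^ b) (by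
      rw [map_sum]
      simp only [map_mul, aeval_rename, map_pow, aeval_X, Sum.elim_inr, hf, Sum.elim_inl]
      have h2 := hA2 i
      rw [Polynomial.eval_map, Polynomial.eval₂_eq_sum_range' _
        (show (A i).natDegree < N1 + N2 + 1 by have := hN1 i; omega)] at h2
      exact h2)
    rw [map_sum] at h1
    simp only [map_mul, eval_rename, map_pow, eval_X] at h1
    exact h1
  -- the logarithms
  choose L hLd hLe using fun i => log_conv hUo hUc hUne (hqd (Sum.inl i)) (fun p hp => hyn p hp i)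
  refine ⟨L, hLd, fun p hp => ⟨fun i => ?_, ?_, ?_⟩⟩
  · rw [hLe i p hp, ← hte]
    exact hrel p hp i
  · rw [Complex.exp_sub, Complex.exp_sum]
    have h2 : ∏ i, Complex.exp ((m i : ℂ) * L i p) = ∏ i, q p (Sum.inl i) ^ m i := by
      refine Finset.prod_congr rfl fun i _ => ?_
      rw [Complex.exp_int_mul, hLe i p hp]
    rw [h2, hmon p hp]
    exact div_self (Complex.exp_ne_zero _)
  · have hLq : (fun i => Complex.exp (L i p)) = fun i => q p (Sum.inl i) :=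
      funext fun i => hLe i p hp
    rw [hLq]
    set rr : Fin n ⊕ Fin n → Option (Fin n) ⊕ (Fin n ⊕ (Fin n ⊕ Unit)) :=
      Sum.elim (fun l => Sum.inl (some l)) (fun l => Sum.inr (Sum.inl l)) with hrr
    have hrE : (Sum.elim ζ f) ∘ rr = Sum.elim x y := by
      funext i
      rcases i with l | l
      · simp [hrr, hζ]
      · simp [hrr, hf]
    have hrC : (Sum.elim (t p) (q p)) ∘ rr = Sum.elim (X p.1) (fun i => q p (Sum.inl i)) := by
      funext i
      rcases i with l | l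
      · simp [hrr, hte]
      · simp [hrr]
    refine ⟨?_, ?_⟩
    · intro g' hg'
      have := hqP p hp (rename rr g') (by rw [aeval_rename, hrE]; exact hg')
      rwa [eval_rename, hrC] at this
    · intro h0
      have := hqP p hp (rename rr H * MvPolynomial.X (Sum.inr (Sum.inr (Sum.inr ()))) - 1) (by
        simp only [map_sub, map_mul, aeval_X, map_one, Sum.elim_inr, hf]
        have hE : aeval (Sum.elim ζ (Sum.elim y (Sum.elim (fun l => (y l)⁻¹)
            (fun _ => (aeval (Sum.elim x y) H)⁻¹)))) (rename rr H) = aeval (Sum.elim x y) H := by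
          rw [← hf, aeval_rename, hrE]
        rw [hE, mul_inv_cancel₀ hH, sub_self])
      simp only [map_sub, map_mul, eval_X, map_one, Sum.elim_inr] at this
      rw [eval_rename, hrC, h0, zero_mul, zero_sub, neg_eq_zero] at this
      exact one_ne_zero this

section one

variable {N : ℕ} {c φ c0 : ℝ} {cc : Fin n → ℂ} {r : ℝ} {X : (Fin n → ℂ) → Fin n → ℂ}
  {A : Polynomial (MvPolynomial (Option (Fin n)) ℂ)} {L : (Fin n → ℂ) × ℂ → ℂ}

theorem near_L {ε δ ρ : ℝ} (hr : 0 < r) (hc0 : 0 < c0) (hε : 0 ≤ ε) (hεδ : ε / c0 ≤ δ)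
    (hst : ∀ (t : ℕ → ℝ → ℂ) (γ : ℝ → ℂ), ContinuousOn γ (Set.Icc 0 1) → γ 0 = 0 →
      (∃ b ∈ Finset.range (N + 1), t b 0 ≠ 0) →
      (∀ ξ ∈ Set.Icc (0 : ℝ) 1, ∀ b ∈ Finset.range (N + 1), ‖t b ξ - t b 0‖ ≤ δ * ‖t b 0‖) →
      (∀ ξ ∈ Set.Icc (0 : ℝ) 1, ∑ b ∈ Finset.range (N + 1), t b ξ * Complex.exp (γ ξ) ^ b = 0) →
      ‖γ 1‖ ≤ 2 * ρ)
    (hX : ∀ u ∈ ball cc r, ∀ b ∈ Finset.range (N + 1), ∀ j,
      ‖eval (X u) (cf (A.coeff b) j) - eval (X cc) (cf (A.coeff b) j)‖ ≤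
        ε * ‖eval (X cc) (cf (A.coeff b) j)‖)
    (hsec : ∀ s ∈ Strip φ c, ∀ b ∈ Finset.range (N + 1), ∀ D', c0 * ∑ j ∈ Finset.range D',
      ‖eval (X cc) (cf (A.coeff b) j)‖ * ‖Complex.exp s‖ ^ j ≤
        ‖eval (oe (Complex.exp s) (X cc)) (A.coeff b)‖)
    (hne : ∀ s ∈ Strip φ c, ∃ b ∈ Finset.range (N + 1),
      eval (oe (Complex.exp s) (X cc)) (A.coeff b) ≠ 0)
    (hL : ContinuousOn L (ball cc r ×ˢ Strip φ c))
    (hrel : ∀ p ∈ ball cc r ×ˢ Strip φ c, ∑ b ∈ Finset.range (N + 1),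
      eval (oe (Complex.exp p.2) (X p.1)) (A.coeff b) * Complex.exp (L p) ^ b = 0)
    {u : Fin n → ℂ} (hu : u ∈ ball cc r) {s : ℂ} (hs : s ∈ Strip φ c) :
    ‖L (u, s) - L (cc, s)‖ ≤ 2 * ρ := by
  have hccm : cc ∈ ball cc r := mem_ball_self hr
  have hmem : ∀ ξ ∈ Set.Icc (0 : ℝ) 1, cc + ξ • (u - cc) ∈ ball cc r := fun ξ hξ =>
    (convex_ball cc r).add_smul_sub_mem hccm hu hξ
  have h1 := branch (V := (Fin n → ℂ) × ℂ) (U := ball cc r ×ˢ Strip φ c) (L := L)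
    (co := fun b p => eval (oe (Complex.exp p.2) (X p.1)) (A.coeff b)) hst hL hrel
    (p := fun ξ => (cc + ξ • (u - cc), s))
    (Continuous.continuousOn (by fun_prop)) (fun ξ hξ => ⟨hmem ξ hξ, hs⟩)
    (by simpa using hne s hs) (by
      intro ξ hξ b hb
      simp only [zero_smul, add_zero]
      refine (ev_close hc0 hε (hX _ (hmem ξ hξ) b hb) (hsec s hs b hb)).trans ?_
      exact mul_le_mul_of_nonneg_right hεδ (norm_nonneg _))
  simpa using h1

theorem lip_L {r1 δ ρ : ℝ} (hr : 0 < r) (hc0 : 0 < c0) (hr1N : N * r1 ≤ 1)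
    (hr1δ : 2 * (N * r1) / c0 ≤ δ)
    (hst : ∀ (t : ℕ → ℝ → ℂ) (γ : ℝ → ℂ), ContinuousOn γ (Set.Icc 0 1) → γ 0 = 0 →
      (∃ b ∈ Finset.range (N + 1), t b 0 ≠ 0) →
      (∀ ξ ∈ Set.Icc (0 : ℝ) 1, ∀ b ∈ Finset.range (N + 1), ‖t b ξ - t b 0‖ ≤ δ * ‖t b 0‖) →
      (∀ ξ ∈ Set.Icc (0 : ℝ) 1, ∑ b ∈ Finset.range (N + 1), t b ξ * Complex.exp (γ ξ) ^ b = 0) →
      ‖γ 1‖ ≤ 2 * ρ)
    (hN2 : ∀ b, (optionEquivLeft ℂ (Fin n) (A.coeff b)).natDegree ≤ N)
    (hsec : ∀ s ∈ Strip φ c, ∀ b ∈ Finset.range (N + 1), ∀ D', c0 * ∑ j ∈ Finset.range D',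
      ‖eval (X cc) (cf (A.coeff b) j)‖ * ‖Complex.exp s‖ ^ j ≤
        ‖eval (oe (Complex.exp s) (X cc)) (A.coeff b)‖)
    (hne : ∀ s ∈ Strip φ c, ∃ b ∈ Finset.range (N + 1),
      eval (oe (Complex.exp s) (X cc)) (A.coeff b) ≠ 0)
    (hL : ContinuousOn L (ball cc r ×ˢ Strip φ c))
    (hrel : ∀ p ∈ ball cc r ×ˢ Strip φ c, ∑ b ∈ Finset.range (N + 1),
      eval (oe (Complex.exp p.2) (X p.1)) (A.coeff b) * Complex.exp (L p) ^ b = 0)
    {s s' : ℂ} (hs : s ∈ Strip φ c) (hs' : s' ∈ Strip φ c) (hss : ‖s - s'‖ ≤ r1) :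
    ‖L (cc, s) - L (cc, s')‖ ≤ 2 * ρ := by
  have hccm : cc ∈ ball cc r := mem_ball_self hr
  have hmem : ∀ ξ ∈ Set.Icc (0 : ℝ) 1, s' + ξ • (s - s') ∈ Strip φ c := fun ξ hξ =>
    (convex_strip' φ c).add_smul_sub_mem hs' hs hξ
  have h1 := branch (V := (Fin n → ℂ) × ℂ) (U := ball cc r ×ˢ Strip φ c) (L := L)
    (co := fun b p => eval (oe (Complex.exp p.2) (X p.1)) (A.coeff b)) hst hL hrel
    (p := fun ξ => (cc, s' + ξ • (s - s')))
    (Continuous.continuousOn (by fun_prop)) (fun ξ hξ => ⟨hccm, hmem ξ hξ⟩)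
    (by simpa using hne s' hs') (by
      intro ξ hξ b hb
      simp only [zero_smul, add_zero]
      have h2 := ev_closeY (X := X cc) (s := s') (s' := s' + ξ • (s - s')) (r := r1)
        (hN2 b) hc0 (by
          rw [add_sub_cancel_left, norm_smul, Real.norm_eq_abs, abs_of_nonneg hξ.1]
          have := norm_nonneg (s - s')
          nlinarith [hξ.2]) hr1N (hsec s' hs' b hb)
      refine h2.trans ?_
      exact mul_le_mul_of_nonneg_right hr1δ (norm_nonneg _))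
  simpa using h1

end one

/-- the crossing -/
theorem cross_L {l : Fin n → ℝ} {m : Fin n → ℤ} {S : Finset (Fin n → ℚ)}
    (hm1 : ∀ a : Fin n → ℚ, ∑ i, l i * (a i : ℝ) = 0 → ∑ i, (m i : ℝ) * (a i : ℝ) = 0)
    (hm2 : ∀ a ∈ S, ∑ i, l i * (a i : ℝ) ≠ 0 →
      0 < (∑ i, l i * (a i : ℝ)) * (∑ i, (m i : ℝ) * (a i : ℝ)))
    {C B : ℝ} (hC : 0 ≤ C) :
    ∃ K0 : ℝ, 0 ≤ K0 ∧ ∀ (τ φ c : ℝ) (L : Fin n → ℂ → ℂ) (w0 : ℂ), 0 < c → 1 ≤ Real.log τ →
      (∀ i, ContinuousOn (L i) (Strip φ c)) →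
      (∀ s ∈ Strip φ c, ∑ i, (m i : ℝ) * (L i s).re = s.re) →
      (∀ s ∈ Strip φ c, (∀ i, |(L i s).re| ≤ C * Real.log τ) ∨ ∃ σ ∈ S, ∃ lam : ℝ, ∀ i,
        |(L i s).re - (σ i : ℝ) * lam| ≤ C * Real.log τ) → ‖w0‖ ≤ B →
      ∃ σ : ℝ, ∑ i, l i * (L i ((σ : ℂ) + (φ : ℂ) * Complex.I)).re = w0.re ∧
        |σ| ≤ K0 * Real.log τ := by
  obtain ⟨θ, hθ, hθS⟩ := exists_theta S
    (fun q : Fin n → ℚ => (∑ i, l i * (q i : ℝ)) / (∑ i, (m i : ℝ) * (q i : ℝ)))
  set Am : ℝ := ∑ i, |(m i : ℝ)| with hAm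
  set Al : ℝ := ∑ i, |l i| with hAl
  have hAm0 : 0 ≤ Am := Finset.sum_nonneg fun _ _ => abs_nonneg _
  have hAl0 : 0 ≤ Al := Finset.sum_nonneg fun _ _ => abs_nonneg _
  set K0 : ℝ := Am * C + (Al * C + |B| + 1) / θ + 1 with hK0d
  have hK00 : 0 ≤ K0 := by rw [hK0d]; positivity
  have hK01 : Am * C < K0 := by
    have : 0 ≤ (Al * C + |B| + 1) / θ := by positivity
    rw [hK0d]; linarith
  have hK02 : Al * C + |B| + 1 ≤ θ * (K0 - Am * C) := by
    have : θ * (K0 - Am * C) = Al * C + |B| + 1 + θ := by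
      rw [hK0d]; field_simp; ring
    rw [this]; linarith
  refine ⟨K0, hK00, fun τ φ c L w0 hc hlog1 hLc hmre hfar2 hwB => ?_⟩
  have hends : ∀ s ∈ Strip φ c, K0 * Real.log τ ≤ |s.re| →
      (0 < s.re → |B| ≤ ∑ i, l i * (L i s).re) ∧
      (s.re < 0 → ∑ i, l i * (L i s).re ≤ -|B|) := by
    intro s hs hbig
    have hsm := hmre s hs
    have hCl : 0 ≤ C * Real.log τ := by positivity
    have hKl : Am * C * Real.log τ < K0 * Real.log τ := by
      apply mul_lt_mul_of_pos_right hK01; linarith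
    rcases hfar2 s hs with h1 | ⟨σ, hσ, lam, h1⟩
    · exfalso
      have h2 : |s.re| ≤ Am * (C * Real.log τ) := by
        rw [← hsm, hAm, Finset.sum_mul]
        refine (Finset.abs_sum_le_sum_abs _ _).trans (Finset.sum_le_sum fun i _ => ?_)
        rw [abs_mul]
        exact mul_le_mul_of_nonneg_left (h1 i) (abs_nonneg _)
      linarith
    · set mq : ℝ := ∑ i, (m i : ℝ) * (σ i : ℝ) with hmq
      set lq : ℝ := ∑ i, l i * (σ i : ℝ) with hlq
      have h2 : |s.re - mq * lam| ≤ Am * (C * Real.log τ) := by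
        rw [← hsm, hAm, Finset.sum_mul, Finset.sum_mul, ← Finset.sum_sub_distrib]
        refine (Finset.abs_sum_le_sum_abs _ _).trans (Finset.sum_le_sum fun i _ => ?_)
        rw [show (m i : ℝ) * (L i s).re - (m i : ℝ) * (σ i : ℝ) * lam =
          (m i : ℝ) * ((L i s).re - (σ i : ℝ) * lam) by ring, abs_mul]
        exact mul_le_mul_of_nonneg_left (h1 i) (abs_nonneg _)
      have h3 : |∑ i, l i * (L i s).re - lq * lam| ≤ Al * (C * Real.log τ) := by
        rw [hAl, Finset.sum_mul, Finset.sum_mul, ← Finset.sum_sub_distrib]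
        refine (Finset.abs_sum_le_sum_abs _ _).trans (Finset.sum_le_sum fun i _ => ?_)
        rw [show l i * (L i s).re - l i * (σ i : ℝ) * lam =
          l i * ((L i s).re - (σ i : ℝ) * lam) by ring, abs_mul]
        exact mul_le_mul_of_nonneg_left (h1 i) (abs_nonneg _)
      have hmq0 : mq ≠ 0 := by
        intro h0
        rw [h0, zero_mul, sub_zero] at h2
        linarith
      have hlq0 : lq ≠ 0 := fun h0 => hmq0 (hm1 σ h0)
      have hpos : 0 < lq * mq := hm2 σ hσ hlq0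
      have hratio : 0 < lq / mq := by
        rw [show lq / mq = (lq * mq) / (mq * mq) by field_simp]
        exact div_pos hpos (mul_self_pos.2 hmq0)
      have hθq : θ ≤ lq / mq := hθS σ hσ hratio
      have e1 : lq * lam = lq / mq * (mq * lam) := by field_simp
      rw [abs_le] at h2 h3
      have hK3 : Al * (C * Real.log τ) + |B| ≤ θ * ((K0 - Am * C) * Real.log τ) := by
        have h4 := mul_le_mul_of_nonneg_right hK02 (show 0 ≤ Real.log τ by linarith)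
        have h5 : |B| ≤ |B| * Real.log τ := le_mul_of_one_le_right (abs_nonneg _) hlog1
        nlinarith
      have h5 : 0 ≤ (K0 - Am * C) * Real.log τ := mul_nonneg (by linarith) (by linarith)
      refine ⟨fun hpos' => ?_, fun hneg' => ?_⟩
      · rw [abs_of_pos hpos'] at hbig
        have h4 : (K0 - Am * C) * Real.log τ ≤ mq * lam := by nlinarith
        have h6 : θ * ((K0 - Am * C) * Real.log τ) ≤ lq * lam := by
          rw [e1]
          exact mul_le_mul hθq h4 h5 hratio.le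
        linarith [h3.1]
      · rw [abs_of_neg hneg'] at hbig
        have h4 : (K0 - Am * C) * Real.log τ ≤ -(mq * lam) := by nlinarith
        have h6 : θ * ((K0 - Am * C) * Real.log τ) ≤ -(lq * lam) := by
          rw [e1, ← mul_neg]
          exact mul_le_mul hθq h4 h5 hratio.le
        linarith [h3.2]
  have hsline : ∀ σ : ℝ, ((σ : ℂ) + (φ : ℂ) * Complex.I) ∈ Strip φ c := by
    intro σ
    show |((σ : ℂ) + (φ : ℂ) * Complex.I).im - φ| < c
    simp [hc]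
  have hsre : ∀ σ : ℝ, ((σ : ℂ) + (φ : ℂ) * Complex.I).re = σ := by intro σ; simp
  have hKp : 0 < K0 * Real.log τ := by
    have : 0 < K0 := lt_of_le_of_lt (by positivity) hK01
    positivity
  have hcont : ContinuousOn (fun σ : ℝ => ∑ i, l i * (L i ((σ : ℂ) + (φ : ℂ) * Complex.I)).re)
      (Set.Icc (-(K0 * Real.log τ)) (K0 * Real.log τ)) := by
    refine continuousOn_finsetSum _ fun i _ => ?_
    refine ContinuousOn.mul continuousOn_const ?_
    refine Complex.continuous_re.comp_continuousOn ?_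
    refine (hLc i).comp (f := fun σ : ℝ => (σ : ℂ) + (φ : ℂ) * Complex.I) ?_ ?_
    · fun_prop
    · intro σ _; exact hsline σ
  have h1 := intermediate_value_Icc (show -(K0 * Real.log τ) ≤ K0 * Real.log τ by linarith) hcont
  have hwre : |w0.re| ≤ B := (Complex.abs_re_le_norm _).trans hwB
  have hBB := le_abs_self B
  rw [abs_le] at hwre
  have e1 := (hends _ (hsline (K0 * Real.log τ)) (by
    rw [hsre]; exact le_abs_self _)).1 (by rw [hsre]; exact hKp)
  have e2 := (hends _ (hsline (-(K0 * Real.log τ))) (by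
    rw [hsre, abs_neg]; exact le_abs_self _)).2 (by rw [hsre]; linarith)
  obtain ⟨σ, hσ, hσ2⟩ := h1 (show w0.re ∈ Set.Icc
    (∑ i, l i * (L i (((-(K0 * Real.log τ) : ℝ) : ℂ) + (φ : ℂ) * Complex.I)).re)
    (∑ i, l i * (L i (((K0 * Real.log τ : ℝ) : ℂ) + (φ : ℂ) * Complex.I)).re) from
    ⟨by linarith, by linarith⟩)
  exact ⟨σ, hσ2, abs_le.2 hσ⟩

end Pool.Agent.Helper57.HT
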